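import Pool.Agent.Lib.MP_b685ef_ag.ASX.Spec

section
/-!
# MP_b685ef_ag, theorem ASX, module LEADX (helper47)
-/
set_option linter.all false

namespace ASX

open Finset ASur AST

namespace LEADXaux

variable {C : Type} [NormedField C] [IsUltrametricDist C]

/-- One term of the expansion. -/
theorem term {σ : Type} [Fintype σ] {D e : ℕ} {ρ ζ : C} {Θ : Polynomial C}
    (hΘ : ∀ m, ‖Θ.coeff m‖ ≤ ‖ζ - 1‖ ^ m) (hlam : ρ ^ D = ζ - 1) (hρ : ρ ≠ 0) (hρ1 : ‖ρ‖ < 1)
    (c : σ → C) (hc : ∀ u, ‖c u‖ ≤ 1) (l : σ → ℕ) (he : e ≤ D * ∑ u, l u) :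
    ‖(∏ u, Θ.coeff (l u) * c u ^ l u) / ρ ^ e‖ ≤ 1 ∧
    rd ((∏ u, Θ.coeff (l u) * c u ^ l u) / ρ ^ e) =
      if e = D * ∑ u, l u then ∏ u, EE ζ Θ (l u) * rd (c u) ^ l u else 0 := by
  have hlam0 : ζ - 1 ≠ 0 := by rw [← hlam]; exact pow_ne_zero _ hρ
  have hlp : 0 < ‖ζ - 1‖ := norm_pos_iff.2 hlam0
  have hn1 : ∀ u, ‖Θ.coeff (l u) / (ζ - 1) ^ l u‖ ≤ 1 := fun u => by
    rw [norm_div, norm_pow, div_le_one (pow_pos hlp _)]
    exact hΘ (l u)
  have hn2 : ∀ u, ‖c u ^ l u‖ ≤ 1 := fun u => by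
    rw [norm_pow]
    exact pow_le_one₀ (norm_nonneg _) (hc u)
  have hn : ∀ u, ‖Θ.coeff (l u) / (ζ - 1) ^ l u * c u ^ l u‖ ≤ 1 := fun u => by
    rw [norm_mul]
    exact mul_le_one₀ (hn1 u) (norm_nonneg _) (hn2 u)
  have key : (∏ u, Θ.coeff (l u) * c u ^ l u) / ρ ^ e =
      ρ ^ (D * ∑ u, l u - e) * ∏ u, (Θ.coeff (l u) / (ζ - 1) ^ l u * c u ^ l u) := by
    have e1 : ∏ u, (ζ - 1) ^ l u = ρ ^ (D * ∑ u, l u) := by
      rw [Finset.prod_pow_eq_pow_sum, pow_mul, hlam]
    have e2 : ∏ u, Θ.coeff (l u) * c u ^ l u =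
        ρ ^ (D * ∑ u, l u) * ∏ u, (Θ.coeff (l u) / (ζ - 1) ^ l u * c u ^ l u) := by
      rw [← e1, ← Finset.prod_mul_distrib]
      refine Finset.prod_congr rfl fun u _ => ?_
      have : (ζ - 1) ^ l u ≠ 0 := pow_ne_zero _ hlam0
      field_simp
    have e3 : ρ ^ (D * ∑ u, l u) = ρ ^ (D * ∑ u, l u - e) * ρ ^ e := by
      rw [← pow_add, Nat.sub_add_cancel he]
    have e4 : ρ ^ e ≠ 0 := pow_ne_zero _ hρ
    rw [e2, e3]
    field_simp
  have hP := norm_prod_le_one univ fun u (_ : u ∈ univ) => hn u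
  refine ⟨?_, ?_⟩
  · rw [key, norm_mul, norm_pow]
    exact mul_le_one₀ (pow_le_one₀ (norm_nonneg _) hρ1.le) (norm_nonneg _) hP
  · rw [key]
    split_ifs with h
    · rw [h, Nat.sub_self, pow_zero, one_mul, rd_prod _ fun u _ => hn u]
      refine Finset.prod_congr rfl fun u _ => ?_
      rw [rd_mul (hn1 u) (hn2 u), rd_pow (hc u)]
      rfl
    · apply rd_of_lt
      rw [norm_mul, norm_pow]
      have h1 : ‖ρ‖ ^ (D * ∑ u, l u - e) < 1 := pow_lt_one₀ (norm_nonneg _) hρ1 (by omega)
      calc _ ≤ ‖ρ‖ ^ (D * ∑ u, l u - e) * 1 :=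
            mul_le_mul_of_nonneg_left hP (by positivity)
        _ < 1 := by rw [mul_one]; exact h1

end LEADXaux

open LEADXaux in
open Classical in
theorem LEADX_thm (hE : StmtEXPX) (hS : StmtSUBX) : StmtLEADX := by
  intro p _ D C _ _ ζ ρ ε Θ hΘ hlam hρ hρ1 k _ ι τ hτ n P _ V y hG f α hA i w hw
  have hD := hG.pos
  have hVinj : Function.Injective V := by
    intro s t hst
    by_contra hne
    have h1 := (hG.vert s).1
    have h2 := (hG.vert t).2 s hne
    rw [← hst, h1] at h2
    omega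
  have hVs : ∀ s, V s ∈ f.support := fun s => by
    rw [Finsupp.mem_support_iff, hA.lead s]
    exact hA.ne s
  let e : P → f.support := fun s => ⟨V s, hVs s⟩
  have he : Function.Injective e := fun s t h => hVinj (congrArg Subtype.val h)
  let c : f.support → C := fun u => τ (f u.1) ^ (p ^ i)
  have hc : ∀ u, ‖c u‖ ≤ 1 := fun u => by
    show ‖τ (f u.1) ^ (p ^ i)‖ ≤ 1
    rw [norm_pow]
    exact pow_le_one₀ (norm_nonneg _) (hτ.norm_le _)
  have hrc : ∀ u, rd (c u) = ι (f u.1) ^ (p ^ i) := fun u => by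
    show rd (τ (f u.1) ^ (p ^ i)) = _
    rw [rd_pow (hτ.norm_le _), hτ.rd_eq]
  have hle : ∀ l : f.support → ℕ, ∑ u, (l u : ℤ) • u.1 = w →
      ee y w ≤ ∑ u, l u * ee y u.1 ∧ ∑ u, l u * ee y u.1 ≤ D * ∑ u, l u := by
    intro l hl
    have h1 := (hS n D P V y hG f.support univ l (fun u => u.1)
      (fun u _ => (hA.mem u.1 u.2).1)).2
    rw [hl] at h1
    refine ⟨h1, ?_⟩
    rw [Finset.mul_sum]
    refine Finset.sum_le_sum fun u _ => ?_
    rw [Nat.mul_comm]
    exact Nat.mul_le_mul_right _ (hA.mem u.1 u.2).2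
  have hT : ∀ l : f.support → ℕ,
      ‖(if ∑ u : f.support, (l u : ℤ) • u.1 = w then
        ∏ u : f.support, Θ.coeff (l u) * c u ^ l u else 0) / ρ ^ ee y w‖ ≤ 1 ∧
      rd ((if ∑ u : f.support, (l u : ℤ) • u.1 = w then
        ∏ u : f.support, Θ.coeff (l u) * c u ^ l u else 0) / ρ ^ ee y w) =
      if ∑ u : f.support, (l u : ℤ) • u.1 = w ∧ ee y w = D * ∑ u, l u then
        ∏ u : f.support, EE ζ Θ (l u) * rd (c u) ^ l u else 0 := by
    intro l
    by_cases hl : ∑ u : f.support, (l u : ℤ) • u.1 = w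
    · have h1 := term hΘ.bound hlam hρ hρ1 c hc l ((hle l hl).1.trans (hle l hl).2)
      rw [if_pos hl]
      refine ⟨h1.1, ?_⟩
      rw [h1.2]
      simp only [hl, true_and]
    · rw [if_neg hl, if_neg (fun h => hl h.1), zero_div, norm_zero, rd_zero]
      exact ⟨zero_le_one, rfl⟩
  have hU : ∀ l : f.support → ℕ, ∑ u : f.support, (l u : ℤ) • u.1 = w →
      ee y w = D * ∑ u, l u → (∀ s, D ∣ y w s) ∧
        l = Function.extend e (fun s => y w s / D) (fun _ => 0) := by
    intro l hl h2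
    have h3 := hle l hl
    have h4 : ∑ u, l u * ee y u.1 = ∑ u, l u * D := by
      rw [← Finset.sum_mul, Nat.mul_comm _ D]
      omega
    have h5 := (Finset.sum_eq_sum_iff_of_le (s := univ) fun u _ =>
      Nat.mul_le_mul_left (l u) (hA.mem u.1 u.2).2).1 h4
    have h6 : ∀ u : f.support, u ∉ Set.range e → l u = 0 := by
      intro u hu
      by_contra hne
      have h7 := Nat.eq_of_mul_eq_mul_left (Nat.pos_of_ne_zero hne) (h5 u (mem_univ u))
      obtain ⟨s, hs⟩ := hA.eq u.1 u.2 h7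
      exact hu ⟨s, Subtype.ext hs.symm⟩
    have e1 : ∑ s, ((l (e s) : ℕ) : ℤ) • V s = w := by
      rw [← hl]
      refine Fintype.sum_of_injective e he _ _ (fun u hu => ?_) fun s => rfl
      rw [h6 u hu]
      simp
    have e2 : ∑ s, l (e s) = ∑ u, l u :=
      Fintype.sum_of_injective e he _ _ (fun u hu => h6 u hu) fun s => rfl
    have h8 := (hG.lin fun s => l (e s)).2.2
    simp only [e1, e2] at h8
    have h9 := h8 h2
    refine ⟨fun s => ⟨_, h9 s⟩, ?_⟩
    funext u
    by_cases hu : u ∈ Set.range e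
    · obtain ⟨s, rfl⟩ := hu
      rw [he.extend_apply, h9 s, Nat.mul_div_cancel_left _ hD]
    · rw [Function.extend_apply' _ _ _ (fun h => hu h), h6 u hu]
  have hE' := hE p C k τ Θ n f i w
  rw [hE', Finset.sum_div, rd_sum _ fun l _ => (hT l).1]
  rw [Finset.sum_congr rfl fun l _ => (hT l).2]
  by_cases hdiv : ∀ s, D ∣ y w s
  · rw [if_pos hdiv]
    set a : P → ℕ := fun s => y w s / D with ha
    have hya : ∀ s, y w s = D * a s := fun s => (Nat.mul_div_cancel' (hdiv s)).symm
    set L : f.support → ℕ := Function.extend e a (fun _ => 0) with hL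
    have hL1 : ∀ s, L (e s) = a s := fun s => he.extend_apply _ _ s
    have hL0 : ∀ u, u ∉ Set.range e → L u = 0 := fun u hu =>
      Function.extend_apply' _ _ _ fun h => hu h
    have e1 : ∑ u : f.support, (L u : ℤ) • u.1 = ∑ s, (a s : ℤ) • V s := by
      refine (Fintype.sum_of_injective e he _ _ (fun u hu => ?_) fun s => ?_).symm
      · rw [hL0 u hu]
        simp
      · rw [hL1]
    have e2 : ∑ u, L u = ∑ s, a s :=
      (Fintype.sum_of_injective e he _ _ (fun u hu => hL0 u hu) fun s => (hL1 s).symm).symm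
    have e3 : ∑ s, (a s : ℤ) • V s = w := by
      have h1 := hG.rep w hw
      have h2 : (D : ℤ) • ∑ s, (a s : ℤ) • V s = (D : ℤ) • w := by
        rw [h1, Finset.smul_sum]
        refine Finset.sum_congr rfl fun s _ => ?_
        rw [hya s, smul_smul]
        push_cast
        rfl
      exact smul_right_injective _ (show (D : ℤ) ≠ 0 by exact_mod_cast (by omega : D ≠ 0)) h2
    have e4 : ee y w = D * ∑ u, L u := by
      rw [e2, Finset.mul_sum]
      exact Finset.sum_congr rfl fun s _ => hya s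
    have e5 : ∏ u : f.support, EE ζ Θ (L u) * rd (c u) ^ L u =
        ∏ s, EE ζ Θ (y w s / D) * (ι (α s) ^ (p ^ i)) ^ (y w s / D) := by
      refine (Fintype.prod_of_injective e he _ _ (fun u hu => ?_) fun s => ?_).symm
      · rw [hL0 u hu, pow_zero, mul_one]
        show rd (Θ.coeff 0 / (ζ - 1) ^ 0) = 1
        rw [hΘ.zero, pow_zero, div_one, rd_one]
      · rw [hL1, hrc]
        show _ = EE ζ Θ (y w s / D) * (ι (f (V s)) ^ (p ^ i)) ^ (y w s / D)
        rw [hA.lead s]
    rw [← e5]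
    by_cases hmem : L ∈ Fintype.piFinset (fun _ : f.support => range (Θ.natDegree + 1))
    · rw [Finset.sum_eq_single L]
      · rw [if_pos ⟨e1.trans e3, e4⟩]
      · intro l _ hl
        rw [if_neg]
        rintro ⟨h1, h2⟩
        exact hl (hU l h1 h2).2
      · intro h
        exact absurd hmem h
    · rw [Finset.sum_eq_zero]
      · rw [Fintype.mem_piFinset] at hmem
        push Not at hmem
        obtain ⟨u, hu⟩ := hmem
        rw [Finset.mem_range, not_lt] at hu
        refine (Finset.prod_eq_zero (mem_univ u) ?_).symm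
        have h1 : EE ζ Θ (L u) = 0 := by
          show rd (Θ.coeff (L u) / (ζ - 1) ^ L u) = 0
          rw [Polynomial.coeff_eq_zero_of_natDegree_lt (by omega), zero_div, rd_zero]
        rw [h1, zero_mul]
      · intro l hl
        rw [if_neg]
        rintro ⟨h1, h2⟩
        apply hmem
        have h3 := (hU l h1 h2).2
        rw [show L = l from h3.symm]
        exact hl
  · rw [if_neg hdiv]
    refine Finset.sum_eq_zero fun l _ => ?_
    rw [if_neg]
    rintro ⟨h1, h2⟩
    exact hdiv (hU l h1 h2).1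

end ASX
end

section
/-!
# MP_b685ef_ag, theorem ASX: module SUMX (helper20)

The sum of `G(τ x)` over the points of the torus.
-/
set_option linter.all false

namespace ASX

open Finset ASur AST

namespace SUMXaux

theorem st_inj {C : Type} [NormedField C] [IsUltrametricDist C] {E : Type} [Field E]
    {ι : E →+* KK C} {τ : E →*₀ C} (h : IsTeich ι τ) {x y : E} (hxy : τ x = τ y) : x = y := by
  apply ι.injective
  rw [← h.rd_eq, ← h.rd_eq, hxy]

open Classical in
theorem st_one {C : Type} [NormedField C] [IsUltrametricDist C] {E : Type} [Field E]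
    [Fintype E] {ι : E →+* KK C} {τ : E →*₀ C} (h : IsTeich ι τ) (k : ℤ) :
    ∑ y : Eˣ, τ ((y ^ k : Eˣ) : E) =
      if ((Fintype.card E - 1 : ℕ) : ℤ) ∣ k then (Fintype.card E : C) - 1 else 0 := by
  have hcard : Fintype.card Eˣ = Fintype.card E - 1 := Fintype.card_units (α := E)
  have hQ : 1 < Fintype.card E := Fintype.one_lt_card
  have key := sum_hom_units (((τ : E →* C).comp (Units.coeHom E)).comp (zpowGroupHom (α := Eˣ) k))
  have e1 : ∀ y : Eˣ, (((τ : E →* C).comp (Units.coeHom E)).comp (zpowGroupHom (α := Eˣ) k)) y =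
      τ ((y ^ k : Eˣ) : E) := fun y => rfl
  simp only [e1] at key
  rw [key]
  have e2 : (((τ : E →* C).comp (Units.coeHom E)).comp (zpowGroupHom (α := Eˣ) k) = 1) ↔
      ((Fintype.card E - 1 : ℕ) : ℤ) ∣ k := by
    constructor
    · intro h1
      obtain ⟨g, hg⟩ := IsCyclic.exists_generator (α := Eˣ)
      have h2 : orderOf g = Fintype.card E - 1 := by
        rw [orderOf_eq_card_of_forall_mem_zpowers hg, Nat.card_eq_fintype_card, hcard]
      rw [← h2, orderOf_dvd_iff_zpow_eq_one]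
      have h3 : τ ((g ^ k : Eˣ) : E) = 1 := by
        rw [← e1, h1]
        rfl
      have h4 : ((g ^ k : Eˣ) : E) = 1 := st_inj h (by rw [h3, map_one])
      exact Units.ext h4
    · rintro ⟨m, rfl⟩
      ext y
      rw [e1, zpow_mul, zpow_natCast, ← hcard, pow_card_eq_one, one_zpow]
      simp
  by_cases hk : ((Fintype.card E - 1 : ℕ) : ℤ) ∣ k
  · rw [if_pos (e2.2 hk), if_pos hk, hcard, Nat.cast_sub hQ.le, Nat.cast_one]
  · rw [if_neg (fun h' => hk (e2.1 h')), if_neg hk, Nat.cast_zero]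

open Classical in
theorem st_mono {C : Type} [NormedField C] [IsUltrametricDist C] {E : Type} [Field E]
    [Fintype E] {ι : E →+* KK C} {τ : E →*₀ C} (h : IsTeich ι τ) (n : ℕ) (u : Fin n → ℤ) :
    ∑ x : Fin n → Eˣ, τ ((mono x u : Eˣ) : E) =
      if ∀ i, ((Fintype.card E - 1 : ℕ) : ℤ) ∣ u i then ((Fintype.card E : C) - 1) ^ n else 0 := by
  have e1 : ∀ x : Fin n → Eˣ, τ ((mono x u : Eˣ) : E) = ∏ i, τ ((x i ^ u i : Eˣ) : E) := by
    intro x
    unfold mono
    rw [Units.coe_prod, map_prod]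
  simp only [e1]
  have e2 := Finset.prod_univ_sum (fun _ : Fin n => (Finset.univ : Finset Eˣ))
    (fun i y => τ ((y ^ u i : Eˣ) : E))
  rw [Fintype.piFinset_univ] at e2
  rw [← e2]
  simp only [st_one h]
  split_ifs with hu
  · rw [Finset.prod_congr rfl fun i _ => if_pos (hu i)]
    simp
  · push Not at hu
    obtain ⟨i, hi⟩ := hu
    exact Finset.prod_eq_zero (Finset.mem_univ i) (if_neg hi)

theorem ee_smul {n D : ℕ} {P : Type} [Fintype P] {V : P → Fin n → ℤ}
    {y : (Fin n → ℤ) → P → ℕ} (h : Geo D V y) (m : ℕ) (u : Fin n → ℤ) (hu : Cone V u) :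
    ee y (m • u) = m * ee y u := by
  unfold ee
  rw [Finset.mul_sum]
  exact Finset.sum_congr rfl fun s _ => h.smul m u hu s

end SUMXaux

open Classical in
theorem sumx_thm : StmtSUMX := by
  intro C _ _ E _ _ ι τ hτ n D P _ V y hgeo L S hS G hG
  have hQ : 1 < Fintype.card E := Fintype.one_lt_card
  obtain ⟨Q, hQ1⟩ : ∃ Q : ℕ, Q = Fintype.card E - 1 := ⟨_, rfl⟩
  have hQ0 : 1 ≤ Q := by omega
  have hinj : Function.Injective fun u : Fin n → ℤ => Q • u := by
    intro u v huv
    funext i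
    have h1 := congrFun huv i
    simp only [Pi.smul_apply, nsmul_eq_mul] at h1
    exact mul_left_cancel₀ (by exact_mod_cast (by omega : Q ≠ 0)) h1
  unfold sumT evC
  rw [Finset.sum_comm]
  have e1 : ∀ u ∈ G.coeff.support, ∑ x : Fin n → Eˣ, G.coeff u * τ ((mono x u : Eˣ) : E) =
      if ∀ i, (Q : ℤ) ∣ u i then ((Fintype.card E : C) - 1) ^ n * G.coeff u else 0 := by
    intro u _
    rw [← Finset.mul_sum, SUMXaux.st_mono hτ, hQ1]
    split_ifs with hu
    · ring
    · ring
  rw [Finset.sum_congr rfl e1, ← Finset.sum_filter, ← Finset.mul_sum, ← hQ1]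
  congr 1
  rw [← Finset.sum_image (s := S) (g := fun u : Fin n → ℤ => Q • u) (f := fun v => G.coeff v)
    (fun u _ v _ h => hinj h)]
  apply Finset.sum_subset
  · intro u hu
    obtain ⟨hu1, hu2⟩ := Finset.mem_filter.1 hu
    choose w hw using hu2
    have hw' : u = Q • w := by
      funext i
      rw [hw i]
      simp
    rw [Finset.mem_image]
    obtain ⟨h1, h2⟩ := hG u (Finsupp.mem_support_iff.1 hu1)
    rw [hw'] at h1 h2
    have h3 : Cone V w := hgeo.sat Q w hQ0 h1
    rw [← hQ1, SUMXaux.ee_smul hgeo Q w h3] at h2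
    exact ⟨w, (hS w).2 ⟨h3, Nat.le_of_mul_le_mul_left h2 hQ0⟩, hw'.symm⟩
  · intro u hu hu'
    obtain ⟨w, hw, rfl⟩ := Finset.mem_image.1 hu
    by_contra hne
    apply hu'
    rw [Finset.mem_filter]
    refine ⟨Finsupp.mem_support_iff.2 hne, fun i => ?_⟩
    simp only [Pi.smul_apply, nsmul_eq_mul]
    exact Dvd.intro _ rfl

end ASX
end

section
/-!
# ASX/CLSX: the classes of the eigenvalues
-/
set_option linter.all false

namespace ASX

open Finset ASur AST

namespace CLSXaux

/-- every element of `β` has the norm of some `w m` -/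
theorem exists_level {C : Type} [NormedField C] (β : Multiset C)
    (hβ : ∀ x ∈ β, x ≠ 0) (w : ℕ → C) (hanti : StrictAnti fun m => ‖w m‖)
    (hlim : ∀ ε : ℝ, 0 < ε → ∃ m, ‖w m‖ < ε)
    (h0 : Multiset.card (β.filter fun x => ‖w 0‖ < ‖x‖) = 0)
    (hstep : ∀ m, Multiset.card (β.filter fun x => ‖w (m + 1)‖ < ‖x‖) =
      Multiset.card (β.filter fun x => ‖w m‖ < ‖x‖) +
      Multiset.card (β.filter fun x => ‖x‖ = ‖w m‖)) :
    ∀ x ∈ β, ∃ m, ‖x‖ = ‖w m‖ := by
  classical
  intro x hx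
  have hxpos : 0 < ‖x‖ := norm_pos_iff.2 (hβ x hx)
  have hE : ∃ m, ‖w m‖ < ‖x‖ := hlim _ hxpos
  have hspec := Nat.find_spec hE
  have hmin := fun m => Nat.find_min hE (m := m)
  generalize hN : Nat.find hE = N at hspec hmin
  cases N with
  | zero =>
    exfalso
    have h4 : x ∈ β.filter fun x => ‖w 0‖ < ‖x‖ := Multiset.mem_filter.mpr ⟨hx, hspec⟩
    rw [Multiset.card_eq_zero.mp h0] at h4
    exact absurd h4 (Multiset.notMem_zero x)
  | succ m =>
    refine ⟨m, ?_⟩
    have hle : ‖x‖ ≤ ‖w m‖ := not_lt.mp (hmin m (Nat.lt_succ_self m))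
    by_contra hne
    have hlt : ‖x‖ < ‖w m‖ := lt_of_le_of_ne hle hne
    have hww : ‖w (m + 1)‖ < ‖w m‖ := hanti (Nat.lt_succ_self m)
    have e1 : Multiset.card (β.filter fun x => ‖w (m + 1)‖ < ‖x‖) =
        Multiset.card (β.filter fun x => ‖w m‖ < ‖x‖) +
        Multiset.card (β.filter fun x => ‖x‖ = ‖w m‖) +
        Multiset.card (β.filter fun x => ‖w (m + 1)‖ < ‖x‖ ∧ ‖x‖ < ‖w m‖) := by
      rw [← Multiset.card_add, ← Multiset.card_add]
      congr 1
      ext y
      rw [Multiset.count_add, Multiset.count_add, Multiset.count_filter, Multiset.count_filter,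
        Multiset.count_filter, Multiset.count_filter]
      by_cases a1 : ‖w (m + 1)‖ < ‖y‖
      · rcases lt_trichotomy ‖y‖ ‖w m‖ with h | h | h
        · rw [if_pos a1, if_neg (by linarith), if_neg h.ne, if_pos ⟨a1, h⟩]; omega
        · rw [if_pos a1, if_neg (by linarith), if_pos h, if_neg (fun hh => by linarith [hh.2])]
          omega
        · rw [if_pos a1, if_pos h, if_neg h.ne', if_neg (fun hh => by linarith [hh.2])]
          omega
      · rw [if_neg a1, if_neg (by linarith), if_neg (fun hh => a1 (by linarith)),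
          if_neg (fun hh => a1 hh.1)]
    have e4 : Multiset.card (β.filter fun x => ‖w (m + 1)‖ < ‖x‖ ∧ ‖x‖ < ‖w m‖) = 0 := by
      have := hstep m
      omega
    have e5 : x ∈ β.filter fun x => ‖w (m + 1)‖ < ‖x‖ ∧ ‖x‖ < ‖w m‖ :=
      Multiset.mem_filter.mpr ⟨hx, hspec, hlt⟩
    rw [Multiset.card_eq_zero.mp e4] at e5
    exact absurd e5 (Multiset.notMem_zero x)

theorem card_eq_sum {γ κ : Type*} [Fintype κ] [DecidableEq κ] (g : γ → κ) (s : Multiset γ) :
    Multiset.card s = ∑ v, Multiset.card (s.filter fun x => g x = v) := by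
  induction s using Multiset.induction_on with
  | empty => simp
  | cons a s ih =>
    have h1 : ∀ v, Multiset.card ((a ::ₘ s).filter fun x => g x = v) =
        (if g a = v then 1 else 0) + Multiset.card (s.filter fun x => g x = v) := by
      intro v
      by_cases h : g a = v
      · rw [Multiset.filter_cons_of_pos (p := fun x => g x = v) s h, Multiset.card_cons, if_pos h]
        omega
      · rw [Multiset.filter_cons_of_neg (p := fun x => g x = v) s h, if_neg h]
        omega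
    rw [Multiset.card_cons, sum_congr rfl fun v _ => h1 v, sum_add_distrib, ← ih,
      Finset.sum_ite_eq univ (g a) (fun _ => 1), if_pos (mem_univ _)]
    omega

end CLSXaux

open Classical in
open CLSXaux in
theorem clsx_thm (hCNTX : StmtCNTX) (hLEVX : StmtLEVX) (hZETA : ASur.StmtZETA) : StmtCLSX := by
  intro p hp D hD C _ _ _ _ hpC j hj k _ _ _ ι τ hτ n P _ V y hG f α hA ψ hψ β hβ hT ρ hρ
  have hpp : p.Prime := hp.out
  have hp2 : 2 ≤ p := hpp.two_le
  have hDpos : 0 < D := Nat.pos_of_dvd_of_pos hD (by omega)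
  obtain ⟨hz0, hz1, -, -⟩ := hZETA p C hpC (ψ 1) (prim_of_char ψ hψ)
  have hρ0 : ρ ≠ 0 := by
    rintro rfl
    apply hz0
    rw [← hρ, zero_pow hDpos.ne']
  have hρ1 : ‖ρ‖ < 1 := by
    by_contra h
    push Not at h
    have : 1 ≤ ‖ρ ^ D‖ := by
      rw [norm_pow]; exact one_le_pow₀ h
    rw [hρ] at this
    linarith
  have hρpos : 0 < ‖ρ‖ := norm_pos_iff.2 hρ0
  set h := Module.finrank (ZMod p) k with hh
  have hhpos : 1 ≤ h := Module.finrank_pos
  have hcpos : 1 ≤ (p - 1) * h := Nat.mul_pos (by omega) (by omega)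
  haveI : CharP k p := (Algebra.charP_iff (ZMod p) k p).1 inferInstance
  set w : ℕ → C := fun m => ρ ^ ((p - 1) * m * h) with hw
  have hw0 : ∀ m, w m ≠ 0 := fun m => pow_ne_zero _ hρ0
  have hwpos : ∀ m, 0 < ‖w m‖ := fun m => norm_pos_iff.2 (hw0 m)
  have hwn : ∀ m, ‖w m‖ = ‖ρ‖ ^ ((p - 1) * m * h) := fun m => norm_pow _ _
  have hanti : StrictAnti fun m => ‖w m‖ := by
    refine strictAnti_nat_of_succ_lt fun m => ?_
    show ‖ρ ^ ((p - 1) * (m + 1) * h)‖ < ‖ρ ^ ((p - 1) * m * h)‖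
    rw [norm_pow, norm_pow]
    apply pow_lt_pow_right_of_lt_one₀ hρpos hρ1
    nlinarith
  have hlim : ∀ ε : ℝ, 0 < ε → ∃ m, ‖w m‖ < ε := by
    intro ε hε
    obtain ⟨m, hm⟩ := exists_pow_lt_of_lt_one hε hρ1
    refine ⟨m, ?_⟩
    show ‖ρ ^ ((p - 1) * m * h)‖ < ε
    rw [norm_pow]
    refine lt_of_le_of_lt (pow_le_pow_of_le_one (norm_nonneg _) hρ1.le ?_) hm
    nlinarith
  set l : (P → ℕ) → k := lX p D h α with hl
  -- the residues are not zero
  have hl0 : ∀ t, l t ≠ 0 := by
    intro t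
    simp only [hl]
    unfold lX RX
    refine mul_ne_zero ?_ ?_
    · refine Finset.prod_ne_zero_iff.mpr fun i _ => mul_ne_zero ?_ ?_
      · refine pow_ne_zero _ (inv_ne_zero ?_)
        intro h0
        rw [CharP.cast_eq_zero_iff k p, hpp.dvd_factorial] at h0
        have hmod : t i % D < D := Nat.mod_lt _ hDpos
        have h1 : (p - 1) / D * (t i % D) ≤ (p - 1) / D * D := Nat.mul_le_mul_left _ hmod.le
        rw [Nat.div_mul_cancel hD] at h1
        omega
      · exact pow_ne_zero _ (pow_ne_zero _ (hA.ne i))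
    · exact Finset.prod_ne_zero_iff.mpr fun i _ =>
        pow_ne_zero _ (pow_ne_zero _ (neg_ne_zero.2 one_ne_zero))
  have hl1 : ∀ t i, l t * (-1) ^ (h * i) ≠ 0 := fun t i =>
    mul_ne_zero (hl0 t) (pow_ne_zero _ (neg_ne_zero.2 one_ne_zero))
  choose S hS using fun m : ℕ => hLEVX n D P V y hG m
  have hcnt := fun m : ℕ => hCNTX p D hD C hpC j hj k ι n P V y hG f α hA ψ hψ β hT ρ hρ m
    (S m) (hS m)
  have hmap : ∀ t i, ι (l t) * (-1) ^ (h * i) = ι (l t * (-1) ^ (h * i)) := by
    intro t i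
    rw [map_mul, map_pow, map_neg, map_one]
  -- the formula for the classes
  have hE : ∀ (m : ℕ) (v : k), (Multiset.card (β.filter fun x => ‖x‖ = ‖w m‖ ∧
      rd (x / w m) = ι v) : ℤ) = NX D h V y l m v := by
    intro m v
    have h1 := (hcnt m).2 (ι v)
    refine Eq.trans h1 ?_
    unfold NX
    refine sum_congr rfl fun i _ => ?_
    congr 1
    rw [Nat.cast_inj, ← Set.ncard_coe_finset]
    congr 1
    ext u
    simp only [coe_filter, Set.mem_setOf_eq]
    rw [hS m u]
    constructor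
    · rintro ⟨⟨a1, -⟩, a2, a3⟩
      refine ⟨a1, a2, ?_⟩
      exact ι.injective ((hmap _ _).symm.trans a3)
    · rintro ⟨a1, a2, a3⟩
      refine ⟨⟨a1, by omega⟩, a2, ?_⟩
      exact (hmap _ _).trans (congrArg ι a3)
  -- the classes of `x` with `‖x‖ = ‖w m‖`
  have hrange : ∀ m, ∀ x ∈ β, ‖x‖ = ‖w m‖ → ∃ v : k, v ≠ 0 ∧ rd (x / w m) = ι v := by
    intro m x hx hxm
    by_contra hcon
    push Not at hcon
    have hdiv : ‖x / w m‖ = 1 := by rw [norm_div, hxm, div_self (hwpos m).ne']
    have hno : ∀ v : k, ι v ≠ rd (x / w m) := by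
      intro v hv
      by_cases hv0 : v = 0
      · rw [hv0, map_zero] at hv
        have := (rd_eq_zero_iff hdiv.le).1 hv.symm
        linarith
      · exact hcon v hv0 hv.symm
    have h1 := (hcnt m).2 (rd (x / w m))
    have h2 : ∀ i ∈ range (n + 1), (-1 : ℤ) ^ i * (n.choose i : ℤ) *
        (((S m).filter (fun u => ee y u + D * i = m ∧
          ι (lX p D h α (y u)) * (-1) ^ (h * i) = rd (x / w m))).card : ℤ) = 0 := by
      intro i _
      have h3 : ((S m).filter (fun u => ee y u + D * i = m ∧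
          ι (lX p D h α (y u)) * (-1) ^ (h * i) = rd (x / w m))) = ∅ := by
        refine filter_eq_empty_iff.2 fun u _ hu => ?_
        exact hno _ ((hmap (y u) i).symm.trans hu.2)
      rw [h3, card_empty]
      simp
    rw [sum_eq_zero h2] at h1
    have h4 : x ∈ β.filter fun z => ‖z‖ = ‖ρ ^ ((p - 1) * m * h)‖ ∧
        rd (z / ρ ^ ((p - 1) * m * h)) = rd (x / w m) := Multiset.mem_filter.2 ⟨hx, hxm, rfl⟩
    have h5 := Multiset.card_pos_iff_exists_mem.2 ⟨x, h4⟩
    have h6 : (Multiset.card (β.filter fun z => ‖z‖ = ‖ρ ^ ((p - 1) * m * h)‖ ∧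
        rd (z / ρ ^ ((p - 1) * m * h)) = rd (x / w m)) : ℤ) = 0 := h1
    omega
  have hS0 : ∀ m i (u : Fin n → ℤ), u ∈ S (m + 1) ∧ ee y u + D * i < m + 1 ↔
      u ∈ S m ∧ (ee y u + D * i < m ∨ ee y u + D * i = m) := by
    intro m i u
    rw [hS m u, hS (m + 1) u]
    constructor
    · rintro ⟨⟨a1, a2⟩, a3⟩
      exact ⟨⟨a1, by omega⟩, by omega⟩
    · rintro ⟨⟨a1, a2⟩, a3⟩
      exact ⟨⟨a1, by omega⟩, by omega⟩
  -- all elements of norm `‖w m‖`
  have hall : ∀ m, (Multiset.card (β.filter fun x => ‖x‖ = ‖w m‖) : ℤ) =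
      ∑ i ∈ range (n + 1), (-1) ^ i * (n.choose i : ℤ) *
        (((S m).filter (fun u => ee y u + D * i = m)).card : ℤ) := by
    intro m
    have hg : ∃ g : C → k, ∀ x ∈ β, ‖x‖ = ‖w m‖ → rd (x / w m) = ι (g x) := by
      have : ∀ x : C, ∃ v : k, x ∈ β → ‖x‖ = ‖w m‖ → rd (x / w m) = ι v := by
        intro x
        by_cases hx : x ∈ β ∧ ‖x‖ = ‖w m‖
        · obtain ⟨v, -, hv⟩ := hrange m x hx.1 hx.2
          exact ⟨v, fun _ _ => hv⟩
        · exact ⟨0, fun h1 h2 => absurd ⟨h1, h2⟩ hx⟩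
      choose g hg using this
      exact ⟨g, hg⟩
    obtain ⟨g, hg⟩ := hg
    rw [card_eq_sum g (β.filter fun x => ‖x‖ = ‖w m‖)]
    push_cast
    have h1 : ∀ v : k, (Multiset.card ((β.filter fun x => ‖x‖ = ‖w m‖).filter
        fun x => g x = v) : ℤ) = ∑ i ∈ range (n + 1), (-1) ^ i * (n.choose i : ℤ) *
        (((S m).filter (fun u => ee y u + D * i = m ∧ l (y u) * (-1) ^ (h * i) = v)).card : ℤ) := by
      intro v
      have h2 : (β.filter fun x => ‖x‖ = ‖w m‖).filter (fun x => g x = v) =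
          β.filter fun x => ‖x‖ = ‖w m‖ ∧ rd (x / w m) = ι v := by
        rw [Multiset.filter_filter]
        refine Multiset.filter_congr fun x hx => ?_
        constructor
        · rintro ⟨a1, a2⟩
          exact ⟨a2, by rw [hg x hx a2, a1]⟩
        · rintro ⟨a1, a2⟩
          exact ⟨ι.injective ((hg x hx a1).symm.trans a2), a1⟩
      rw [h2]
      have h3 := (hcnt m).2 (ι v)
      refine Eq.trans h3 ?_
      refine sum_congr rfl fun i _ => ?_
      congr 3
      refine filter_congr fun u _ => ?_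
      constructor
      · rintro ⟨a1, a2⟩
        exact ⟨a1, ι.injective ((hmap _ _).symm.trans a2)⟩
      · rintro ⟨a1, a2⟩
        exact ⟨a1, (hmap _ _).trans (congrArg ι a2)⟩
    rw [sum_congr rfl fun v _ => h1 v, sum_comm]
    refine sum_congr rfl fun i _ => ?_
    rw [← mul_sum, ← Nat.cast_sum]
    congr 2
    rw [card_eq_sum_card_fiberwise (f := fun u => l (y u) * (-1) ^ (h * i))
      (s := (S m).filter (fun u => ee y u + D * i = m)) (t := univ)
      (fun _ _ => mem_coe.2 (mem_univ _))]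
    refine sum_congr rfl fun v _ => ?_
    rw [filter_filter]
  have hN0 : Multiset.card (β.filter fun x => ‖w 0‖ < ‖x‖) = 0 := by
    have h1 := (hcnt 0).1
    have h2 : (Multiset.card (β.filter fun x => ‖w 0‖ < ‖x‖) : ℤ) = 0 := by
      refine Eq.trans h1 ?_
      refine sum_eq_zero fun i _ => ?_
      have : (S 0).filter (fun u => ee y u + D * i < 0) = ∅ :=
        filter_eq_empty_iff.2 fun u _ => Nat.not_lt_zero _
      rw [this, card_empty]
      simp
    exact_mod_cast h2
  have hstep : ∀ m, Multiset.card (β.filter fun x => ‖w (m + 1)‖ < ‖x‖) =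
      Multiset.card (β.filter fun x => ‖w m‖ < ‖x‖) +
      Multiset.card (β.filter fun x => ‖x‖ = ‖w m‖) := by
    intro m
    have h1 : (Multiset.card (β.filter fun x => ‖w (m + 1)‖ < ‖x‖) : ℤ) =
      Multiset.card (β.filter fun x => ‖w m‖ < ‖x‖) +
      Multiset.card (β.filter fun x => ‖x‖ = ‖w m‖) := by
      rw [hall m]
      refine Eq.trans (hcnt (m + 1)).1 ?_
      have h2 : (Multiset.card (β.filter fun x => ‖w m‖ < ‖x‖) : ℤ) = _ := (hcnt m).1
      rw [h2, ← sum_add_distrib]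
      refine sum_congr rfl fun i _ => ?_
      rw [← mul_add, ← Nat.cast_add]
      congr 2
      rw [← card_union_of_disjoint]
      · congr 1
        ext u
        simp only [mem_union, mem_filter]
        rw [hS0 m i u]
        tauto
      · rw [disjoint_left]
        intro u hu hu'
        rw [mem_filter] at hu hu'
        omega
    exact_mod_cast h1
  have hlevel := exists_level β hβ w hanti hlim hN0 hstep
  -- the equivalence
  have hiff : ∀ (m : ℕ) (v : k), v ≠ 0 → ∀ x : C,
      (‖x - τ v * ρ ^ ((p - 1) * m * h)‖ < ‖ρ‖ ^ ((p - 1) * m * h) ↔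
        ‖x‖ = ‖w m‖ ∧ rd (x / w m) = ι v) := by
    intro m v hv x
    have hτ1 : ‖τ v‖ = 1 := by
      refine le_antisymm (hτ.norm_le v) ?_
      by_contra hcon
      rw [not_le] at hcon
      have h1 := (rd_eq_zero_iff (hτ.norm_le v)).2 hcon
      rw [hτ.rd_eq] at h1
      exact hv ((map_eq_zero ι).1 h1)
    rw [← hwn m]
    change ‖x - τ v * w m‖ < ‖w m‖ ↔ _
    constructor
    · intro h1
      have h2 : ‖τ v * w m‖ = ‖w m‖ := by rw [norm_mul, hτ1, one_mul]
      have h3 : ‖x‖ = ‖w m‖ := by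
        have h4 : x = (x - τ v * w m) + τ v * w m := by ring
        rw [h4, IsUltrametricDist.norm_add_eq_max_of_norm_ne_norm (by rw [h2]; exact h1.ne), h2]
        exact max_eq_right h1.le
      refine ⟨h3, ?_⟩
      have hdiv : ‖x / w m‖ ≤ 1 := by rw [norm_div, h3, div_self (hwpos m).ne']
      rw [← hτ.rd_eq, rd_eq_iff hdiv hτ1.le]
      have h5 : x / w m - τ v = (x - τ v * w m) / w m := by
        have := hw0 m
        field_simp
      rw [h5, norm_div, div_lt_one (hwpos m)]
      exact h1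
    · rintro ⟨h3, h4⟩
      have hdiv : ‖x / w m‖ ≤ 1 := by rw [norm_div, h3, div_self (hwpos m).ne']
      rw [← hτ.rd_eq, rd_eq_iff hdiv hτ1.le] at h4
      have h5 : x / w m - τ v = (x - τ v * w m) / w m := by
        have := hw0 m
        field_simp
      rw [h5, norm_div, div_lt_one (hwpos m)] at h4
      exact h4
  refine ⟨?_, ?_, ?_⟩
  · intro m v hv
    rw [← hE m v]
    congr 2
    exact Multiset.filter_congr fun x _ => hiff m v hv x
  · intro m
    unfold NX
    refine sum_eq_zero fun i _ => ?_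
    have h1 : {u : Fin n → ℤ | Cone V u ∧ ee y u + D * i = m ∧
        l (y u) * (-1) ^ (h * i) = 0} = ∅ := by
      ext u
      simp only [Set.mem_setOf_eq, Set.mem_empty_iff_false, iff_false]
      rintro ⟨-, -, h2⟩
      exact hl1 _ _ h2
    rw [h1, Set.ncard_empty]
    simp
  · intro x hx
    obtain ⟨m, hm⟩ := hlevel x hx
    obtain ⟨v, hv, hrv⟩ := hrange m x hx hm
    refine ⟨(m, v), ⟨hv, (hiff m v hv x).2 ⟨hm, hrv⟩⟩, ?_⟩
    rintro ⟨m', v'⟩ ⟨hv', hx'⟩
    obtain ⟨b1, b2⟩ := (hiff m' v' hv' x).1 hx'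
    have h1 : m' = m := hanti.injective (b1.symm.trans hm)
    subst h1
    have h2 : v' = v := ι.injective (b2.symm.trans hrv)
    rw [h2]

end ASX
end

section
/-!
# MP_b685ef_ag, theorem ASX: module CNTX
-/
set_option linter.all false

namespace ASX

open Finset ASur AST

namespace CNTXaux

/-- The alternating sum over the subsets of `[n]` by cardinality. -/
theorem altsum (n : ℕ) (g : ℕ → ℤ) :
    (∑ Z ∈ (univ : Finset (Finset (Fin n))).filter (fun Z => Z.card % 2 = 0), g Z.card) -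
      ∑ Z ∈ (univ : Finset (Finset (Fin n))).filter (fun Z => Z.card % 2 = 1), g Z.card =
    ∑ i ∈ range (n + 1), (-1) ^ i * (n.choose i : ℤ) * g i := by
  classical
  have h1 : ∑ Z ∈ (univ : Finset (Fin n)).powerset, (-1) ^ Z.card * g Z.card =
      ∑ i ∈ range (n + 1), (-1) ^ i * (n.choose i : ℤ) * g i := by
    rw [Finset.sum_powerset_apply_card (fun i => (-1) ^ i * g i)]
    rw [Finset.card_univ, Fintype.card_fin]
    refine Finset.sum_congr rfl fun i _ => ?_
    rw [nsmul_eq_mul]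
    ring
  rw [← h1, Finset.powerset_univ]
  have h2 : ∀ Z : Finset (Fin n), (-1 : ℤ) ^ Z.card * g Z.card =
      (if Z.card % 2 = 0 then g Z.card else 0) - (if Z.card % 2 = 1 then g Z.card else 0) := by
    intro Z
    rcases Nat.mod_two_eq_zero_or_one Z.card with h | h
    · have : Even Z.card := Nat.even_iff.2 h
      rw [this.neg_one_pow]
      simp [h]
    · have : Odd Z.card := Nat.odd_iff.2 h
      rw [this.neg_one_pow]
      simp [h]
  rw [Finset.sum_congr rfl fun Z _ => h2 Z, Finset.sum_sub_distrib, Finset.sum_filter,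
    Finset.sum_filter]

/-- `ψ 1` is a root of unity, so its norm is one. -/
theorem rho_facts (p : ℕ) [Fact p.Prime] (D : ℕ) (hD : D ∣ p - 1) (C : Type) [NormedField C]
    [IsUltrametricDist C] [CharZero C] (ψ : AddChar (ZMod p) C) (hψ : ψ ≠ 1) (ρ : C)
    (hρ : ρ ^ D = ψ 1 - 1) : ρ ≠ 0 ∧ ‖ρ‖ ≤ 1 := by
  have hp : p.Prime := Fact.out
  have hD0 : D ≠ 0 := by
    rintro rfl
    have := Nat.eq_zero_of_zero_dvd hD
    have := hp.two_le
    omega
  have h1 : ψ 1 ≠ 1 := by
    intro h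
    apply hψ
    ext x
    have : x = (x.val : ℕ) • (1 : ZMod p) := by simp
    rw [this, AddChar.map_nsmul_eq_pow, h]
    simp
  have hpow : ψ 1 ^ p = 1 := by
    rw [← AddChar.map_nsmul_eq_pow]
    simp
  have hn : ‖ψ 1‖ = 1 := by
    have : ‖ψ 1‖ ^ p = 1 := by rw [← norm_pow, hpow, norm_one]
    exact (pow_eq_one_iff_of_nonneg (norm_nonneg _) hp.ne_zero).1 this
  constructor
  · rintro rfl
    rw [zero_pow hD0] at hρ
    exact h1 (sub_eq_zero.1 hρ.symm)
  · have h2 : ‖ψ 1 - 1‖ ≤ 1 := by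
      rw [sub_eq_add_neg]
      refine (IsUltrametricDist.norm_add_le_max _ _).trans ?_
      simp [hn]
    have h3 : ‖ρ‖ ^ D ≤ 1 := by
      rw [← norm_pow, hρ]
      exact h2
    by_contra hc
    rw [not_le] at hc
    exact absurd h3 (not_le.2 (one_lt_pow₀ hc hD0))

/-- `l(t)` is nonzero. -/
theorem lX_ne {P k : Type} [Fintype P] [Field k] (p : ℕ) [Fact p.Prime] [CharP k p] (D h : ℕ)
    (hD : D ∣ p - 1) (α : P → k) (hα : ∀ s, α s ≠ 0) (t : P → ℕ) : lX p D h α t ≠ 0 := by
  have hp : p.Prime := Fact.out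
  have hD0 : 0 < D := by
    rcases Nat.eq_zero_or_pos D with rfl | h
    · have := Nat.eq_zero_of_zero_dvd hD
      have := hp.two_le
      omega
    · exact h
  unfold lX RX
  refine mul_ne_zero (Finset.prod_ne_zero_iff.2 fun s _ => mul_ne_zero (pow_ne_zero _ ?_)
    (pow_ne_zero _ (pow_ne_zero _ (hα s)))) (Finset.prod_ne_zero_iff.2 fun s _ => ?_)
  · refine inv_ne_zero ?_
    rw [Ne, CharP.cast_eq_zero_iff k p, hp.dvd_factorial, not_le]
    have h1 : t s % D < D := Nat.mod_lt _ hD0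
    calc (p - 1) / D * (t s % D) ≤ (p - 1) / D * D := Nat.mul_le_mul_left _ h1.le
      _ = p - 1 := Nat.div_mul_cancel hD
      _ < p := Nat.sub_lt hp.pos one_pos
  · exact pow_ne_zero _ (pow_ne_zero _ (neg_ne_zero.2 one_ne_zero))

end CNTXaux

open CNTXaux

theorem CNTX_thm (hT : StmtTWOX) (hM : StmtMSX) : StmtCNTX := by
  classical
  intro p _ D hD C _ _ _ _ hpC j hj k _ _ _ ι n P _ V y hG f α hA ψ hψ β htr ρ hρ m S hS
  set h := Module.finrank (ZMod p) k with hh
  obtain ⟨hρ0, hρ1⟩ := rho_facts p D hD C ψ hψ ρ hρ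
  set w : C := ρ ^ ((p - 1) * m * h) with hw
  have hw0 : w ≠ 0 := pow_ne_zero _ hρ0
  have hw1 : ‖w‖ ≤ 1 := by
    rw [hw, norm_pow]
    exact pow_le_one₀ (norm_nonneg _) hρ1
  haveI : CharP k p := charP_of_injective_algebraMap (algebraMap (ZMod p) k).injective p
  let q : Finset (Fin n) → (Fin n → ℤ) → KK C := fun Z u =>
    ι (lX p D h α (y u)) * (-1) ^ (h * Z.card)
  let RR (c : ℕ) : Multiset (KK C) :=
    ∑ Z ∈ (univ : Finset (Finset (Fin n))).filter (fun Z => Z.card % 2 = c),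
      (S.filter (fun u => ee y u + D * Z.card = m)).val.map (q Z)
  let MM (c : ℕ) : ℕ :=
    ∑ Z ∈ (univ : Finset (Finset (Fin n))).filter (fun Z => Z.card % 2 = c),
      (S.filter (fun u => ee y u + D * Z.card < m)).card
  have hRR : ∀ c, ∀ r ∈ RR c, r ≠ 0 := by
    intro c r hr
    obtain ⟨Z, hZ, hr⟩ := Multiset.mem_sum.1 hr
    obtain ⟨u, hu, rfl⟩ := Multiset.mem_map.1 hr
    refine mul_ne_zero ?_ (pow_ne_zero _ (neg_ne_zero.2 one_ne_zero))
    rw [Ne, map_eq_zero]
    exact lX_ne p D h hD α hA.ne _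
  have hprod : ∀ c, ((RR c).map fun r => 1 - Polynomial.C r * Polynomial.X).prod =
      ∏ Z ∈ (univ : Finset (Finset (Fin n))).filter (fun Z => Z.card % 2 = c),
        ∏ u ∈ S.filter (fun u => ee y u + D * Z.card = m), (1 - Polynomial.C
          (ι (lX p D h α (y u)) * (-1) ^ (h * Z.card)) * Polynomial.X) := by
    intro c
    have h1 : ∀ T : Finset (Finset (Fin n)),
        ((∑ Z ∈ T, (S.filter (fun u => ee y u + D * Z.card = m)).val.map (q Z)).map
          fun r => 1 - Polynomial.C r * Polynomial.X).prod =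
        ∏ Z ∈ T, ∏ u ∈ S.filter (fun u => ee y u + D * Z.card = m), (1 - Polynomial.C
          (ι (lX p D h α (y u)) * (-1) ^ (h * Z.card)) * Polynomial.X) := by
      intro T
      induction T using Finset.induction_on with
      | empty => simp
      | insert Z T hZ ih =>
        rw [Finset.sum_insert hZ, Finset.prod_insert hZ, Multiset.map_add, Multiset.prod_add, ih,
          Multiset.map_map]
        rfl
    exact h1 _
  obtain ⟨h1, h2⟩ := hM C β w (MM 1) (MM 0) (RR 1) (RR 0) hw0 hw1 (hRR 1) (hRR 0) (by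
    intro m0
    obtain ⟨A, B, hA1, hB1, hAB⟩ := hT p D hD C hpC j hj k ι n P V y hG f α hA ψ hψ β htr ρ hρ m
      m0 S hS
    refine ⟨A, B, ?_, ?_, hAB⟩
    · rw [hprod 1]
      exact hA1
    · rw [hprod 0]
      exact hB1)
  constructor
  · have e1 : (Multiset.card (β.filter fun x => ‖w‖ < ‖x‖) : ℤ) = (MM 0 : ℤ) - (MM 1 : ℤ) := by
      rw [← h1]
      push_cast
      ring
    rw [e1]
    have := altsum n (fun i => ((S.filter (fun u => ee y u + D * i < m)).card : ℤ))
    rw [← this]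
    simp only [MM]
    push_cast
    rfl
  · intro v
    have e2 := congrArg (Multiset.count v) h2
    rw [Multiset.count_add, Multiset.count_map, Multiset.filter_filter] at e2
    have hc : ∀ c, (Multiset.count v (RR c) : ℤ) =
        ∑ Z ∈ (univ : Finset (Finset (Fin n))).filter (fun Z => Z.card % 2 = c),
          ((S.filter (fun u => ee y u + D * Z.card = m ∧
            ι (lX p D h α (y u)) * (-1) ^ (h * Z.card) = v)).card : ℤ) := by
      intro c
      simp only [RR]
      rw [Multiset.count_sum', Nat.cast_sum]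
      refine Finset.sum_congr rfl fun Z _ => ?_
      rw [Multiset.count_map]
      congr 1
      rw [← Finset.filter_filter]
      rw [Finset.card_def, Finset.filter_val]
      congr 1
      refine Multiset.filter_congr fun u _ => ?_
      exact eq_comm
    have e3 : (Multiset.card (β.filter fun x => ‖x‖ = ‖w‖ ∧ rd (x / w) = v) : ℤ) =
        (Multiset.count v (RR 0) : ℤ) - (Multiset.count v (RR 1) : ℤ) := by
      rw [← e2]
      push_cast
      have : Multiset.filter (fun x => ‖x‖ = ‖w‖ ∧ rd (x / w) = v) β =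
          Multiset.filter (fun a => v = rd (a / w) ∧ ‖a‖ = ‖w‖) β := by
        refine Multiset.filter_congr fun x _ => ?_
        constructor
        · rintro ⟨a, b⟩
          exact ⟨b.symm, a⟩
        · rintro ⟨a, b⟩
          exact ⟨b, a.symm⟩
      rw [this]
      ring
    rw [e3, hc 0, hc 1]
    exact altsum n (fun i => ((S.filter (fun u => ee y u + D * i = m ∧
      ι (lX p D h α (y u)) * (-1) ^ (h * i) = v)).card : ℤ))

end ASX
end

section
/-!
# MP_b685ef_ag, theorem ASX: module DEGX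

The supports of the `F_i` are bounded, uniformly in `i`.
-/
set_option linter.all false

namespace ASX

open Finset ASur AST

theorem degx_thm (hE : StmtEXPX) (hS : StmtSUBX) : StmtDEGX := by
  classical
  intro p hp C _ k _ τ Θ n D P _ V y hG f hf
  refine ⟨∑ u : f.support, Θ.natDegree * ee y u.1, fun L hL i w hw => ?_⟩
  rw [hE p C k τ Θ n f i w] at hw
  obtain ⟨l, hl, hne⟩ := Finset.exists_ne_zero_of_sum_ne_zero hw
  have hlw : ∑ u : f.support, (l u : ℤ) • u.1 = w := by
    by_contra h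
    exact hne (if_neg h)
  have hl' : ∀ u, l u ≤ Θ.natDegree := fun u =>
    Nat.lt_succ_iff.1 (Finset.mem_range.1 (Fintype.mem_piFinset.1 hl u))
  obtain ⟨h1, h2⟩ := hS n D P V y hG f.support univ l (fun u => u.1) (fun u _ => hf u.1 u.2)
  rw [hlw] at h1 h2
  refine ⟨h1, h2.trans ?_⟩
  calc ∑ u : f.support, l u * ee y u.1 ≤ ∑ u : f.support, Θ.natDegree * ee y u.1 :=
        Finset.sum_le_sum fun u _ => Nat.mul_le_mul_right _ (hl' u)
    _ ≤ L := hL
    _ = 1 * L := (one_mul L).symm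
    _ ≤ (p - 1) * L := Nat.mul_le_mul_right _ (by omega)

end ASX
end

section
/-!
# ASX/EDGEX: the edges of `det(1 - XB)`
-/
set_option linter.all false

namespace ASX

open Finset ASur AST

namespace EDGEXaux

theorem geom_nat (p h : ℕ) (hp : 2 ≤ p) :
    ∑ i ∈ range h, p ^ i * (p - 1) = p ^ h - 1 := by
  induction h with
  | zero => simp
  | succ h ih =>
    rw [Finset.sum_range_succ, ih, pow_succ]
    have h1 : 1 ≤ p ^ h := Nat.one_le_pow _ _ (by omega)
    obtain ⟨c, rfl⟩ : ∃ c, p = c + 1 := ⟨p - 1, by omega⟩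
    have : (c + 1) ^ h * (c + 1) = (c + 1) ^ h * c + (c + 1) ^ h := by ring
    rw [this, Nat.add_sub_cancel]
    omega

end EDGEXaux

open EDGEXaux in
theorem edgex_thm (hREDX : StmtREDX) (hTLUX : StmtTLUX) (hEDGELU : AST.StmtEDGELU) :
    StmtEDGEX := by
  intro p hp D hD C _ _ hpC ζ ρ ε Θ J0 hΘ hAH hρ hρ0 hρ1 k _ _ _ ι τ hτ n P _ V y hG f α hA m N
    S hS hmN hJ0 m0
  classical
  have hpp : p.Prime := hp.out
  have hp2 : 2 ≤ p := hpp.two_le
  have hD1 : 1 ≤ D := Nat.pos_of_dvd_of_pos hD (by omega)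
  set h := Module.finrank (ZMod p) k with hh
  have hh1 : 1 ≤ h := Module.finrank_pos
  haveI : CharP (KK C) p := charP_KK hpC
  have hιne : ∀ j, ι (α j) ≠ 0 := fun j => by
    rw [Ne, map_eq_zero]
    exact hA.ne j
  -- the matrices L, U
  choose L U hLU1 hLU2 hLU3 hLU4 hLU5 using fun i : ℕ =>
    hTLUX (KK C) p J0 (EE ζ Θ) hAH D hD n P V y hG (fun j => ι (α j) ^ (p ^ i))
      (fun j => pow_ne_zero _ (hιne j)) m N S hS hmN hJ0
  -- the scaled matrices
  obtain ⟨Cm, hC1, hC2, hC3⟩ := hREDX p D C ζ ρ ε Θ hΘ hρ hρ0 hρ1 k ι τ hτ n P V y hG f α hA S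
    (fun u hu => ((hS u).1 hu).1)
  have hC3' : ∀ i, i < h → ∀ u v : S, ee y u.1 ≤ m → ee y v.1 ≤ m →
      rd (Cm i u v) =
        ∑ w ∈ univ.filter (fun w : S => ee y w.1 ≤ m), L i u w * U i w v := by
    intro i _ u v hu hv
    rw [hC3 i u v]
    exact hLU1 i u v hu hv
  have hne : ∀ (u : S) (j : P),
      (((p - 1) / D * (y u.1 j % D)).factorial : KK C) ≠ 0 := by
    intro u j h0
    rw [CharP.cast_eq_zero_iff (KK C) p, hpp.dvd_factorial] at h0
    have h1 : y u.1 j % D < D := Nat.mod_lt _ (by omega)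
    have h2 : (p - 1) / D * (y u.1 j % D) ≤ (p - 1) / D * D :=
      Nat.mul_le_mul_left _ h1.le
    rw [Nat.div_mul_cancel hD] at h2
    omega
  have hL5 : ∀ i (u : S), ee y u.1 ≤ m → L i u u ≠ 0 := by
    intro i u hu h0
    have h1 := hLU5 i u hu
    rw [h0, zero_mul] at h1
    refine (Finset.prod_ne_zero_iff.2 fun j _ => ?_) h1.symm
    exact mul_ne_zero (pow_ne_zero _ (pow_ne_zero _ (hιne j)))
      (pow_ne_zero _ (neg_ne_zero.2 one_ne_zero))
  have hedge := hEDGELU C S (fun u => ee y u.1) p h m ρ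
    (fun i => AT p S (FT p (τ : k → C) Θ f i)) Cm L U hp2 hh1 hρ0 hρ1 hC1 hC2 hC3'
    hLU2 hLU3 hLU4 (fun i _ u hu => hL5 i u hu) m0
  -- the pivots
  have hcard : Fintype.card k = p ^ h := by
    rw [Module.card_eq_pow_finrank (K := ZMod p), ZMod.card]
  have hpow : ∀ j, ι (α j) ^ (p ^ h - 1) = 1 := by
    intro j
    rw [← map_pow, ← hcard, FiniteField.pow_card_sub_one_eq_one _ (hA.ne j), map_one]
  have hpiv : ∀ u : S, ee y u.1 = m →
      ∏ i ∈ range h, L i u u = ι (lX p D h α (y u.1)) := by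
    intro u hu
    set r : P → ℕ := fun j => y u.1 j % D with hr
    set s : P → ℕ := fun j => y u.1 j / D with hs
    set c : ℕ := (p - 1) / D with hc
    have hcD : c * D = p - 1 := Nat.div_mul_cancel hD
    have h1 : ∀ i, L i u u * ∏ j, ((c * r j).factorial : KK C) =
        ∏ j, ((ι (α j) ^ (p ^ i)) ^ (c * r j + (p - 1) * s j) * (-1) ^ s j) := fun i =>
      hLU5 i u hu.le
    have hfac : (∏ j, ((c * r j).factorial : KK C)) ^ h ≠ 0 :=
      pow_ne_zero _ (Finset.prod_ne_zero_iff.2 fun j _ => hne u j)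
    refine mul_right_cancel₀ hfac ?_
    have h2 : (∏ i ∈ range h, L i u u) * (∏ j, ((c * r j).factorial : KK C)) ^ h =
        ∏ i ∈ range h, (L i u u * ∏ j, ((c * r j).factorial : KK C)) := by
      rw [Finset.prod_mul_distrib, Finset.prod_const, Finset.card_range]
    rw [h2, Finset.prod_congr rfl fun i _ => h1 i, Finset.prod_comm]
    unfold lX RX
    rw [map_mul, map_prod, map_prod, ← Finset.prod_pow, ← Finset.prod_mul_distrib,
      ← Finset.prod_mul_distrib]
    refine Finset.prod_congr rfl fun j _ => ?_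
    rw [Finset.prod_mul_distrib, Finset.prod_const, Finset.card_range]
    have h3 : ∏ i ∈ range h, (ι (α j) ^ (p ^ i)) ^ (c * r j + (p - 1) * s j) =
        ι (α j) ^ ((p ^ h - 1) / D * r j) := by
      have h4 : ∀ i, (ι (α j) ^ (p ^ i)) ^ (c * r j + (p - 1) * s j) =
          ι (α j) ^ (p ^ i * (c * r j + (p - 1) * s j)) := fun i => by rw [← pow_mul]
      rw [Finset.prod_congr rfl fun i _ => h4 i, Finset.prod_pow_eq_pow_sum]
      have h5 : ∑ i ∈ range h, p ^ i * (c * r j + (p - 1) * s j) =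
          (p ^ h - 1) / D * r j + (p ^ h - 1) * s j := by
        have h6 : ∑ i ∈ range h, p ^ i * c = (p ^ h - 1) / D := by
          symm
          apply Nat.div_eq_of_eq_mul_left (by omega)
          rw [← geom_nat p h hp2, Finset.sum_mul]
          refine Finset.sum_congr rfl fun i _ => ?_
          rw [← hcD]; ring
        rw [← h6, ← geom_nat p h hp2, Finset.sum_mul, Finset.sum_mul, ← Finset.sum_add_distrib]
        exact Finset.sum_congr rfl fun i _ => by ring
      rw [h5, pow_add, pow_mul (ι (α j)) (p ^ h - 1) (s j), hpow, one_pow, mul_one]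
    rw [h3]
    simp only [map_mul, map_pow, map_inv₀, map_natCast, map_neg, map_one]
    have hne' := hne u j
    have h7 : ((((c * r j).factorial : KK C))⁻¹) ^ h * ((c * r j).factorial : KK C) ^ h = 1 := by
      rw [← mul_pow, inv_mul_cancel₀ hne', one_pow]
    change ι (α j) ^ ((p ^ h - 1) / D * r j) * ((-1) ^ s j) ^ h =
      ((((c * r j).factorial : KK C))⁻¹) ^ h * (ι (α j) ^ ((p ^ h - 1) / D)) ^ r j *
        ((-1) ^ h) ^ s j * ((c * r j).factorial : KK C) ^ h
    rw [← pow_mul (ι (α j)), ← pow_mul (-1 : KK C) (s j) h, ← pow_mul (-1 : KK C) h (s j),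
      mul_comm h (s j)]
    calc ι (α j) ^ ((p ^ h - 1) / D * r j) * (-1) ^ (s j * h)
        = 1 * (ι (α j) ^ ((p ^ h - 1) / D * r j) * (-1) ^ (s j * h)) := (one_mul _).symm
      _ = _ := by rw [← h7]; ring
  -- conversion
  have hcardS : Fintype.card {u : S // ee y u.1 < m} =
      (S.filter (fun u => ee y u < m)).card := by
    rw [Fintype.card_subtype]
    refine Finset.card_bij (fun u _ => u.1) ?_ ?_ ?_
    · intro u hu
      rw [Finset.mem_filter] at hu ⊢
      exact ⟨u.2, hu.2⟩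
    · intro u _ v _ huv
      exact Subtype.ext huv
    · intro u hu
      rw [Finset.mem_filter] at hu
      exact ⟨⟨u, hu.1⟩, by rw [Finset.mem_filter]; exact ⟨Finset.mem_univ _, hu.2⟩, rfl⟩
  have hprodS : (∏ u ∈ univ.filter (fun u : S => ee y u.1 = m),
        (1 - Polynomial.C (∏ i ∈ range h, L i u u) * Polynomial.X)) =
      ∏ u ∈ S.filter (fun u => ee y u = m), (1 - Polynomial.C
        (ι (lX p D h α (y u))) * Polynomial.X) := by
    refine Finset.prod_bij (fun u _ => u.1) ?_ ?_ ?_ ?_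
    · intro u hu
      rw [Finset.mem_filter] at hu ⊢
      exact ⟨u.2, hu.2⟩
    · intro u _ v _ huv
      exact Subtype.ext huv
    · intro u hu
      rw [Finset.mem_filter] at hu
      exact ⟨⟨u, hu.1⟩, by rw [Finset.mem_filter]; exact ⟨Finset.mem_univ _, hu.2⟩, rfl⟩
    · intro u hu
      rw [Finset.mem_filter] at hu
      rw [hpiv u hu.2]
  rw [hcardS, hprodS] at hedge
  exact hedge

end ASX
end

section
/-!
# MP_b685ef_ag, theorem ASX: `N(m,v)` for `n` and for `n + 1` rays
-/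
set_option linter.all false

namespace ASX

open Finset ASur AST

/-- `n` independent rays: `N(m,v) = #{u : y(u) < D, e(u) = m, R(u) = v}`. -/
def StmtEVNX : Prop := ∀ (n D : ℕ) (P : Type) [Fintype P] (V : P → Fin n → ℤ)
  (y : (Fin n → ℤ) → P → ℕ), 1 ≤ D → Simpl D V y → Geo D V y → Fintype.card P = n →
  (∀ b : P → ℤ, ∑ s, b s • V s = 0 → b = 0) →
  ∀ (k : Type) [Field k] (p h : ℕ) (α : P → k) (m : ℕ) (v : k),
  NX D h V y (lX p D h α) m v =
    (Set.ncard {u : Fin n → ℤ | Cone V u ∧ (∀ s, y u s < D) ∧ ee y u = m ∧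
      RX p D h α (y u) = v} : ℤ)

/-- `n + 1` rays with one relation `c`. -/
def StmtEVCX : Prop := ∀ (n D : ℕ) (P : Type) [Fintype P] (V : P → Fin n → ℤ)
  (y : (Fin n → ℤ) → P → ℕ), 1 ≤ D → Simpl D V y → Geo D V y → Fintype.card P = n + 1 →
  ∀ c : P → ℤ, ∑ s, c s • V s = 0 → 0 < ∑ s, c s →
  (∀ b : P → ℤ, ∑ s, b s • V s = 0 → ∃ M a : ℤ, 0 < M ∧ ∀ s, M * b s = a * c s) →
  ∀ (k : Type) [Field k] (p h : ℕ) (α : P → k) (m : ℕ) (v : k),
  NX D h V y (lX p D h α) m v =
    (Set.ncard {x : (Fin n → ℤ) × ℕ | Cone V x.1 ∧ (∀ s, y x.1 s < D) ∧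
      x.2 < Set.ncard {s | 0 < c s ∧ y x.1 s = 0} ∧ ee y x.1 + D * x.2 = m ∧
      RX p D h α (y x.1) * (-1) ^ (h * x.2) = v} : ℤ)

namespace EVALaux

variable {n D : ℕ} {P : Type} [Fintype P] {V : P → Fin n → ℤ} {y : (Fin n → ℤ) → P → ℕ}

/-- The sum over `r` and `j` as a cardinality. -/
theorem sum_eq_ncard [DecidableEq P] (hg : Geo D V y) (m : ℕ) (Q H : (P → ℕ) → ℕ → Prop)
    [∀ r j, Decidable (Q r j)] [∀ r j, Decidable (H r j)]
    (hQ : ∀ r j, Q r j → ∑ t, r t + D * j = m)
    (hH : ∀ r j, (∀ t, r t < D) → H r j → ∃ u, Cone V u ∧ ∀ s, y u s = r s) :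
    (∑ r ∈ Fintype.piFinset (fun _ : P => range D), ∑ j ∈ range (m + 1),
      if Q r j then (if H r j then (1 : ℤ) else 0) else 0) =
    (Set.ncard {x : (Fin n → ℤ) × ℕ | Cone V x.1 ∧ (∀ s, y x.1 s < D) ∧ Q (y x.1) x.2 ∧
      H (y x.1) x.2} : ℤ) := by
  have h1 : (∑ r ∈ Fintype.piFinset (fun _ : P => range D), ∑ j ∈ range (m + 1),
      if Q r j then (if H r j then (1 : ℤ) else 0) else 0) =
      (((Fintype.piFinset (fun _ : P => range D) ×ˢ range (m + 1)).filter
        (fun x => Q x.1 x.2 ∧ H x.1 x.2)).card : ℤ) := by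
    rw [Finset.card_filter, Finset.sum_product]
    push_cast
    refine Finset.sum_congr rfl fun r _ => Finset.sum_congr rfl fun j _ => ?_
    by_cases hq : Q r j <;> by_cases hh : H r j <;> simp [hq, hh]
  rw [h1]
  congr 1
  set S : Set ((Fin n → ℤ) × ℕ) := {x : (Fin n → ℤ) × ℕ | Cone V x.1 ∧ (∀ s, y x.1 s < D) ∧
    Q (y x.1) x.2 ∧ H (y x.1) x.2} with hS
  set g : (Fin n → ℤ) × ℕ → (P → ℕ) × ℕ := fun x => (y x.1, x.2) with hgd
  have hinj : Set.InjOn g S := by
    rintro ⟨u, i⟩ hu ⟨v, j⟩ hv huv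
    simp only [hgd, Prod.mk.injEq] at huv
    have := hg.inj u v hu.1 hv.1 (fun s => congrFun huv.1 s)
    rw [this, huv.2]
  rw [← Set.ncard_image_of_injOn hinj, ← Set.ncard_coe_finset]
  congr 1
  ext x
  obtain ⟨r, j⟩ := x
  simp only [Finset.coe_filter, Finset.mem_product, Fintype.mem_piFinset, Finset.mem_range,
    Set.mem_setOf_eq, Set.mem_image, hgd, hS, Prod.mk.injEq, Prod.exists]
  constructor
  · rintro ⟨⟨hr, hj⟩, hq, hh⟩
    obtain ⟨u, hu, hyu⟩ := hH r j hr hh
    have hyu' : y u = r := funext hyu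
    refine ⟨u, j, ⟨hu, ?_, ?_, ?_⟩, hyu', rfl⟩
    · rw [hyu']; exact hr
    · rw [hyu']; exact hq
    · rw [hyu']; exact hh
  · rintro ⟨u, i, ⟨hu, hy, hq, hh⟩, rfl, rfl⟩
    refine ⟨⟨hy, ?_⟩, hq, hh⟩
    have h2 := hQ _ _ hq
    have h3 : i ≤ D * i := Nat.le_mul_of_pos_left i hg.pos
    omega

end EVALaux

open Classical in
theorem EVNX_thm (hS : StmtSECX) (hR : StmtRELX) (hN : StmtHNX) : StmtEVNX := by
  intro n D P _ V y hD hy hg hP hrel k _ p h α m v
  have hI : ∀ t : P → ℕ, (∃ u, Cone V u ∧ ∀ s, y u s = t s) ↔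
      ∃ u : Fin n → ℤ, (D : ℤ) • u = ∑ s, (t s : ℤ) • V s := by
    intro t
    have := hR n D P V y hD hy 0 (by simp) (Or.inl rfl)
      (fun b hb => ⟨1, 0, one_pos, fun s => by rw [hrel b hb]; simp⟩) t
    simpa using this
  rw [hS n D P V y hg k p h α m v]
  have h1 : (∑ r ∈ Fintype.piFinset (fun _ : P => range D), ∑ j ∈ range (m + 1),
      if (∑ t, r t + D * j = m ∧ RX p D h α r * (-1) ^ (h * j) = v) then
      hj D V y r j else 0) = (∑ r ∈ Fintype.piFinset (fun _ : P => range D), ∑ j ∈ range (m + 1),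
      if (∑ t, r t + D * j = m ∧ RX p D h α r * (-1) ^ (h * j) = v) then
        (if (j = 0 ∧ ∃ u, Cone V u ∧ ∀ s, y u s = r s) then (1 : ℤ) else 0) else 0) := by
    refine Finset.sum_congr rfl fun r _ => Finset.sum_congr rfl fun j _ => ?_
    split_ifs with h2 h3 h3
    · rw [hN n D P V y hD hP hI r j, if_pos h3]
    · rw [hN n D P V y hD hP hI r j, if_neg h3]
    · rfl
  rw [h1, EVALaux.sum_eq_ncard hg m
    (fun r j => ∑ t, r t + D * j = m ∧ RX p D h α r * (-1) ^ (h * j) = v)
    (fun r j => j = 0 ∧ ∃ u, Cone V u ∧ ∀ s, y u s = r s) (fun r j h => h.1)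
    (fun r j _ h => h.2)]
  congr 1
  have hinj : Function.Injective (fun u : Fin n → ℤ => (u, (0 : ℕ))) := by
    intro a b hab
    simpa using hab
  rw [← Set.ncard_image_of_injective _ hinj]
  congr 1
  ext x
  obtain ⟨u, j⟩ := x
  simp only [Set.mem_setOf_eq, Set.mem_image, Prod.mk.injEq]
  constructor
  · rintro ⟨hu, hyD, ⟨h2, h3⟩, rfl, h4⟩
    refine ⟨u, ⟨hu, hyD, by simpa [ee] using h2, by simpa using h3⟩, rfl, rfl⟩
  · rintro ⟨u', ⟨hu, hyD, h2, h3⟩, rfl, rfl⟩
    refine ⟨hu, hyD, ⟨by simpa [ee] using h2, by simpa using h3⟩, rfl, u', hu, fun _ => rfl⟩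

open Classical in
theorem EVCX_thm (hS : StmtSECX) (hR : StmtRELX) (hC : StmtHCX) : StmtEVCX := by
  intro n D P _ V y hD hy hg hP c hc hc0 hrel k _ p h α m v
  have hcne : c ≠ 0 := by
    rintro rfl
    simp at hc0
  set A : Finset P := univ.filter (fun s => 0 < c s) with hA
  have hI : ∀ t : P → ℕ, (∃ u, Cone V u ∧ ∀ s, y u s = t s) ↔
      (∃ u : Fin n → ℤ, (D : ℤ) • u = ∑ s, (t s : ℤ) • V s) ∧ ∃ s ∈ A, t s = 0 := by
    intro t
    have := hR n D P V y hD hy c hc (Or.inr hc0) hrel t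
    rw [this]
    simp [hA, hcne]
  have hcard : ∀ r : P → ℕ, (A.filter fun s => r s = 0).card =
      Set.ncard {s | 0 < c s ∧ r s = 0} := by
    intro r
    rw [← Set.ncard_coe_finset]
    congr 1
    ext s
    simp [hA]
  rw [hS n D P V y hg k p h α m v]
  have h1 : (∑ r ∈ Fintype.piFinset (fun _ : P => range D), ∑ j ∈ range (m + 1),
      if (∑ t, r t + D * j = m ∧ RX p D h α r * (-1) ^ (h * j) = v) then
      hj D V y r j else 0) = (∑ r ∈ Fintype.piFinset (fun _ : P => range D), ∑ j ∈ range (m + 1),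
      if (∑ t, r t + D * j = m ∧ RX p D h α r * (-1) ^ (h * j) = v) then
        (if (j < (A.filter fun s => r s = 0).card ∧
          (∃ u : Fin n → ℤ, (D : ℤ) • u = ∑ s, (r s : ℤ) • V s)) then (1 : ℤ) else 0) else 0) := by
    refine Finset.sum_congr rfl fun r _ => Finset.sum_congr rfl fun j _ => ?_
    split_ifs with h2 h3 h3
    · rw [hC n D P V y hD hP A hI r j, if_pos h3]
    · rw [hC n D P V y hD hP A hI r j, if_neg h3]
    · rfl
  rw [h1, EVALaux.sum_eq_ncard hg m
    (fun r j => ∑ t, r t + D * j = m ∧ RX p D h α r * (-1) ^ (h * j) = v)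
    (fun r j => j < (A.filter fun s => r s = 0).card ∧
          (∃ u : Fin n → ℤ, (D : ℤ) • u = ∑ s, (r s : ℤ) • V s)) (fun r j h => h.1)
    (fun r j _ h => ?_)]
  · congr 2
    ext x
    obtain ⟨u, j⟩ := x
    simp only [Set.mem_setOf_eq]
    rw [hcard (y u)]
    constructor
    · rintro ⟨hu, hyD, ⟨h2, h3⟩, h4, h5⟩
      exact ⟨hu, hyD, h4, by simpa [ee] using h2, h3⟩
    · rintro ⟨hu, hyD, h4, h2, h3⟩
      exact ⟨hu, hyD, ⟨by simpa [ee] using h2, h3⟩, h4, u, hg.rep u hu⟩
  · rw [hI]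
    refine ⟨h.2, ?_⟩
    have h3 : 0 < (A.filter fun s => r s = 0).card := lt_of_le_of_lt (Nat.zero_le _) h.1
    obtain ⟨s, hs⟩ := Finset.card_pos.1 h3
    rw [Finset.mem_filter] at hs
    exact ⟨s, hs.1, hs.2⟩

end ASX
end

section
/-!
# MP_b685ef_ag, theorem ASX, module EXPX
-/
set_option linter.all false

namespace ASX

open Finset ASur AST

theorem EXPX_thm : StmtEXPX := by
  classical
  intro p C _ k _ τ Θ n f i w
  have h1 : FT p τ Θ f i = ∑ l ∈ Fintype.piFinset (fun _ : f.support => range (Θ.natDegree + 1)),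
      (AddMonoidAlgebra.single (∑ u : f.support, (l u : ℤ) • u.1)
        (∏ u : f.support, Θ.coeff (l u) * (τ (f u.1) ^ (p ^ i)) ^ (l u)) :
          AddMonoidAlgebra C (Fin n → ℤ)) := by
    unfold FT
    rw [← Finset.prod_coe_sort f.support]
    have h2 : ∀ u : f.support, Polynomial.aeval
        (AddMonoidAlgebra.single u.1 (τ (f u.1) ^ (p ^ i)) : AddMonoidAlgebra C (Fin n → ℤ)) Θ =
        ∑ l ∈ range (Θ.natDegree + 1), (AddMonoidAlgebra.single ((l : ℤ) • u.1)
          (Θ.coeff l * (τ (f u.1) ^ (p ^ i)) ^ l) : AddMonoidAlgebra C (Fin n → ℤ)) := by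
      intro u
      rw [Polynomial.aeval_eq_sum_range]
      refine Finset.sum_congr rfl fun l _ => ?_
      rw [AddMonoidAlgebra.single_pow, AddMonoidAlgebra.smul_single, smul_eq_mul, natCast_zsmul]
    rw [Finset.prod_congr rfl fun u _ => h2 u, Finset.prod_univ_sum]
    refine Finset.sum_congr rfl fun l _ => ?_
    rw [AddMonoidAlgebra.prod_single]
  rw [h1, AddMonoidAlgebra.coeff_sum, Finsupp.finset_sum_apply]
  refine Finset.sum_congr rfl fun l _ => ?_
  rw [AddMonoidAlgebra.coeff_single, Finsupp.single_apply]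

end ASX
end

section
/-! # MP_b685ef_ag, ASX, module FINX -/
set_option linter.all false

namespace ASX

open Finset ASur AST

universe u v

namespace FINXaux

theorem fint_alg {p : ℕ} [Fact p.Prime] {K : Type*} [Field K] [CharZero K]
    (ψ : AddChar (ZMod p) K) (x : ZMod p) : IsIntegral ℚ (ψ x) := by
  have h1 : (ψ x) ^ p = 1 := by
    rw [← AddChar.map_nsmul_eq_pow]
    simp
  refine IsIntegral.of_pow (Fact.out : p.Prime).pos ?_
  rw [h1]
  exact isIntegral_one

theorem fint_alg_ST {p : ℕ} [Fact p.Prime] {K : Type*} [Field K] [CharZero K]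
    (ψ : AddChar (ZMod p) K) {k : Type} [Field k] {n : ℕ} (f : (Fin n → ℤ) →₀ k)
    (E : Type) [Field E] [Fintype E] [Algebra (ZMod p) E] [Algebra k E] :
    IsIntegral ℚ (ST ψ f E) := by
  unfold AST.ST sumT
  exact IsIntegral.sum _ fun x _ => fint_alg ψ _

theorem fint_sign {K : Type*} [Field K] (n : ℕ) (a b : K) (h : (-1) ^ n * a = b) :
    a = (-1) ^ n * b := by
  rw [← h, ← mul_assoc, ← mul_pow]
  simp

open Classical in
/-- The theorem over an algebraically closed field `K`, for multisets. -/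
theorem fint_multiset (hCLSX : StmtCLSX) (hK2C : StmtK2C.{u}) (hEXT : StmtEXT)
    (hTEMB : StmtTEMB) (hTEX : StmtTEX)
    (p : ℕ) [Fact p.Prime] (D : ℕ) (hD : D ∣ p - 1)
    (k : Type) [Field k] [Fintype k] [Algebra (ZMod p) k]
    (n : ℕ) (P : Type) [Fintype P] (V : P → Fin n → ℤ) (y : (Fin n → ℤ) → P → ℕ)
    (hG : Geo D V y) (f : (Fin n → ℤ) →₀ k) (α : P → k) (hadm : Adm D V y f α)
    (K : Type u) [Field K] [IsAlgClosed K] [CharZero K] (ψ : AddChar (ZMod p) K) (hψ : ψ ≠ 1)
    (β : Multiset K) (hβ0 : ∀ x ∈ β, x ≠ 0)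
    (hT : ∀ (E : Type) [Field E] [Fintype E] [Algebra (ZMod p) E] [Algebra k E],
      (-1) ^ n * (β.map fun x => x ^ Module.finrank k E).sum = ST ψ f E) :
    ∃ cl : K → ℕ × k, ∀ (m : ℕ) (v : k),
      ∃ s : Multiset K, s ≤ β ∧ (∀ x ∈ β, cl x = (m, v) ↔ x ∈ s) ∧
        (∀ x ∈ s, s.count x = β.count x) ∧ (Multiset.card s : ℤ) =
      NX D (Module.finrank (ZMod p) k) V y (lX p D (Module.finrank (ZMod p) k) α) m v := by
  classical
  have hDpos : 0 < D := hG.pos
  let C := PadicAlgCl p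
  obtain ⟨A, g, hA, hβA⟩ := hK2C K C β (by
    intro j hj
    obtain ⟨E, _, _, _, _, hE⟩ := hEXT p k j hj
    have h1 := hT E
    rw [hE] at h1
    rw [fint_sign n _ _ h1]
    exact (((isIntegral_one (R := ℚ) (B := K)).neg.pow n).mul
      (fint_alg_ST ψ f E)).isAlgebraic)
  let tr : AddChar (ZMod p) K → AddChar (ZMod p) C := fun χ =>
    { toFun := fun x => g ⟨χ x, hA _ (fint_alg χ x).isAlgebraic⟩
      map_zero_eq_one' := by
        rw [← map_one g]
        congr 1
        apply Subtype.ext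
        simp
      map_add_eq_mul' := by
        intro x y
        rw [← map_mul g]
        congr 1
        apply Subtype.ext
        simp [AddChar.map_add_eq_mul] }
  have htr : ∀ χ : AddChar (ZMod p) K, ∀ x,
      (tr χ) x = g ⟨χ x, hA _ (fint_alg χ x).isAlgebraic⟩ := fun _ _ => rfl
  have hginj : Function.Injective g := g.injective
  have hψ' : tr ψ ≠ 1 := by
    intro h
    apply hψ
    ext x
    have h1 : (tr ψ) x = 1 := by rw [h]; rfl
    rw [htr, ← map_one g] at h1
    have := congrArg Subtype.val (hginj h1)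
    simpa using this
  obtain ⟨βA, hβA'⟩ : ∃ βA : Multiset A, βA.map (fun x : A => (x : K)) = β := by
    refine ⟨β.attach.map fun x => ⟨x.1, hβA x.1 x.2⟩, ?_⟩
    simp only [Multiset.map_map, Function.comp]
    exact Multiset.attach_map_val β
  have hSf : ∀ (χ : AddChar (ZMod p) K) (E : Type) [Field E] [Fintype E] [Algebra (ZMod p) E]
      [Algebra k E], ∃ s : A, (s : K) = ST χ f E ∧ g s = ST (tr χ) f E := by
    intro χ E _ _ _ _
    refine ⟨sumT fun x : Fin n → Eˣ => ⟨χ (Algebra.trace (ZMod p) E (lval f x)),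
      hA _ (fint_alg χ _).isAlgebraic⟩, ?_, ?_⟩
    · unfold AST.ST sumT
      push_cast
      rfl
    · unfold AST.ST sumT
      rw [map_sum]
      rfl
  have hp : ‖(p : C)‖ < 1 := by
    have h2 := PadicAlgCl.norm_extends p (p : ℚ_[p])
    have h3 : ‖(p : PadicAlgCl p)‖ = ‖(p : ℚ_[p])‖ := by
      rw [← h2]
      congr 1
    show ‖(p : PadicAlgCl p)‖ < 1
    rw [h3]
    exact Padic.norm_p_lt_one
  let j : ℤ_[p] →+* C := (algebraMap ℚ_[p] (PadicAlgCl p)).comp PadicInt.Coe.ringHom
  have hj : ∀ x, ‖j x‖ ≤ 1 := by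
    intro x
    have h2 := PadicAlgCl.norm_extends p (x : ℚ_[p])
    exact h2.trans_le x.norm_le_one
  have hA0 : ∀ x ∈ βA, x ≠ 0 := by
    intro x hx h0
    have : (x : K) ∈ β := by
      rw [← hβA']
      exact Multiset.mem_map_of_mem _ hx
    exact hβ0 _ this (by rw [h0]; rfl)
  obtain ⟨ι⟩ := hTEMB p C hp k
  obtain ⟨τ, hτ⟩ := hTEX p C hp k ι
  obtain ⟨ρ, hρ⟩ := IsAlgClosed.exists_pow_nat_eq ((tr ψ) 1 - 1) hDpos
  obtain ⟨hcnt, hzero, huniq⟩ := hCLSX p D hD C hp j hj k ι τ hτ n P V y hG f α hadm (tr ψ) hψ'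
    (βA.map g)
    (by
      intro y hy
      obtain ⟨x, hx, rfl⟩ := Multiset.mem_map.1 hy
      exact (map_ne_zero g).2 (hA0 x hx))
    (by
      intro E _ _ _ _
      have t1 := hT E
      obtain ⟨s, hs1, hs2⟩ := hSf ψ E
      have hsumA : ∀ m : Multiset A, ((m.sum : A) : K) = (m.map fun x : A => (x : K)).sum :=
        fun m => map_multiset_sum (A.subtype) m
      have e1 : (-1) ^ n * (βA.map fun x => x ^ Module.finrank k E).sum = s := by
        apply Subtype.ext
        rw [hs1, ← t1, ← hβA', Multiset.map_map]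
        rw [Subfield.coe_mul, hsumA, Multiset.map_map]
        push_cast
        rfl
      rw [← hs2, ← e1, map_mul, map_pow, map_neg, map_one, map_multiset_sum, Multiset.map_map,
        Multiset.map_map]
      congr 2
      refine Multiset.map_congr rfl fun x _ => ?_
      simp only [Function.comp, map_pow])
    ρ hρ
  -- the class of an element
  let good : C → ℕ × k → Prop := fun x c => c.2 ≠ 0 ∧
    ‖x - τ c.2 * ρ ^ ((p - 1) * c.1 * Module.finrank (ZMod p) k)‖ <
      ‖ρ‖ ^ ((p - 1) * c.1 * Module.finrank (ZMod p) k)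
  let clC : C → ℕ × k := fun x => if h : ∃ c, good x c then h.choose else (0, 0)
  have hclC : ∀ x ∈ βA.map g, ∀ c, clC x = c ↔ good x c := by
    intro x hx c
    obtain ⟨c0, h0, h1⟩ := huniq x hx
    have hex : ∃ c, good x c := ⟨c0, h0⟩
    have hch : clC x = c0 := by
      show (if h : ∃ c, good x c then h.choose else (0, 0)) = c0
      rw [dif_pos hex]
      exact h1 _ hex.choose_spec
    constructor
    · rintro rfl
      rw [hch]
      exact h0
    · intro h
      rw [hch]
      exact (h1 c h).symm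
  let clA : A → ℕ × k := fun x => clC (g x)
  let cl : K → ℕ × k := fun x => if h : x ∈ A then clA ⟨x, h⟩ else (0, 0)
  have hcl : ∀ x : A, cl (x : K) = clA x := by
    intro x
    show (if h : (x : K) ∈ A then clA ⟨x, h⟩ else (0, 0)) = clA x
    rw [dif_pos x.2]
  refine ⟨cl, fun m v => ⟨β.filter fun x => cl x = (m, v), Multiset.filter_le _ _, ?_, ?_, ?_⟩⟩
  · intro x hx
    rw [Multiset.mem_filter]
    exact ⟨fun h => ⟨hx, h⟩, fun h => h.2⟩
  · intro x hx
    rw [Multiset.mem_filter] at hx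
    exact Multiset.count_filter_of_pos hx.2
  · have e1 : Multiset.card (β.filter fun x => cl x = (m, v)) =
        Multiset.card ((βA.map g).filter fun x => good x (m, v)) := by
      rw [← hβA', Multiset.filter_map, Multiset.card_map, Multiset.filter_map, Multiset.card_map]
      congr 1
      refine Multiset.filter_congr fun x hx => ?_
      show cl (x : K) = (m, v) ↔ good (g x) (m, v)
      rw [hcl]
      exact hclC (g x) (Multiset.mem_map_of_mem _ hx) (m, v)
    rw [e1]
    by_cases hv : v = 0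
    · subst hv
      rw [hzero m]
      have : (βA.map g).filter (fun x => good x (m, (0 : k))) = 0 := by
        rw [Multiset.filter_eq_nil]
        intro x _ h
        exact h.1 rfl
      rw [this]
      simp
    · rw [← hcnt m v hv]
      congr 2
      refine Multiset.filter_congr fun x hx => ?_
      exact ⟨fun h => h.2, fun h => ⟨hv, h⟩⟩

end FINXaux

open FINXaux in
open Classical in
theorem finx_thm (hCLSX : StmtCLSX) (hK2C : StmtK2C.{u}) (hLINALG : StmtLINALG.{u, v})
    (hEXT : StmtEXT) (hTEMB : StmtTEMB) (hTEX : StmtTEX) : StmtFINX.{u, v} := by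
  intro p _ D hD k _ _ _ n P _ V y hG f α hadm K _ _ _ ψ hψ W _ _ _ φ hT
  obtain ⟨L0, L1, L2, L3, L4⟩ := hLINALG K W φ
  obtain ⟨cl, hcl⟩ := fint_multiset hCLSX hK2C hEXT hTEMB hTEX p D hD k n P V y hG f α hadm K ψ hψ
    (LinearMap.charpoly (φ : W →ₗ[K] W)).roots L0 (by
      intro E _ _ _ _
      rw [← L2]
      exact hT E)
  have key : ∀ (m : ℕ) (v : k),
      (Multiset.card ((LinearMap.charpoly (φ : W →ₗ[K] W)).roots.filter
        fun x => cl x = (m, v)) : ℤ) =
      NX D (Module.finrank (ZMod p) k) V y (lX p D (Module.finrank (ZMod p) k) α) m v := by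
    intro m v
    obtain ⟨s, hs1, hs2, hs3, hs4⟩ := hcl m v
    rw [← hs4]
    congr 2
    ext x
    by_cases hx : x ∈ (LinearMap.charpoly (φ : W →ₗ[K] W)).roots
    · by_cases hc : cl x = (m, v)
      · rw [Multiset.count_filter_of_pos (p := fun x => cl x = (m, v)) hc, hs3 x ((hs2 x hx).1 hc)]
      · rw [Multiset.count_filter_of_neg (p := fun x => cl x = (m, v)) hc, eq_comm,
          Multiset.count_eq_zero]
        exact fun h => hc ((hs2 x hx).2 h)
    · have h1 : x ∉ s := fun h => hx (Multiset.mem_of_le hs1 h)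
      have h2 : x ∉ (LinearMap.charpoly (φ : W →ₗ[K] W)).roots.filter
          (fun x => cl x = (m, v)) := fun h => hx (Multiset.mem_of_mem_filter h)
      rw [Multiset.count_eq_zero.2 h1, Multiset.count_eq_zero.2 h2]
  refine ⟨⟨cl, key⟩, ?_⟩
  intro hN
  apply L4
  rw [Multiset.nodup_iff_count_le_one]
  intro x
  by_cases hx : x ∈ (LinearMap.charpoly (φ : W →ₗ[K] W)).roots
  · have h1 := key (cl x).1 (cl x).2
    have h2 := hN (cl x).1 (cl x).2
    rw [← h1] at h2
    have h3 : ((LinearMap.charpoly (φ : W →ₗ[K] W)).roots.filter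
        fun z => cl z = ((cl x).1, (cl x).2)).count x =
        (LinearMap.charpoly (φ : W →ₗ[K] W)).roots.count x :=
      Multiset.count_filter_of_pos (p := fun z => cl z = ((cl x).1, (cl x).2)) rfl
    rw [← h3]
    refine (Multiset.count_le_card _ _).trans ?_
    exact_mod_cast h2
  · rw [Multiset.count_eq_zero.2 hx]
    exact Nat.zero_le _

end ASX
end

section
/-!
# MP_b685ef_ag, theorem ASX, module GEOX
-/
set_option linter.all false

namespace ASX

open Finset ASur AST

namespace GEOXaux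

variable {n D : ℕ} {P : Type} [Fintype P] {V : P → Fin n → ℤ} {y : (Fin n → ℤ) → P → ℕ}

theorem zero_cone : Cone V 0 := ⟨1, fun _ => 0, le_refl _, by simp⟩

theorem add_cone (u v : Fin n → ℤ) (hu : Cone V u) (hv : Cone V v) : Cone V (u + v) := by
  obtain ⟨N, z, hN, h⟩ := hu
  obtain ⟨N', z', hN', h'⟩ := hv
  refine ⟨N * N', fun s => N' * z s + N * z' s, Nat.mul_pos hN hN', ?_⟩
  have e1 : ((N * N' : ℕ) : ℤ) • (u + v) = (N' : ℤ) • ((N : ℤ) • u) + (N : ℤ) • ((N' : ℤ) • v) := by
    rw [smul_smul, smul_smul, smul_add]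
    push_cast
    rw [mul_comm (N' : ℤ) N]
  rw [e1, h, h', Finset.smul_sum, Finset.smul_sum, ← Finset.sum_add_distrib]
  refine Finset.sum_congr rfl fun s _ => ?_
  rw [smul_smul, smul_smul, ← add_smul]
  push_cast
  rfl

theorem sat_cone (m : ℕ) (u : Fin n → ℤ) (hm : 1 ≤ m) (hu : Cone V (m • u)) : Cone V u := by
  obtain ⟨N, z, hN, h⟩ := hu
  refine ⟨N * m, z, Nat.mul_pos hN hm, ?_⟩
  rw [← h, ← natCast_zsmul, smul_smul]
  push_cast
  rfl

theorem smul_cone (m : ℕ) (u : Fin n → ℤ) (hu : Cone V u) : Cone V (m • u) := by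
  obtain ⟨N, z, hN, h⟩ := hu
  refine ⟨N, fun s => m * z s, hN, ?_⟩
  rw [← natCast_zsmul, smul_comm, h, Finset.smul_sum]
  refine Finset.sum_congr rfl fun s _ => ?_
  rw [smul_smul]
  push_cast
  rfl

theorem lin_cone (l : P → ℕ) : Cone V (∑ s, (l s : ℤ) • V s) :=
  ⟨1, l, le_refl _, by simp⟩

theorem vert_cone [DecidableEq P] (s : P) : Cone V (V s) :=
  ⟨1, fun t => if t = s then 1 else 0, le_refl _, by
    rw [Finset.sum_eq_single s]
    · simp
    · intro t _ ht
      simp [ht]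
    · intro h
      exact absurd (Finset.mem_univ s) h⟩

theorem smul_y (hD : 1 ≤ D) (H : Simpl D V y) (m : ℕ) (u : Fin n → ℤ) (hu : Cone V u) (s : P) :
    y (m • u) s = m * y u s := by
  rcases Nat.eq_zero_or_pos m with hm | hm
  · subst hm
    have h0 := H.le 0 zero_cone 1 (fun _ => 0) (le_refl _) (by simp)
    have h1 : ee y (0 : Fin n → ℤ) = 0 := by
      simpa using h0
    have h2 : y (0 : Fin n → ℤ) s = 0 := by
      have h3 : y (0 : Fin n → ℤ) s ≤ ee y (0 : Fin n → ℤ) :=
        Finset.single_le_sum (f := fun t => y (0 : Fin n → ℤ) t) (fun _ _ => Nat.zero_le _)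
          (Finset.mem_univ s)
      omega
    rw [zero_smul, zero_mul, h2]
  · have hc := smul_cone m u hu
    have r1 : (D : ℤ) • (m • u) = ∑ s, ((m * y u s : ℕ) : ℤ) • V s := by
      rw [← natCast_zsmul, smul_comm, H.rep u hu, Finset.smul_sum]
      refine Finset.sum_congr rfl fun s _ => ?_
      rw [smul_smul]
      push_cast
      rfl
    have l1 := H.le (m • u) hc D (fun s => m * y u s) hD r1
    have r2 : ((D * m : ℕ) : ℤ) • u = ∑ s, ((y (m • u) s : ℕ) : ℤ) • V s := by
      rw [← H.rep (m • u) hc, ← natCast_zsmul, smul_smul]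
      push_cast
      rfl
    have l2 := H.le u hu (D * m) (fun s => y (m • u) s) (Nat.mul_pos hD hm) r2
    have e1 : ∑ s, m * y u s = m * ee y u := by
      rw [ee, Finset.mul_sum]
    have e2 : ∑ s, y (m • u) s = ee y (m • u) := rfl
    simp only [e1] at l1
    simp only [e2] at l2
    have l3 : D * ee y (m • u) = D * (m * ee y u) := by
      apply le_antisymm l1
      rw [← mul_assoc]
      exact l2
    have h := H.eq (m • u) hc D (fun s => m * y u s) hD r1 (by
      simp only [e1]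
      exact l3) s
    exact Nat.eq_of_mul_eq_mul_left hD h

theorem inj_y (hD : 1 ≤ D) (H : Simpl D V y) (u v : Fin n → ℤ) (hu : Cone V u) (hv : Cone V v)
    (h : ∀ s, y u s = y v s) : u = v := by
  have h1 : (D : ℤ) • u = (D : ℤ) • v := by
    rw [H.rep u hu, H.rep v hv]
    exact Finset.sum_congr rfl fun s _ => by rw [h s]
  have hD' : (D : ℤ) ≠ 0 := by
    have : D ≠ 0 := by omega
    exact_mod_cast this
  funext i
  have h2 := congrFun h1 i
  simp only [Pi.smul_apply, smul_eq_mul] at h2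
  exact mul_left_cancel₀ hD' h2

theorem rep_add (H : Simpl D V y) (u v : Fin n → ℤ) (hu : Cone V u) (hv : Cone V v) :
    (D : ℤ) • (u + v) = ∑ s, ((y u s + y v s : ℕ) : ℤ) • V s := by
  rw [smul_add, H.rep u hu, H.rep v hv, ← Finset.sum_add_distrib]
  refine Finset.sum_congr rfl fun s _ => ?_
  rw [← add_smul]
  push_cast
  rfl

theorem sum_add_y (u v : Fin n → ℤ) : ∑ s, (y u s + y v s) = ee y u + ee y v := by
  rw [Finset.sum_add_distrib]
  rfl

theorem sub_y (hD : 1 ≤ D) (H : Simpl D V y) (u v : Fin n → ℤ) (hu : Cone V u) (hv : Cone V v) :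
    ee y (u + v) ≤ ee y u + ee y v := by
  have h := H.le (u + v) (add_cone u v hu hv) D (fun s => y u s + y v s) hD (rep_add H u v hu hv)
  simp only [sum_add_y] at h
  exact Nat.le_of_mul_le_mul_left h hD

theorem eq_y (hD : 1 ≤ D) (H : Simpl D V y) (u v : Fin n → ℤ) (hu : Cone V u) (hv : Cone V v)
    (he : ee y (u + v) = ee y u + ee y v) (s : P) : y (u + v) s = y u s + y v s := by
  have h := H.eq (u + v) (add_cone u v hu hv) D (fun s => y u s + y v s) hD (rep_add H u v hu hv)
    (by simp only [sum_add_y]; rw [he]) s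
  exact Nat.eq_of_mul_eq_mul_left hD h

theorem lin_y (H : Simpl D V y) (l : P → ℕ) :
    ee y (∑ s, (l s : ℤ) • V s) ≤ D * ∑ s, l s ∧
    (ee y (∑ s, (l s : ℤ) • V s) = D * ∑ s, l s →
      ∀ s, y (∑ t, (l t : ℤ) • V t) s = D * l s) := by
  constructor
  · have h := H.le _ (lin_cone l) 1 l (le_refl _) (by simp)
    rwa [one_mul] at h
  · intro he s
    have h := H.eq _ (lin_cone l) 1 l (le_refl _) (by simp) (by rw [one_mul]; exact he) s
    rwa [one_mul] at h

theorem vert_y [DecidableEq P] (H : Simpl D V y) (s : P) :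
    y (V s) s = D ∧ ∀ t, t ≠ s → y (V s) t = 0 := by
  have hr : ((1 : ℕ) : ℤ) • V s = ∑ t, (((if t = s then 1 else 0 : ℕ)) : ℤ) • V t := by
    rw [Finset.sum_eq_single s]
    · simp
    · intro t _ ht
      simp [ht]
    · intro h
      exact absurd (Finset.mem_univ s) h
  have hs : ∑ t, (if t = s then 1 else 0 : ℕ) = 1 := by
    simp
  have h := H.eq (V s) (vert_cone s) 1 (fun t => if t = s then 1 else 0) (le_refl _) hr (by
    simp only [hs]
    rw [H.vert s, one_mul, mul_one])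
  constructor
  · have := h s
    simpa using this
  · intro t ht
    have := h t
    simpa [ht] using this

theorem low_y (hD : 1 ≤ D) (H : Simpl D V y) (u : Fin n → ℤ) (w : P → ℕ) (hu : Cone V u)
    (hw : ∀ s, w s ≤ y u s ∧ D ∣ y u s - w s) :
    Cone V (u - ∑ s, (((y u s - w s) / D : ℕ) : ℤ) • V s) ∧
    ∀ s, y (u - ∑ t, (((y u t - w t) / D : ℕ) : ℤ) • V t) s = w s := by
  set c : P → ℕ := fun s => (y u s - w s) / D with hc
  have hcD : ∀ s, y u s = w s + D * c s := by
    intro s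
    have h1 : D * ((y u s - w s) / D) = y u s - w s := Nat.mul_div_cancel' (hw s).2
    have h2 := (hw s).1
    simp only [hc, h1]
    omega
  set u' : Fin n → ℤ := u - ∑ s, ((c s : ℕ) : ℤ) • V s with hu'
  have r1 : (D : ℤ) • u' = ∑ s, ((w s : ℕ) : ℤ) • V s := by
    rw [hu', smul_sub, H.rep u hu, Finset.smul_sum, ← Finset.sum_sub_distrib]
    refine Finset.sum_congr rfl fun s _ => ?_
    rw [smul_smul, ← sub_smul, hcD s]
    push_cast
    congr 1
    ring
  have hcone : Cone V u' := ⟨D, w, hD, r1⟩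
  have l1 := H.le u' hcone D w hD r1
  have l1' : ee y u' ≤ ∑ s, w s := Nat.le_of_mul_le_mul_left l1 hD
  have r2 : (D : ℤ) • u = ∑ s, ((y u' s + D * c s : ℕ) : ℤ) • V s := by
    have e1 : u = u' + ∑ s, ((c s : ℕ) : ℤ) • V s := by
      rw [hu']
      simp
    conv_lhs => rw [e1]
    rw [smul_add, H.rep u' hcone, Finset.smul_sum, ← Finset.sum_add_distrib]
    refine Finset.sum_congr rfl fun s _ => ?_
    rw [smul_smul, ← add_smul]
    push_cast
    rfl
  have l2 := H.le u hu D _ hD r2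
  have l2' : ee y u ≤ ∑ s, (y u' s + D * c s) := Nat.le_of_mul_le_mul_left l2 hD
  have e2 : ee y u = ∑ s, w s + ∑ s, D * c s := by
    rw [ee, ← Finset.sum_add_distrib]
    exact Finset.sum_congr rfl fun s _ => hcD s
  have e3 : ∑ s, (y u' s + D * c s) = ee y u' + ∑ s, D * c s := by
    rw [Finset.sum_add_distrib]
    rfl
  have e4 : ee y u' = ∑ s, w s := by omega
  refine ⟨hcone, fun s => ?_⟩
  have h := H.eq u' hcone D w hD r1 (by rw [e4]) s
  exact Nat.eq_of_mul_eq_mul_left hD h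

end GEOXaux

theorem GEOX_thm : StmtGEOX := by
  intro n D P _ V y hD H
  classical
  exact {
    pos := hD
    zero := GEOXaux.zero_cone
    add := GEOXaux.add_cone
    sat := GEOXaux.sat_cone
    smulK := GEOXaux.smul_cone
    smul := GEOXaux.smul_y hD H
    rep := H.rep
    inj := GEOXaux.inj_y hD H
    sub := GEOXaux.sub_y hD H
    eq := GEOXaux.eq_y hD H
    vertK := GEOXaux.vert_cone
    vert := GEOXaux.vert_y H
    lin := fun l => ⟨GEOXaux.lin_cone l, (GEOXaux.lin_y H l).1, (GEOXaux.lin_y H l).2⟩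
    low := fun u w hu hw => GEOXaux.low_y hD H u w hu hw }

end ASX
end

section
/-!
# MP_b685ef_ag, ASX: module HNX (helper42)
-/
set_option linter.all false

namespace ASX

open Finset

namespace HNXaux

open PowerSeries in
/-- The number of `s : P → ℕ` with `|s| + i = j` as a coefficient. -/
theorem ncard_eq (P : Type) [Fintype P] (i j : ℕ) :
    (Set.ncard {s : P → ℕ | ∑ t, s t + i = j} : ℤ) =
      coeff j ((X : PowerSeries ℤ) ^ i * (PowerSeries.mk 1) ^ (Fintype.card P)) := by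
  classical
  rw [coeff_X_pow_mul']
  by_cases hij : i ≤ j
  · rw [if_pos hij]
    have h1 : ((PowerSeries.mk 1 : PowerSeries ℤ)) ^ (Fintype.card P) = ∏ t ∈ (univ : Finset P), (PowerSeries.mk 1) := by
      rw [prod_const, card_univ]
    rw [h1, coeff_prod]
    have h2 : ∑ l ∈ finsuppAntidiag (univ : Finset P) (j - i),
        ∏ t ∈ (univ : Finset P), coeff (l t) (PowerSeries.mk 1 : PowerSeries ℤ) =
        ((finsuppAntidiag (univ : Finset P) (j - i)).card : ℤ) := by
      rw [card_eq_sum_ones, Nat.cast_sum]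
      refine sum_congr rfl fun l _ => ?_
      simp
    rw [h2]
    congr 1
    rw [← Set.ncard_coe_finset]
    refine Set.ncard_congr (fun s _ => Finsupp.equivFunOnFinite.symm s) ?_ ?_ ?_
    · intro s hs
      simp only [Set.mem_ofPred_eq] at hs
      rw [mem_coe, mem_finsuppAntidiag]
      refine ⟨?_, subset_univ _⟩
      have : ∑ t, (Finsupp.equivFunOnFinite.symm s) t = ∑ t, s t := by
        refine sum_congr rfl fun t _ => rfl
      rw [this]
      omega
    · intro a b _ _ hab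
      exact Finsupp.equivFunOnFinite.symm.injective hab
    · intro l hl
      rw [mem_coe, mem_finsuppAntidiag] at hl
      refine ⟨fun t => l t, ?_, ?_⟩
      · simp only [Set.mem_ofPred_eq]
        have h3 : ∑ t, l t = j - i := hl.1
        omega
      · ext t
        rfl
  · rw [if_neg hij]
    have : {s : P → ℕ | ∑ t, s t + i = j} = ∅ := by
      ext s
      simp only [Set.mem_ofPred_eq, Set.mem_empty_iff_false, iff_false]
      omega
    rw [this, Set.ncard_empty]
    rfl

open PowerSeries in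
/-- `∑_i (-1)^i binom(n,i) X^i W^n = 1` for `W = 1/(1-X)`. -/
theorem sum_eq_one (n : ℕ) :
    ∑ i ∈ range (n + 1), C ((-1 : ℤ) ^ i * (n.choose i : ℤ)) *
      ((X : PowerSeries ℤ) ^ i * (PowerSeries.mk 1) ^ n) = 1 := by
  have h1 : (1 - X : PowerSeries ℤ) ^ n * (PowerSeries.mk 1) ^ n = 1 := by
    rw [← mul_pow, mul_comm, mk_one_mul_one_sub_eq_one, one_pow]
  have h2 : (1 - X : PowerSeries ℤ) ^ n =
      ∑ i ∈ range (n + 1), C ((-1 : ℤ) ^ i * (n.choose i : ℤ)) * (X : PowerSeries ℤ) ^ i := by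
    have e : (1 - X : PowerSeries ℤ) = (-X) + 1 := by ring
    rw [e, add_pow]
    refine sum_congr rfl fun i _ => ?_
    rw [one_pow, mul_one, neg_pow, map_mul, map_pow, map_neg, map_one]
    have : ((n.choose i : ℕ) : PowerSeries ℤ) = C ((n.choose i : ℕ) : ℤ) := by
      simp
    rw [this]
    ring
  rw [← h1, h2, sum_mul]
  refine sum_congr rfl fun i _ => ?_
  ring

end HNXaux

open Classical in
theorem HNX_thm : StmtHNX := by
  intro n D P _ V y hD hn hy r j
  -- the condition does not depend on `s`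
  have hcond : ∀ s : P → ℕ, (∃ u, Cone V u ∧ ∀ t, y u t = r t + D * s t) ↔
      ∃ u, Cone V u ∧ ∀ t, y u t = r t := by
    intro s
    have h1 := hy (fun t => r t + D * s t)
    have h2 := hy r
    beta_reduce at h1
    rw [h1, h2]
    have key : ∑ t, ((r t + D * s t : ℕ) : ℤ) • V t =
        ∑ t, (r t : ℤ) • V t + (D : ℤ) • ∑ t, (s t : ℤ) • V t := by
      rw [smul_sum, ← sum_add_distrib]
      refine sum_congr rfl fun t _ => ?_
      rw [smul_smul, ← add_smul]
      congr 1
    constructor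
    · rintro ⟨u, hu⟩
      refine ⟨u - ∑ t, (s t : ℤ) • V t, ?_⟩
      rw [smul_sub, hu, key]
      abel
    · rintro ⟨u, hu⟩
      refine ⟨u + ∑ t, (s t : ℤ) • V t, ?_⟩
      rw [smul_add, hu, key]
  unfold hj
  by_cases hr : ∃ u, Cone V u ∧ ∀ t, y u t = r t
  · have hset : ∀ i, {s : P → ℕ | ∑ t, s t + i = j ∧ ∃ u, Cone V u ∧ ∀ t, y u t = r t + D * s t} =
        {s : P → ℕ | ∑ t, s t + i = j} := by
      intro i
      ext s
      simp only [Set.mem_ofPred_eq]
      rw [hcond s]
      exact and_iff_left hr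
    have hmain : ∑ i ∈ range (n + 1), (-1 : ℤ) ^ i * (n.choose i : ℤ) *
        (Set.ncard {s : P → ℕ | ∑ t, s t + i = j ∧
          ∃ u, Cone V u ∧ ∀ t, y u t = r t + D * s t} : ℤ) =
        PowerSeries.coeff j (1 : PowerSeries ℤ) := by
      rw [← HNXaux.sum_eq_one n, map_sum]
      refine sum_congr rfl fun i _ => ?_
      rw [hset i, HNXaux.ncard_eq P i j, hn, PowerSeries.coeff_C_mul]
    rw [hmain, PowerSeries.coeff_one]
    by_cases hj0 : j = 0
    · rw [if_pos hj0, if_pos ⟨hj0, hr⟩]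
    · rw [if_neg hj0, if_neg (fun h => hj0 h.1)]
  · have hset : ∀ i, {s : P → ℕ | ∑ t, s t + i = j ∧ ∃ u, Cone V u ∧ ∀ t, y u t = r t + D * s t} =
        ∅ := by
      intro i
      ext s
      simp only [Set.mem_ofPred_eq, Set.mem_empty_iff_false, iff_false]
      rw [hcond s]
      exact fun h => hr h.2
    rw [if_neg (fun h => hr h.2)]
    refine sum_eq_zero fun i _ => ?_
    rw [hset i, Set.ncard_empty]
    simp

end ASX
end

section
/-!
# MP_b685ef_ag, theorem ASX, module HCX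
-/
set_option linter.all false

namespace ASX

open Finset

namespace HCXaux

open PowerSeries in
theorem sum_eq_W (n : ℕ) (a : ℕ) :
    ∑ i ∈ range (n + 1), C ((-1 : ℤ) ^ i * (n.choose i : ℤ)) *
      ((X : PowerSeries ℤ) ^ (i + a) * (PowerSeries.mk 1) ^ (n + 1)) =
      X ^ a * PowerSeries.mk 1 := by
  have h := HNXaux.sum_eq_one n
  have h2 : ∑ i ∈ range (n + 1), C ((-1 : ℤ) ^ i * (n.choose i : ℤ)) *
      ((X : PowerSeries ℤ) ^ (i + a) * (PowerSeries.mk 1) ^ (n + 1)) =
      (X ^ a * PowerSeries.mk 1) * ∑ i ∈ range (n + 1), C ((-1 : ℤ) ^ i * (n.choose i : ℤ)) *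
      ((X : PowerSeries ℤ) ^ i * (PowerSeries.mk 1) ^ n) := by
    rw [mul_sum]
    refine sum_congr rfl fun i _ => ?_
    ring
  rw [h2, h, mul_one]

/-- Shift by `1` on `B`. -/
theorem ncard_shift {P : Type} [Fintype P] [DecidableEq P] (B : Finset P) (i j : ℕ) :
    Set.ncard {s : P → ℕ | ∑ t, s t + i = j ∧ ∀ t ∈ B, s t ≠ 0} =
      Set.ncard {s : P → ℕ | ∑ t, s t + (i + B.card) = j} := by
  have hinj : Function.Injective (fun (s : P → ℕ) (t : P) => s t + if t ∈ B then 1 else 0) := by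
    intro s s' h
    funext t
    have := congrFun h t
    simpa using this
  rw [← Set.ncard_image_of_injective {s : P → ℕ | ∑ t, s t + (i + B.card) = j} hinj]
  congr 1
  ext s
  simp only [Set.mem_setOf_eq, Set.mem_image]
  constructor
  · rintro ⟨h1, h2⟩
    have h3 : ∑ t, s t = ∑ t, (s t - if t ∈ B then 1 else 0) + B.card := by
      have h4 : B.card = ∑ t, if t ∈ B then 1 else 0 := by
        rw [Finset.sum_ite_mem]
        simp
      rw [h4, ← Finset.sum_add_distrib]
      refine Finset.sum_congr rfl fun t _ => ?_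
      split_ifs with ht
      · have := h2 t ht
        omega
      · omega
    refine ⟨fun t => s t - if t ∈ B then 1 else 0, ?_, ?_⟩
    · have h5 : ∑ t, (s t - if t ∈ B then 1 else 0) + (i + B.card) = j := by omega
      exact h5
    · funext t
      show (s t - if t ∈ B then 1 else 0) + (if t ∈ B then 1 else 0) = s t
      split_ifs with ht
      · have := h2 t ht
        omega
      · omega
  · rintro ⟨s', h1, rfl⟩
    refine ⟨?_, ?_⟩
    · have h4 : ∑ t : P, (if t ∈ B then 1 else 0) = B.card := by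
        rw [Finset.sum_ite_mem]
        simp
      rw [Finset.sum_add_distrib, h4]
      omega
    · intro t ht
      simp [ht]

theorem finite_level {P : Type} [Fintype P] (i j : ℕ) :
    {s : P → ℕ | ∑ t, s t + i = j}.Finite := by
  classical
  refine Set.Finite.subset (Set.Finite.pi' fun _ : P => Set.finite_Iic j) ?_
  intro s hs t
  have h1 : s t ≤ ∑ t, s t := Finset.single_le_sum (f := s) (fun _ _ => Nat.zero_le _)
    (Finset.mem_univ t)
  have h2 : ∑ t, s t + i = j := hs
  show s t ≤ j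
  omega

theorem ncard_split {P : Type} [Fintype P] [DecidableEq P] (B : Finset P) (i j : ℕ) :
    (Set.ncard {s : P → ℕ | ∑ t, s t + i = j ∧ ∃ t ∈ B, s t = 0} : ℤ) =
      Set.ncard {s : P → ℕ | ∑ t, s t + i = j} -
      Set.ncard {s : P → ℕ | ∑ t, s t + (i + B.card) = j} := by
  rw [← ncard_shift B i j]
  have h1 : {s : P → ℕ | ∑ t, s t + i = j} = {s : P → ℕ | ∑ t, s t + i = j ∧ ∃ t ∈ B, s t = 0} ∪
      {s : P → ℕ | ∑ t, s t + i = j ∧ ∀ t ∈ B, s t ≠ 0} := by
    ext s
    simp only [Set.mem_setOf_eq, Set.mem_union]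
    constructor
    · intro h
      by_cases h2 : ∃ t ∈ B, s t = 0
      · exact Or.inl ⟨h, h2⟩
      · push Not at h2
        exact Or.inr ⟨h, h2⟩
    · rintro (h | h)
      · exact h.1
      · exact h.1
  have hd : Disjoint {s : P → ℕ | ∑ t, s t + i = j ∧ ∃ t ∈ B, s t = 0}
      {s : P → ℕ | ∑ t, s t + i = j ∧ ∀ t ∈ B, s t ≠ 0} := by
    rw [Set.disjoint_left]
    rintro s ⟨_, t, ht, hst⟩ ⟨_, h2⟩
    exact h2 t ht hst
  have h3 := Set.ncard_union_eq hd ((finite_level i j).subset fun s hs => hs.1)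
    ((finite_level i j).subset fun s hs => hs.1)
  rw [← h1] at h3
  rw [h3]
  push_cast
  ring

end HCXaux

open Classical in
theorem HCX_thm : StmtHCX := by
  intro n D P _ V y hD hn A hy r j
  have key : ∀ s : P → ℕ, ∑ t, ((r t + D * s t : ℕ) : ℤ) • V t =
      ∑ t, (r t : ℤ) • V t + (D : ℤ) • ∑ t, (s t : ℤ) • V t := by
    intro s
    rw [smul_sum, ← sum_add_distrib]
    refine sum_congr rfl fun t _ => ?_
    rw [smul_smul, ← add_smul]
    congr 1
  have hcond : ∀ s : P → ℕ, (∃ u, Cone V u ∧ ∀ t, y u t = r t + D * s t) ↔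
      (∃ u : Fin n → ℤ, (D : ℤ) • u = ∑ s, (r s : ℤ) • V s) ∧
        ∃ t ∈ A.filter (fun t => r t = 0), s t = 0 := by
    intro s
    have h1 := hy (fun t => r t + D * s t)
    beta_reduce at h1
    rw [h1, key s]
    refine and_congr ?_ ?_
    · constructor
      · rintro ⟨u, hu⟩
        refine ⟨u - ∑ t, (s t : ℤ) • V t, ?_⟩
        rw [smul_sub, hu]
        abel
      · rintro ⟨u, hu⟩
        refine ⟨u + ∑ t, (s t : ℤ) • V t, ?_⟩
        rw [smul_add, hu]
    · constructor
      · rintro ⟨t, ht, h2⟩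
        have h3 : r t = 0 := by omega
        have h4 : D * s t = 0 := by omega
        have h5 : s t = 0 := by
          rcases Nat.mul_eq_zero.1 h4 with h | h
          · omega
          · exact h
        exact ⟨t, Finset.mem_filter.2 ⟨ht, h3⟩, h5⟩
      · rintro ⟨t, ht, h2⟩
        rw [Finset.mem_filter] at ht
        exact ⟨t, ht.1, by simp [ht.2, h2]⟩
  unfold hj
  by_cases hr : ∃ u : Fin n → ℤ, (D : ℤ) • u = ∑ s, (r s : ℤ) • V s
  · have hset : ∀ i, {s : P → ℕ | ∑ t, s t + i = j ∧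
        ∃ u, Cone V u ∧ ∀ t, y u t = r t + D * s t} =
        {s : P → ℕ | ∑ t, s t + i = j ∧ ∃ t ∈ A.filter (fun t => r t = 0), s t = 0} := by
      intro i
      ext s
      simp only [Set.mem_setOf_eq]
      rw [hcond s]
      constructor
      · rintro ⟨h1, _, h2⟩
        exact ⟨h1, h2⟩
      · rintro ⟨h1, h2⟩
        exact ⟨h1, hr, h2⟩
    have hmain : ∑ i ∈ range (n + 1), (-1 : ℤ) ^ i * (n.choose i : ℤ) *
        (Set.ncard {s : P → ℕ | ∑ t, s t + i = j ∧
          ∃ u, Cone V u ∧ ∀ t, y u t = r t + D * s t} : ℤ) =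
        PowerSeries.coeff j ((PowerSeries.X : PowerSeries ℤ) ^ 0 * PowerSeries.mk 1) -
        PowerSeries.coeff j ((PowerSeries.X : PowerSeries ℤ) ^
          (A.filter (fun t => r t = 0)).card * PowerSeries.mk 1) := by
      rw [← HCXaux.sum_eq_W n 0, ← HCXaux.sum_eq_W n, map_sum, map_sum,
        ← Finset.sum_sub_distrib]
      refine sum_congr rfl fun i _ => ?_
      rw [hset i, HCXaux.ncard_split, HNXaux.ncard_eq P i j, HNXaux.ncard_eq P _ j, hn,
        PowerSeries.coeff_C_mul, PowerSeries.coeff_C_mul, add_zero]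
      ring
    rw [hmain, pow_zero, one_mul, PowerSeries.coeff_X_pow_mul', PowerSeries.coeff_mk]
    by_cases hja : j < (A.filter (fun t => r t = 0)).card
    · rw [if_neg (by omega), if_pos ⟨hja, hr⟩]
      simp
    · rw [if_pos (by omega), if_neg (fun h => hja h.1), PowerSeries.coeff_mk]
      simp
  · have hset : ∀ i, {s : P → ℕ | ∑ t, s t + i = j ∧
        ∃ u, Cone V u ∧ ∀ t, y u t = r t + D * s t} = ∅ := by
      intro i
      ext s
      simp only [Set.mem_setOf_eq, Set.mem_empty_iff_false, iff_false]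
      rw [hcond s]
      exact fun h => hr h.2.1
    rw [if_neg (fun h => hr h.2)]
    refine sum_eq_zero fun i _ => ?_
    rw [hset i, Set.ncard_empty]
    simp

end ASX
end

section
/-!
# MP_b685ef_ag, theorem ASX, module LEVX: level sets of the cone are finite
-/
set_option linter.all false

namespace ASX

open Finset ASur AST

theorem LEVX_thm : StmtLEVX := by
  intro n D P _ V y hG L
  have hfin : {u : Fin n → ℤ | Cone V u ∧ ee y u ≤ L}.Finite := by
    refine Set.Finite.of_injOn (f := y) (t := Set.pi Set.univ fun _ : P => Set.Iic L) ?_ ?_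
      (Set.Finite.pi fun _ => Set.finite_Iic L)
    · intro u hu
      rw [Set.mem_univ_pi]
      intro s
      rw [Set.mem_Iic]
      exact (Finset.single_le_sum (f := fun t => y u t) (fun _ _ => Nat.zero_le _)
        (Finset.mem_univ s)).trans hu.2
    · intro u hu v hv h
      exact hG.inj u v hu.1 hv.1 fun s => congrFun h s
  exact ⟨hfin.toFinset, fun u => by rw [Set.Finite.mem_toFinset]; rfl⟩

end ASX
end

section
/-!
# MP_b685ef_ag, theorem ASX: edges and multisets (MSX)
-/
set_option linter.all false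

namespace ASX

open Finset ASur AST

namespace MSXaux

section eres

variable {κ : Type} [Field κ]

theorem msx_lin (r : κ) (hr : r ≠ 0) :
    (1 - Polynomial.C r * Polynomial.X : Polynomial κ).roots = {r⁻¹} := by
  have h : (1 - Polynomial.C r * Polynomial.X : Polynomial κ) =
      Polynomial.C (-r) * (Polynomial.X - Polynomial.C r⁻¹) := by
    rw [mul_sub, ← Polynomial.C_mul, neg_mul, mul_inv_cancel₀ hr, Polynomial.C_neg,
      Polynomial.C_neg, Polynomial.C_1]
    ring
  rw [h, Polynomial.roots_C_mul _ (neg_ne_zero.2 hr), Polynomial.roots_X_sub_C]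

theorem msx_ne (r : κ) : (1 - Polynomial.C r * Polynomial.X : Polynomial κ) ≠ 0 := by
  intro h
  have h2 := congrArg (Polynomial.eval 0) h
  simp at h2

theorem msx_roots (R : Multiset κ) (hR : ∀ r ∈ R, r ≠ 0) :
    ((R.map fun r => (1 - Polynomial.C r * Polynomial.X : Polynomial κ)).prod).roots =
      R.map fun r => r⁻¹ := by
  induction R using Multiset.induction_on with
  | empty => simp
  | cons r R ih =>
    have h1 : (R.map fun r => (1 - Polynomial.C r * Polynomial.X : Polynomial κ)).prod ≠ 0 := by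
      intro h0
      rw [Multiset.prod_eq_zero_iff, Multiset.mem_map] at h0
      obtain ⟨x, _, hx⟩ := h0
      exact msx_ne x hx
    rw [Multiset.map_cons, Multiset.prod_cons, Polynomial.roots_mul (mul_ne_zero (msx_ne r) h1),
      ih (fun x hx => hR x (Multiset.mem_cons_of_mem hx)),
      msx_lin r (hR r (Multiset.mem_cons_self r R)), Multiset.map_cons, Multiset.singleton_add]

theorem msx_inj (R T : Multiset κ) (hR : ∀ r ∈ R, r ≠ 0) (hT : ∀ r ∈ T, r ≠ 0)
    (h : (R.map fun r => (1 - Polynomial.C r * Polynomial.X : Polynomial κ)).prod =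
      (T.map fun r => (1 - Polynomial.C r * Polynomial.X : Polynomial κ)).prod) : R = T := by
  have h2 := congrArg Polynomial.roots h
  rw [msx_roots R hR, msx_roots T hT] at h2
  exact Multiset.map_injective inv_injective h2

theorem msx_deg (R : Multiset κ) :
    ((R.map fun r => (1 - Polynomial.C r * Polynomial.X : Polynomial κ)).prod).natDegree ≤
      Multiset.card R := by
  refine (Polynomial.natDegree_multiset_prod_le _).trans ?_
  rw [Multiset.map_map]
  have : ∀ x ∈ R, (Polynomial.natDegree ∘ fun x : κ =>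
      (1 - Polynomial.C x * Polynomial.X : Polynomial κ)) x ≤ 1 := by
    intro x _
    simp only [Function.comp_apply]
    refine (Polynomial.natDegree_sub_le _ _).trans ?_
    rw [Polynomial.natDegree_one]
    exact max_le (by norm_num) ((Polynomial.natDegree_C_mul_le _ _).trans Polynomial.natDegree_X_le)
  calc (R.map (Polynomial.natDegree ∘ fun x : κ =>
      (1 - Polynomial.C x * Polynomial.X : Polynomial κ))).sum ≤ (R.map fun _ => 1).sum :=
        Multiset.sum_map_le_sum_map _ _ this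
    _ = Multiset.card R := by simp

theorem msx_zero (R : Multiset κ) :
    ((R.map fun r => (1 - Polynomial.C r * Polynomial.X : Polynomial κ)).prod).coeff 0 = 1 := by
  rw [Polynomial.coeff_zero_eq_eval_zero, Polynomial.eval_multiset_prod, Multiset.map_map]
  apply Multiset.prod_eq_one
  intro x hx
  rw [Multiset.mem_map] at hx
  obtain ⟨y, _, rfl⟩ := hx
  simp

end eres

theorem msx_card {C : Type} [NormedField C] (β : Multiset C) (w : C) :
    Multiset.card (β.filter fun x => ‖w‖ < ‖x‖) + Multiset.card (β.filter fun x => ‖x‖ = ‖w‖) ≤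
      Multiset.card β := by
  induction β using Multiset.induction_on with
  | empty => simp
  | cons b β ih =>
    rcases lt_trichotomy ‖b‖ ‖w‖ with h | h | h
    · rw [Multiset.filter_cons_of_neg (p := fun x : C => ‖w‖ < ‖x‖) _ (not_lt.2 h.le),
        Multiset.filter_cons_of_neg (p := fun x : C => ‖x‖ = ‖w‖) _ h.ne, Multiset.card_cons]
      omega
    · rw [Multiset.filter_cons_of_neg (p := fun x : C => ‖w‖ < ‖x‖) _ (not_lt.2 h.le),
        Multiset.filter_cons_of_pos (p := fun x : C => ‖x‖ = ‖w‖) _ h, Multiset.card_cons,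
        Multiset.card_cons]
      omega
    · rw [Multiset.filter_cons_of_pos (p := fun x : C => ‖w‖ < ‖x‖) _ h,
        Multiset.filter_cons_of_neg (p := fun x : C => ‖x‖ = ‖w‖) _ h.ne', Multiset.card_cons,
        Multiset.card_cons]
      omega

end MSXaux

open MSXaux

theorem MSX_thm (hEMULT : AST.StmtEMULT) (hEPROD : AST.StmtEPROD) (hECL : ASur.StmtECL) :
    StmtMSX := by
  classical
  intro C _ _ β w MA MB RA RB hw hw1 hRA hRB H
  obtain ⟨A, B, hA, hB, hAB⟩ := H (Multiset.card β + MA + Multiset.card RA + MB + Multiset.card RB)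
  obtain ⟨m0, hm0⟩ : ∃ m0, m0 = Multiset.card β + MA + Multiset.card RA + MB + Multiset.card RB :=
    ⟨_, rfl⟩
  rw [← hm0] at hA hB hAB
  have h1 := hEMULT C β w hw hw1 m0
  set T : Multiset (KK C) := (β.filter fun x => ‖x‖ = ‖w‖).map fun x => rd (x / w) with hT
  have hprod : ((β.filter fun x => ‖x‖ = ‖w‖).map fun x =>
      (1 - Polynomial.C (rd (x / w)) * Polynomial.X : Polynomial (KK C))) =
      T.map fun r => (1 - Polynomial.C r * Polynomial.X : Polynomial (KK C)) := by
    rw [hT, Multiset.map_map]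
    rfl
  rw [hprod] at h1
  have hTne : ∀ r ∈ T, r ≠ 0 := by
    intro r hr
    rw [hT, Multiset.mem_map] at hr
    obtain ⟨x, hx, rfl⟩ := hr
    rw [Multiset.mem_filter] at hx
    have hn : ‖x / w‖ = 1 := by
      rw [norm_div, hx.2, div_self (norm_ne_zero_iff.2 hw)]
    rw [Ne, rd_eq_zero_iff hn.le]
    intro h; linarith
  have hTcard : Multiset.card T = Multiset.card (β.filter fun x => ‖x‖ = ‖w‖) := by
    rw [hT, Multiset.card_map]
  have hcard := msx_card β w
  have h2 := (hEPROD C (revP β : PowerSeries C) A w _ MA _ _ m0 hw).1 h1 hA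
  have h3 : Edge ((revP β : PowerSeries C) * A) w MB
      ((RB.map fun r => 1 - Polynomial.C r * Polynomial.X).prod) m0 :=
    hECL C _ B w MB _ m0 hw hw1 hAB hB
  rw [← Multiset.prod_add, ← Multiset.map_add] at h2
  have hTR : ∀ r ∈ T + RA, r ≠ 0 := by
    intro r hr
    rcases Multiset.mem_add.1 hr with h | h
    · exact hTne r h
    · exact hRA r h
  obtain ⟨e1, e2⟩ := (hEPROD C ((revP β : PowerSeries C) * A) ((revP β : PowerSeries C) * A) w
    (Multiset.card (β.filter fun x => ‖w‖ < ‖x‖) + MA) MB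
    ((T + RA).map fun r => (1 - Polynomial.C r * Polynomial.X : Polynomial (KK C))).prod
    (RB.map fun r => (1 - Polynomial.C r * Polynomial.X : Polynomial (KK C))).prod m0 hw).2
    h2 h3 (msx_zero _) (msx_zero RB)
    (by
      have h4 := msx_deg (T + RA)
      rw [Multiset.card_add] at h4
      omega)
    (by
      have := msx_deg RB
      omega)
  exact ⟨e1, msx_inj (T + RA) RB hTR hRB e2⟩

end ASX
end

section
/-!
# MP_b685ef_ag, ASX: module OEX (helper42)
-/
set_option linter.all false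

namespace ASX

open Finset ASur AST

namespace OEXaux

/-- the edge of `1` -/
theorem edge_one {C : Type} [NormedField C] [IsUltrametricDist C] (w : C) (m0 : ℕ) :
    Edge (1 : PowerSeries C) w 0 1 m0 := by
  refine ⟨1, one_ne_zero, by simp, ?_⟩
  intro n _
  rcases Nat.eq_zero_or_pos n with rfl | hn
  · simp
  · have h : (1 : C) * PowerSeries.coeff n (1 : PowerSeries C) / w ^ n = 0 := by
      rw [PowerSeries.coeff_one, if_neg hn.ne']
      simp
    rw [h]
    simp [Polynomial.coeff_one, hn.ne']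

/-- edges of finite products -/
theorem edge_prod (hEP : AST.StmtEPROD) {C : Type} [NormedField C] [IsUltrametricDist C] {w : C}
    (hw : w ≠ 0) (m0 : ℕ) {ι : Type} (s : Finset ι) (R : ι → PowerSeries C) (M : ι → ℕ)
    (χ : ι → Polynomial (KK C)) (h : ∀ i ∈ s, Edge (R i) w (M i) (χ i) m0) :
    Edge (∏ i ∈ s, R i) w (∑ i ∈ s, M i) (∏ i ∈ s, χ i) m0 := by
  classical
  induction s using Finset.induction_on with
  | empty => simpa using edge_one w m0
  | insert a s ha ih =>
    rw [prod_insert ha, sum_insert ha, prod_insert ha]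
    exact (hEP C (R a) (∏ i ∈ s, R i) w (M a) (∑ i ∈ s, M i) (χ a) (∏ i ∈ s, χ i) m0 hw).1
      (h a (mem_insert_self _ _)) (ih fun i hi => h i (mem_insert_of_mem hi))

theorem comp_prod {K : Type} [Field K] {σ : Type} (S : Finset σ) (l : σ → K) (c : K) :
    (∏ u ∈ S, (1 - Polynomial.C (l u) * Polynomial.X)).comp (Polynomial.C c * Polynomial.X) =
      ∏ u ∈ S, (1 - Polynomial.C (l u * c) * Polynomial.X) := by
  rw [Polynomial.prod_comp]
  refine prod_congr rfl fun u _ => ?_
  rw [Polynomial.sub_comp, Polynomial.mul_comp, Polynomial.one_comp, Polynomial.C_comp,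
    Polynomial.X_comp, map_mul, mul_assoc]

/-- one factor -/
theorem one_factor (hES : AST.StmtESCAL) (hPL : AST.StmtPLAM) (hZ : ASur.StmtZETA)
    (p : ℕ) [Fact p.Prime] (D h : ℕ) (hh : 1 ≤ h)
    (C : Type) [NormedField C] [IsUltrametricDist C] [CharZero C] (hp : ‖(p : C)‖ < 1)
    (ζ ρ : C) (hζ : IsPrimitiveRoot ζ p) (hρD : ρ ^ D = ζ - 1) (hρ0 : ρ ≠ 0) (hρ1 : ‖ρ‖ < 1)
    (σ : Type) (S : Finset σ) (e : σ → ℕ) (l : σ → KK C) (T : PowerSeries C) (m m0 : ℕ)
    (hT : PowerSeries.constantCoeff T = 1) (hint : ∀ i, ‖PowerSeries.coeff i T‖ ≤ 1)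
    (hE : ∀ m', m' ≤ m → Edge T (ρ ^ ((p - 1) * m' * h)) (S.filter (fun u => e u < m')).card
      (∏ u ∈ S.filter (fun u => e u = m'), (1 - Polynomial.C (l u) * Polynomial.X)) m0)
    (i : ℕ) :
    Edge (PowerSeries.rescale (((p : C) ^ h) ^ i) T) (ρ ^ ((p - 1) * m * h))
      (S.filter (fun u => e u + D * i < m)).card
      (∏ u ∈ S.filter (fun u => e u + D * i = m),
        (1 - Polynomial.C (l u * (-1) ^ (h * i)) * Polynomial.X)) m0 := by
  have hp1 : 1 ≤ p - 1 := by
    have := (Fact.out : p.Prime).two_le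
    omega
  have hρn : 0 < ‖ρ‖ := norm_pos_iff.2 hρ0
  have hpC : (p : C) ≠ 0 := by
    exact_mod_cast (Fact.out : p.Prime).ne_zero
  obtain ⟨hz0, -, hz2, -⟩ := hZ p C hp ζ hζ
  obtain ⟨hl1, hl2⟩ := hPL p C hp ζ hζ
  by_cases hm : m < D * i
  · -- first case
    have hf1 : S.filter (fun u => e u + D * i < m) = ∅ := by
      rw [filter_eq_empty_iff]
      intro u _
      omega
    have hf2 : S.filter (fun u => e u + D * i = m) = ∅ := by
      rw [filter_eq_empty_iff]
      intro u _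
      omega
    rw [hf1, hf2, card_empty, prod_empty]
    refine (hES C T m0).1 _ _ (pow_ne_zero _ hρ0) ?_ hT hint
    rw [norm_pow, norm_pow, norm_pow, ← hz2, ← hρD, norm_pow, ← pow_mul, ← pow_mul, ← pow_mul]
    refine pow_lt_pow_right_of_lt_one₀ hρn hρ1 ?_
    calc (p - 1) * m * h = m * ((p - 1) * h) := by ring
      _ < D * i * ((p - 1) * h) := Nat.mul_lt_mul_of_pos_right hm (Nat.mul_pos hp1 hh)
      _ = D * ((p - 1) * (h * i)) := by ring
  · push Not at hm
    obtain ⟨m', rfl⟩ := Nat.exists_eq_add_of_le' hm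
    set η : C := (((p : C) / (ζ - 1) ^ (p - 1))⁻¹) ^ (h * i) with hη
    have hη1 : ‖η‖ = 1 := by
      rw [hη, norm_pow, norm_inv, hl1, inv_one, one_pow]
    have hrη : rd η = (-1) ^ (h * i) := by
      rw [hη, rd_pow (by rw [norm_inv, hl1, inv_one]), rd_inv hl1, hl2]
      congr 1
      rw [inv_neg, inv_one]
    have hrη' : (rd η)⁻¹ = (-1) ^ (h * i) := by
      rw [hrη, ← inv_pow, inv_neg, inv_one]
    have hw : ((p : C) ^ h) ^ i * ρ ^ ((p - 1) * m' * h) * η = ρ ^ ((p - 1) * (m' + D * i) * h) := by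
      rw [hη, inv_div, div_pow, ← hρD]
      have hpp : ((p : C) ^ h) ^ i = (p : C) ^ (h * i) := by rw [← pow_mul]
      rw [hpp]
      have hne : (p : C) ^ (h * i) ≠ 0 := pow_ne_zero _ hpC
      have e1 : ρ ^ ((p - 1) * (m' + D * i) * h) =
          ρ ^ ((p - 1) * m' * h) * ((ρ ^ D) ^ (p - 1)) ^ (h * i) := by
        rw [← pow_mul, ← pow_mul, ← pow_add]
        congr 1
        ring
      rw [e1]
      field_simp
    have hmain := (hES C T m0).2 (((p : C) ^ h) ^ i) (ρ ^ ((p - 1) * m' * h)) η _ _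
      (pow_ne_zero _ (pow_ne_zero _ hpC)) (pow_ne_zero _ hρ0) hη1 (hE m' (by omega))
    rw [hw, hrη', comp_prod] at hmain
    have hf1 : S.filter (fun u => e u + D * i < m' + D * i) = S.filter (fun u => e u < m') := by
      refine filter_congr fun u _ => ?_
      omega
    have hf2 : S.filter (fun u => e u + D * i = m' + D * i) = S.filter (fun u => e u = m') := by
      refine filter_congr fun u _ => ?_
      omega
    rw [hf1, hf2]
    exact hmain

end OEXaux

theorem OEX_thm (hES : AST.StmtESCAL) (hEP : AST.StmtEPROD) (hPL : AST.StmtPLAM)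
    (hZ : ASur.StmtZETA) : StmtOEX := by
  intro p _ D h n hh C _ _ _ hp ζ ρ hζ hρD hρ0 hρ1 σ S e l T m m0 hT hint hE
  have hw : ρ ^ ((p - 1) * m * h) ≠ 0 := pow_ne_zero _ hρ0
  refine ⟨?_, ?_⟩
  · unfold Odd'
    exact OEXaux.edge_prod hEP hw m0 _ _ _ _ fun Z _ =>
      OEXaux.one_factor hES hPL hZ p D h hh C hp ζ ρ hζ hρD hρ0 hρ1 σ S e l T m m0 hT hint hE
        Z.card
  · unfold Even'
    exact OEXaux.edge_prod hEP hw m0 _ _ _ _ fun Z _ =>
      OEXaux.one_factor hES hPL hZ p D h hh C hp ζ ρ hζ hρD hρ0 hρ1 σ S e l T m m0 hT hint hE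
        Z.card

end ASX
end

section
/-!
# MP_b685ef_ag, theorem ASX: module PATHX (the path lemma on the torus, general cones)
-/
set_option linter.all false

namespace ASX

open Finset ASur AST

namespace PATHXaux

variable {C : Type} [Field C] {n : ℕ}

theorem expand (q : ℕ) (A : AddMonoidAlgebra C (Fin n → ℤ)) :
    AddMonoidAlgebra.mapDomainRingHom C (nsmulAddMonoidHom (α := Fin n → ℤ) q) A =
      ∑ w ∈ A.coeff.support, AddMonoidAlgebra.single (q • w) (A.coeff w) := by
  have h : A = ∑ w ∈ A.coeff.support, AddMonoidAlgebra.single w (A.coeff w) := by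
    conv_lhs => rw [← AddMonoidAlgebra.sum_coeff_single A]
    rfl
  conv_lhs => rw [h]
  rw [map_sum]
  refine Finset.sum_congr rfl fun w _ => ?_
  rw [AddMonoidAlgebra.mapDomainRingHom_apply, AddMonoidAlgebra.mapDomain_single]
  rfl

theorem coeff_mul_map (q : ℕ) (G A : AddMonoidAlgebra C (Fin n → ℤ)) (d : Fin n → ℤ) :
    (G * AddMonoidAlgebra.mapDomainRingHom C (nsmulAddMonoidHom (α := Fin n → ℤ) q) A).coeff d =
      ∑ w ∈ A.coeff.support, A.coeff w * G.coeff (d - q • w) := by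
  rw [expand, Finset.mul_sum, AddMonoidAlgebra.coeff_sum, Finsupp.finsetSum_apply]
  refine Finset.sum_congr rfl fun w _ => ?_
  rw [AddMonoidAlgebra.coeff_mul_single_apply, mul_comm, sub_eq_add_neg]

variable {D : ℕ} {P : Type} [Fintype P] {V : P → Fin n → ℤ} {y : (Fin n → ℤ) → P → ℕ}

theorem ee_smul (hG : Geo D V y) (m : ℕ) (u : Fin n → ℤ) (hu : Cone V u) :
    ee y (m • u) = m * ee y u := by
  unfold ee
  rw [Finset.mul_sum]
  exact Finset.sum_congr rfl fun s _ => hG.smul m u hu s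

theorem ee_zero (hG : Geo D V y) : ee y 0 = 0 := by
  have h := ee_smul hG 0 0 hG.zero
  rwa [smul_zero, zero_mul] at h

theorem cone_mul (hG : Geo D V y) {B B' q : ℕ} {G A : AddMonoidAlgebra C (Fin n → ℤ)}
    (h1 : InK V y B G) (h2 : InK V y B' A) :
    InK V y (B + q * B')
      (G * AddMonoidAlgebra.mapDomainRingHom C (nsmulAddMonoidHom (α := Fin n → ℤ) q) A) := by
  intro u hu
  rw [coeff_mul_map] at hu
  obtain ⟨w, hw, hne⟩ := Finset.exists_ne_zero_of_sum_ne_zero hu
  obtain ⟨ha1, ha2⟩ := h2 w (left_ne_zero_of_mul hne)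
  obtain ⟨hb1, hb2⟩ := h1 (u - q • w) (right_ne_zero_of_mul hne)
  have h3 : u = (u - q • w) + q • w := (sub_add_cancel _ _).symm
  have h4 := hG.smulK q w ha1
  refine ⟨by rw [h3]; exact hG.add _ _ hb1 h4, ?_⟩
  rw [h3]
  refine (hG.sub _ _ hb1 h4).trans (add_le_add hb2 ?_)
  rw [ee_smul hG q w ha1]
  exact Nat.mul_le_mul_left q ha2

theorem GT_succ (p : ℕ) (F : ℕ → AddMonoidAlgebra C (Fin n → ℤ)) (m : ℕ) :
    GT p F (m + 1) = GT p F m *
      AddMonoidAlgebra.mapDomainRingHom C (nsmulAddMonoidHom (α := Fin n → ℤ) (p ^ m)) (F m) := by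
  rw [GT, Finset.prod_range_succ, GT]

theorem GT_cone (hG : Geo D V y) {p : ℕ} (hp : 1 ≤ p) {L : ℕ}
    {F : ℕ → AddMonoidAlgebra C (Fin n → ℤ)} (hF : ∀ i, InK V y ((p - 1) * L) (F i))
    (m : ℕ) : InK V y ((p ^ m - 1) * L) (GT p F m) := by
  induction m with
  | zero =>
    intro u hu
    have h0 : u = 0 := by
      by_contra hne
      apply hu
      rw [GT, Finset.range_zero, Finset.prod_empty, AddMonoidAlgebra.one_def,
        AddMonoidAlgebra.coeff_single_apply, if_neg (Ne.symm hne)]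
    subst h0
    exact ⟨hG.zero, by rw [ee_zero hG]; exact Nat.zero_le _⟩
  | succ m ih =>
    rw [GT_succ]
    have h1 := cone_mul hG (q := p ^ m) ih (hF m)
    have h2 : (p ^ m - 1) * L + p ^ m * ((p - 1) * L) = (p ^ (m + 1) - 1) * L := by
      have h3 : p ^ (m + 1) - 1 = (p ^ m - 1) + p ^ m * (p - 1) := by
        have h4 : 1 ≤ p ^ m := Nat.one_le_pow _ _ hp
        rw [pow_succ]
        obtain ⟨a, ha⟩ := Nat.exists_eq_add_of_le' h4
        obtain ⟨b, hb⟩ := Nat.exists_eq_add_of_le' hp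
        rw [ha, hb, Nat.add_sub_cancel, Nat.add_sub_cancel]
        have : (a + 1) * (b + 1) = a + (a + 1) * b + 1 := by ring
        rw [this, Nat.add_sub_cancel]
      rw [h3]
      ring
    rwa [h2] at h1

theorem main (hG : Geo D V y) {p : ℕ} (hp : 1 ≤ p) {L : ℕ}
    {S : Finset (Fin n → ℤ)} (hS : IsLev V y L S)
    {F : ℕ → AddMonoidAlgebra C (Fin n → ℤ)} (hF : ∀ i, InK V y ((p - 1) * L) (F i))
    (m : ℕ) (u v : S) :
    Pmat (fun i => AT p S (F i)) m u v = (GT p F m).coeff (p ^ m • u.1 - v.1) := by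
  classical
  induction m generalizing u v with
  | zero =>
    rw [GT, Finset.range_zero, Finset.prod_empty, AddMonoidAlgebra.one_def,
      AddMonoidAlgebra.coeff_single_apply, pow_zero, one_smul]
    show (1 : Matrix S S C) u v = _
    by_cases huv : u = v
    · subst huv
      rw [Matrix.one_apply_eq, if_pos (sub_self _).symm]
    · rw [Matrix.one_apply_ne huv, if_neg]
      intro h
      exact huv (Subtype.ext (sub_eq_zero.1 h.symm))
  | succ m ih =>
    have hL : Pmat (fun i => AT p S (F i)) (m + 1) u v =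
        ∑ w : S, AT p S (F m) u w * Pmat (fun i => AT p S (F i)) m w v := by
      simp only [Pmat, Matrix.mul_apply]
    rw [hL, GT_succ, coeff_mul_map]
    obtain ⟨g, hg⟩ : ∃ g : (Fin n → ℤ) → C, g = fun x => (F m).coeff x *
      (GT p F m).coeff (p ^ m • (p • u.1 - x) - v.1) := ⟨_, rfl⟩
    have e1 : ∑ w : S, AT p S (F m) u w * Pmat (fun i => AT p S (F i)) m w v =
        ∑ w ∈ S, g (p • u.1 - w) := by
      rw [← Finset.sum_coe_sort S (fun w => g (p • u.1 - w))]
      refine Finset.sum_congr rfl fun w _ => ?_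
      rw [ih w v, hg]
      simp only [AT, Matrix.of_apply, sub_sub_cancel]
    have e2 : ∀ x ∈ (F m).coeff.support,
        (F m).coeff x * (GT p F m).coeff (p ^ (m + 1) • u.1 - v.1 - p ^ m • x) = g x := by
      intro x _
      rw [hg]
      have h1 : p ^ (m + 1) • u.1 - v.1 - p ^ m • x = p ^ m • (p • u.1 - x) - v.1 := by
        rw [smul_sub, smul_smul, ← pow_succ]
        abel
      simp only [h1]
    rw [e1, Finset.sum_congr rfl e2,
      ← Finset.sum_image (s := S) (g := fun w : Fin n → ℤ => p • u.1 - w) (f := g)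
        (fun w _ w' _ h => sub_right_injective h)]
    refine Finset.sum_congr_of_eq_on_inter ?_ ?_ (fun _ _ _ => rfl)
    · intro x _ hx
      rw [hg]
      simp only [Finsupp.notMem_support_iff.1 hx, zero_mul]
    · intro x hx hxS
      by_contra hne
      rw [hg] at hne
      apply hxS
      rw [Finset.mem_image]
      obtain ⟨h1, h1'⟩ := GT_cone hG hp hF m _ (right_ne_zero_of_mul hne)
      obtain ⟨h2, h2'⟩ := (hS v.1).1 v.2
      have h4 : 1 ≤ p ^ m := Nat.one_le_pow _ _ hp
      have h3 : p ^ m • (p • u.1 - x) = (p ^ m • (p • u.1 - x) - v.1) + v.1 :=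
        (sub_add_cancel _ _).symm
      have h5 : Cone V (p ^ m • (p • u.1 - x)) := by
        rw [h3]
        exact hG.add _ _ h1 h2
      have h6 : Cone V (p • u.1 - x) := hG.sat _ _ h4 h5
      have h7 : p ^ m * ee y (p • u.1 - x) ≤ (p ^ m - 1) * L + L := by
        rw [← ee_smul hG _ _ h6, h3]
        exact (hG.sub _ _ h1 h2).trans (add_le_add h1' h2')
      have h8 : (p ^ m - 1) * L + L = p ^ m * L := by
        obtain ⟨q, hq⟩ : ∃ q : ℕ, p ^ m = q + 1 := ⟨p ^ m - 1, by omega⟩
        rw [hq, Nat.add_sub_cancel]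
        ring
      rw [h8] at h7
      exact ⟨p • u.1 - x, (hS _).2 ⟨h6, Nat.le_of_mul_le_mul_left h7 (by omega)⟩,
        sub_sub_cancel _ _⟩

end PATHXaux

/-- **PATHX.** -/
theorem pathx_thm : StmtPATHX := by
  intro p hp C _ n D P _ V y hG L S hS F hF m
  refine ⟨PATHXaux.GT_cone hG hp hF m, ?_⟩
  rw [Matrix.trace, ← Finset.sum_coe_sort S (fun u => (GT p F m).coeff ((p ^ m - 1) • u))]
  refine Finset.sum_congr rfl fun u _ => ?_
  rw [Matrix.diag_apply, PATHXaux.main hG hp hS hF m u u]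
  congr 1
  have h4 : 1 ≤ p ^ m := Nat.one_le_pow _ _ hp
  obtain ⟨q, hq⟩ : ∃ q : ℕ, p ^ m = q + 1 := ⟨p ^ m - 1, by omega⟩
  rw [hq, Nat.add_sub_cancel, succ_nsmul, add_sub_cancel_right]

end ASX
end
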