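import Pool.Agent.Lib.MP_b685ef_ag.ASX.Spec
import Pool.Agent.Lib.MP_b685ef_ag.ASX.PATHX
import Pool.Agent.Lib.MP_b685ef_ag.AST.Main

section
/-!
# MP_b685ef_ag, theorem ASX, module REDX
-/
set_option linter.all false

namespace ASX

open Finset ASur AST

namespace REDXaux

variable {n D : ℕ} {P : Type} [Fintype P] {V : P → Fin n → ℤ} {y : (Fin n → ℤ) → P → ℕ}

theorem ee_smul (hG : Geo D V y) (p : ℕ) (u : Fin n → ℤ) (hu : Cone V u) :
    ee y (p • u) = p * ee y u := by
  unfold ee
  rw [Finset.mul_sum]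
  exact Finset.sum_congr rfl fun s _ => hG.smul p u hu s

theorem le_add (hG : Geo D V y) (p : ℕ) (u v : Fin n → ℤ) (hu : Cone V u) (hv : Cone V v)
    (hw : Cone V (p • u - v)) : p * ee y u ≤ ee y (p • u - v) + ee y v := by
  have h1 := hG.sub (p • u - v) v hw hv
  rw [sub_add_cancel, ee_smul hG p u hu] at h1
  exact h1

theorem cofacial (hG : Geo D V y) (p : ℕ) (u v : Fin n → ℤ) (hu : Cone V u) (hv : Cone V v)
    (h : ∀ s, y v s ≤ p * y u s ∧ D ∣ p * y u s - y v s) :
    Cone V (p • u - v) ∧ ee y (p • u - v) + ee y v = p * ee y u := by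
  have hpu := hG.smulK p u hu
  have hyp : ∀ s, y (p • u) s = p * y u s := hG.smul p u hu
  obtain ⟨h1, h2⟩ := hG.low (p • u) (y v) hpu (fun s => by rw [hyp s]; exact h s)
  have h3 := hG.inj _ v h1 hv h2
  have h4 : p • u - v = ∑ s, (((p * y u s - y v s) / D : ℕ) : ℤ) • V s := by
    have h5 : p • u - ∑ s, (((y (p • u) s - y v s) / D : ℕ) : ℤ) • V s = v := h3
    have h6 : ∑ s, (((y (p • u) s - y v s) / D : ℕ) : ℤ) • V s =
        ∑ s, (((p * y u s - y v s) / D : ℕ) : ℤ) • V s :=
      Finset.sum_congr rfl fun s _ => by rw [hyp s]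
    rw [h6] at h5
    calc p • u - v = p • u - (p • u - ∑ s, (((p * y u s - y v s) / D : ℕ) : ℤ) • V s) := by
          rw [h5]
      _ = _ := sub_sub_cancel _ _
  obtain ⟨h7, h8, -⟩ := hG.lin (fun s => (p * y u s - y v s) / D)
  have hw : Cone V (p • u - v) := by rw [h4]; exact h7
  refine ⟨hw, ?_⟩
  have h9 := le_add hG p u v hu hv hw
  have h10 : D * ∑ s, (p * y u s - y v s) / D + ee y v = p * ee y u := by
    unfold ee
    rw [Finset.mul_sum, Finset.mul_sum, ← Finset.sum_add_distrib]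
    refine Finset.sum_congr rfl fun s _ => ?_
    rw [Nat.mul_div_cancel' (h s).2]
    have := (h s).1
    omega
  rw [← h4] at h8
  omega

theorem MX_ne {κ : Type} [Field κ] (p : ℕ) (E : ℕ → κ) (a : P → κ) (t t' : P → ℕ)
    (h : MX p D E a t t' ≠ 0) : ∀ s, t' s ≤ p * t s ∧ D ∣ p * t s - t' s := by
  intro s
  unfold MX at h
  rw [Finset.prod_ne_zero_iff] at h
  have h1 := h s (Finset.mem_univ s)
  unfold M1 at h1
  by_contra h2
  exact h1 (if_neg h2)

end REDXaux

open Classical in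
theorem REDX_thm (hW : StmtWGTX) (hL : StmtLEADX) : StmtREDX := by
  intro p _ D C _ _ ζ ρ ε Θ hΘ hρ hρ0 hρ1 k _ ι τ hτ n P _ V y hG f α hA S hS
  have hwg := hW p D C ζ ρ ε Θ hΘ hρ hρ0 hρ1 k ι τ hτ n P V y hG f hA.mem
  have hlead := hL p D C ζ ρ ε Θ hΘ hρ hρ0 hρ1 k ι τ hτ n P V y hG f α hA
  have hρn : 0 < ‖ρ‖ := norm_pos_iff.2 hρ0
  have hdiv : ∀ i w, ‖(FT p τ Θ f i).coeff w / ρ ^ ee y w‖ ≤ 1 := by
    intro i w
    rw [norm_div, norm_pow]
    exact div_le_one_of_le₀ (hwg i w).2 (pow_nonneg hρn.le _)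
  refine ⟨fun i => Matrix.of fun u v => if Cone V (p • u.1 - v.1) then
    (FT p τ Θ f i).coeff (p • u.1 - v.1) / ρ ^ ee y (p • u.1 - v.1) *
      ρ ^ (ee y (p • u.1 - v.1) + ee y v.1 - p * ee y u.1) else 0, ?_, ?_, ?_⟩
  · intro i u v
    show ‖if Cone V (p • u.1 - v.1) then
      (FT p τ Θ f i).coeff (p • u.1 - v.1) / ρ ^ ee y (p • u.1 - v.1) *
        ρ ^ (ee y (p • u.1 - v.1) + ee y v.1 - p * ee y u.1) else 0‖ ≤ 1
    split_ifs with hc
    · rw [norm_mul, norm_pow]
      exact mul_le_one₀ (hdiv i _) (pow_nonneg hρn.le _) (pow_le_one₀ hρn.le hρ1.le)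
    · simp
  · intro i u v
    show (FT p τ Θ f i).coeff (p • u.1 - v.1) * ρ ^ ee y v.1 = ρ ^ (p * ee y u.1) *
      (if Cone V (p • u.1 - v.1) then
      (FT p τ Θ f i).coeff (p • u.1 - v.1) / ρ ^ ee y (p • u.1 - v.1) *
        ρ ^ (ee y (p • u.1 - v.1) + ee y v.1 - p * ee y u.1) else 0)
    split_ifs with hc
    · have h1 := REDXaux.le_add hG p u.1 v.1 (hS _ u.2) (hS _ v.2) hc
      have h2 : ρ ^ (p * ee y u.1) * ρ ^ (ee y (p • u.1 - v.1) + ee y v.1 - p * ee y u.1) =
          ρ ^ ee y (p • u.1 - v.1) * ρ ^ ee y v.1 := by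
        rw [← pow_add, ← pow_add]
        congr 1
        omega
      have h3 : ρ ^ ee y (p • u.1 - v.1) ≠ 0 := pow_ne_zero _ hρ0
      calc (FT p τ Θ f i).coeff (p • u.1 - v.1) * ρ ^ ee y v.1
          = (FT p τ Θ f i).coeff (p • u.1 - v.1) / ρ ^ ee y (p • u.1 - v.1) *
            (ρ ^ ee y (p • u.1 - v.1) * ρ ^ ee y v.1) := by field_simp
        _ = _ := by rw [← h2]; ring
    · rw [(hwg i _).1 hc]
      simp
  · intro i u v
    show rd (if Cone V (p • u.1 - v.1) then
      (FT p τ Θ f i).coeff (p • u.1 - v.1) / ρ ^ ee y (p • u.1 - v.1) *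
        ρ ^ (ee y (p • u.1 - v.1) + ee y v.1 - p * ee y u.1) else 0) = _
    split_ifs with hc
    · have h1 := REDXaux.le_add hG p u.1 v.1 (hS _ u.2) (hS _ v.2) hc
      rcases Nat.eq_or_lt_of_le h1 with h2 | h2
      · have h3 : ee y (p • u.1 - v.1) + ee y v.1 - p * ee y u.1 = 0 := by omega
        rw [h3, pow_zero, mul_one, hlead i _ hc]
        have h4 : ∀ s, p * y u.1 s = y (p • u.1 - v.1) s + y v.1 s := by
          have h5 := hG.eq (p • u.1 - v.1) v.1 hc (hS _ v.2) (by
            rw [sub_add_cancel, REDXaux.ee_smul hG p u.1 (hS _ u.2)]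
            exact h2)
          intro s
          have h6 := h5 s
          rw [sub_add_cancel, hG.smul p u.1 (hS _ u.2) s] at h6
          exact h6
        have h7 : ∀ s, p * y u.1 s - y v.1 s = y (p • u.1 - v.1) s := by
          intro s
          have := h4 s
          omega
        have h8 : ∀ s, y v.1 s ≤ p * y u.1 s := by
          intro s
          have := h4 s
          omega
        unfold MX M1
        simp only [h7, h8, true_and]
        by_cases hd : ∀ s, D ∣ y (p • u.1 - v.1) s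
        · rw [if_pos hd]
          exact Finset.prod_congr rfl fun s _ => by rw [if_pos (hd s)]
        · rw [if_neg hd]
          push Not at hd
          obtain ⟨s, hs⟩ := hd
          symm
          exact Finset.prod_eq_zero (Finset.mem_univ s) (if_neg hs)
      · have h3 : rd ((FT p τ Θ f i).coeff (p • u.1 - v.1) / ρ ^ ee y (p • u.1 - v.1) *
            ρ ^ (ee y (p • u.1 - v.1) + ee y v.1 - p * ee y u.1)) = 0 := by
          apply rd_of_lt
          rw [norm_mul, norm_pow]
          have h4 : ‖ρ‖ ^ (ee y (p • u.1 - v.1) + ee y v.1 - p * ee y u.1) < 1 :=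
            pow_lt_one₀ hρn.le hρ1 (by omega)
          calc _ ≤ 1 * ‖ρ‖ ^ (ee y (p • u.1 - v.1) + ee y v.1 - p * ee y u.1) :=
                mul_le_mul_of_nonneg_right (hdiv i _) (pow_nonneg hρn.le _)
            _ < 1 := by rw [one_mul]; exact h4
        rw [h3]
        by_contra hne
        have h5 := REDXaux.cofacial hG p u.1 v.1 (hS _ u.2) (hS _ v.2)
          (REDXaux.MX_ne p _ _ _ _ (Ne.symm hne))
        omega
    · rw [rd_zero]
      by_contra hne
      exact hc (REDXaux.cofacial hG p u.1 v.1 (hS _ u.2) (hS _ v.2)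
          (REDXaux.MX_ne p _ _ _ _ (Ne.symm hne))).1

end ASX
end

section
/-!
# MP_b685ef_ag, theorem ASX, module RELX
-/
set_option linter.all false

namespace ASX

open Finset ASur AST

theorem RELX_thm : StmtRELX := by
  intro n D P _ V y hD H c hc hc0 hrel t
  have hDz : (0 : ℤ) < D := by exact_mod_cast hD
  constructor
  · rintro ⟨u, hu, hyu⟩
    have hrep : (D : ℤ) • u = ∑ s, (t s : ℤ) • V s := by
      rw [H.rep u hu]
      exact Finset.sum_congr rfl fun s _ => by rw [hyu s]
    refine ⟨⟨u, hrep⟩, ?_⟩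
    rcases hc0 with h0 | hcpos
    · exact Or.inl h0
    · refine Or.inr ?_
      by_contra hcon
      push_neg at hcon
      set M : ℕ := ∑ s, (c s).natAbs + 1 with hM
      have hMc : ∀ s, c s ≤ M := by
        intro s
        have h1 : (c s).natAbs ≤ ∑ s, (c s).natAbs :=
          Finset.single_le_sum (f := fun s => (c s).natAbs) (fun _ _ => Nat.zero_le _)
            (Finset.mem_univ s)
        have h2 : c s ≤ ((c s).natAbs : ℤ) := Int.le_natAbs
        have h3 : ((c s).natAbs : ℤ) ≤ ((∑ s, (c s).natAbs : ℕ) : ℤ) := by exact_mod_cast h1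
        have h4 : (M : ℤ) = ((∑ s, (c s).natAbs : ℕ) : ℤ) + 1 := by rw [hM]; push_cast; rfl
        linarith
      have hz : ∀ s, 0 ≤ (M : ℤ) * t s - c s := by
        intro s
        rcases le_or_gt (c s) 0 with h1 | h1
        · have h2 : (0 : ℤ) ≤ (M : ℤ) * t s := by positivity
          linarith
        · have h2 : t s ≠ 0 := hcon s h1
          have h3 : (1 : ℤ) ≤ t s := by
            have : 1 ≤ t s := Nat.one_le_iff_ne_zero.2 h2
            exact_mod_cast this
          have h4 : (0 : ℤ) ≤ M := by positivity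
          nlinarith [hMc s]
      have hzz : ∀ s, ((((M : ℤ) * t s - c s).toNat : ℕ) : ℤ) = (M : ℤ) * t s - c s :=
        fun s => Int.toNat_of_nonneg (hz s)
      have hMpos : 1 ≤ M := by omega
      have h5 := H.le u hu (M * D) (fun s => ((M : ℤ) * t s - c s).toNat)
        (Nat.mul_pos hMpos hD) (by
          have : (((M * D : ℕ) : ℤ)) • u = (M : ℤ) • ((D : ℤ) • u) := by
            rw [smul_smul]; push_cast; rfl
          rw [this, hrep, Finset.smul_sum]
          have h6 : ∑ s, ((((M : ℤ) * t s - c s).toNat : ℕ) : ℤ) • V s =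
              ∑ s, (M : ℤ) • ((t s : ℤ) • V s) - ∑ s, c s • V s := by
            rw [← Finset.sum_sub_distrib]
            refine Finset.sum_congr rfl fun s _ => ?_
            rw [hzz s, sub_smul, smul_smul]
          rw [h6, hc, sub_zero])
      have h7 : ee y u = ∑ s, t s := Finset.sum_congr rfl fun s _ => hyu s
      rw [h7] at h5
      have h8 : (((M * D * ∑ s, t s : ℕ)) : ℤ) ≤
          ((D * ∑ s, ((M : ℤ) * t s - c s).toNat : ℕ) : ℤ) := by exact_mod_cast h5
      push_cast at h8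
      have h9 : ∑ s, ((((M : ℤ) * t s - c s).toNat : ℕ) : ℤ) =
          (M : ℤ) * ∑ s, (t s : ℤ) - ∑ s, c s := by
        rw [Finset.mul_sum, ← Finset.sum_sub_distrib]
        exact Finset.sum_congr rfl fun s _ => hzz s
      rw [h9] at h8
      have h10 : (M : ℤ) * D * ∑ s, (t s : ℤ) - D * ∑ s, c s =
        D * ((M : ℤ) * ∑ s, (t s : ℤ) - ∑ s, c s) := by ring
      have h11 : 0 < (D : ℤ) * ∑ s, c s := mul_pos hDz hcpos
      linarith
  · rintro ⟨⟨u, hu⟩, ht⟩
    have hK : Cone V u := ⟨D, t, hD, hu⟩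
    refine ⟨u, hK, ?_⟩
    obtain ⟨M, a, hM, hMa⟩ := hrel (fun s => (t s : ℤ) - y u s) (by
      have : ∑ s, ((t s : ℤ) - y u s) • V s = ∑ s, (t s : ℤ) • V s - ∑ s, (y u s : ℤ) • V s := by
        rw [← Finset.sum_sub_distrib]
        exact Finset.sum_congr rfl fun s _ => sub_smul _ _ _
      rw [this, ← hu, ← H.rep u hK, sub_self])
    have hle := H.le u hK D t hD hu
    have hle' : ee y u ≤ ∑ s, t s := Nat.le_of_mul_le_mul_left hle (by omega)
    have hsum : M * (∑ s, (t s : ℤ) - ∑ s, (y u s : ℤ)) = a * ∑ s, c s := by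
      rw [← Finset.sum_sub_distrib, Finset.mul_sum, Finset.mul_sum]
      exact Finset.sum_congr rfl fun s _ => hMa s
    have hnn : 0 ≤ ∑ s, (t s : ℤ) - ∑ s, (y u s : ℤ) := by
      have : ((ee y u : ℕ) : ℤ) ≤ ((∑ s, t s : ℕ) : ℤ) := by exact_mod_cast hle'
      unfold ee at this
      push_cast at this
      linarith
    have ha : a = 0 ∨ c = 0 := by
      rcases ht with h0 | ⟨s, hs, hts⟩
      · exact Or.inr h0
      · rcases hc0 with h0 | hcpos
        · exact Or.inr h0
        · left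
          by_contra hne
          have ha0 : 0 ≤ a := by
            by_contra hneg
            push_neg at hneg
            have h1 : a * ∑ s, c s < 0 := mul_neg_of_neg_of_pos hneg hcpos
            have h2 : 0 ≤ M * (∑ s, (t s : ℤ) - ∑ s, (y u s : ℤ)) := mul_nonneg hM.le hnn
            linarith
          have ha1 : 0 < a := lt_of_le_of_ne ha0 (Ne.symm hne)
          have h3 := hMa s
          have h4 : 0 < a * c s := mul_pos ha1 hs
          rw [← h3] at h4
          have h5 : 0 < (t s : ℤ) - y u s := by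
            by_contra h6
            push_neg at h6
            have := mul_nonpos_of_nonneg_of_nonpos hM.le h6
            linarith
          rw [hts] at h5
          have h6 : (0 : ℤ) ≤ y u s := by positivity
          push_cast at h5
          linarith
    intro s
    have h1 := hMa s
    have h2 : a * c s = 0 := by
      rcases ha with h | h
      · rw [h, zero_mul]
      · rw [h]; simp
    rw [h2] at h1
    have h3 : (t s : ℤ) - y u s = 0 := by
      rcases mul_eq_zero.1 h1 with h | h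
      · omega
      · exact h
    omega

end ASX
end

section
/-!
# MP_b685ef_ag, theorem ASX: module SECX
-/
set_option linter.all false

namespace ASX

open Finset ASur AST

namespace SECXaux

variable {n D : ℕ} {P : Type} [Fintype P] {V : P → Fin n → ℤ} {y : (Fin n → ℤ) → P → ℕ}

theorem ee_split (u : Fin n → ℤ) (D : ℕ) :
    ee y u = ∑ t, y u t % D + D * ∑ t, y u t / D := by
  unfold ee
  rw [Finset.mul_sum, ← Finset.sum_add_distrib]
  exact Finset.sum_congr rfl fun t _ => (Nat.mod_add_div _ _).symm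

theorem RX_mod {k : Type} [Field k] (p D h : ℕ) (α : P → k) (t r : P → ℕ)
    (hr : ∀ s, t s % D = r s) (hD : 1 ≤ D) : RX p D h α t = RX p D h α r := by
  unfold RX
  refine Finset.prod_congr rfl fun s _ => ?_
  have : r s % D = t s % D := by rw [← hr s, Nat.mod_mod]
  rw [this]

theorem lX_eq {k : Type} [Field k] (p D h : ℕ) (α : P → k) (t r : P → ℕ)
    (hr : ∀ s, t s % D = r s) (hD : 1 ≤ D) :
    lX p D h α t = RX p D h α r * (-1) ^ (h * ∑ s, t s / D) := by
  unfold lX
  rw [RX_mod p D h α t r hr hD, Finset.prod_pow_eq_pow_sum, ← pow_mul]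

open Classical in
theorem key (hG : Geo D V y) (m : ℕ) (S : Finset (Fin n → ℤ)) (hS : IsLev V y m S) (i j : ℕ)
    (r : P → ℕ) (hr : ∀ t, r t < D) (hm : ∑ t, r t + D * j = m) :
    Set.ncard {s : P → ℕ | ∑ t, s t + i = j ∧ ∃ u, Cone V u ∧ ∀ t, y u t = r t + D * s t} =
      (S.filter (fun u => (∀ t, y u t % D = r t) ∧ ∑ t, y u t / D + i = j)).card := by
  have hD := hG.pos
  rw [← Set.ncard_coe_finset]
  have h1 : {s : P → ℕ | ∑ t, s t + i = j ∧ ∃ u, Cone V u ∧ ∀ t, y u t = r t + D * s t} =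
      (fun u t => y u t / D) '' (↑(S.filter (fun u => (∀ t, y u t % D = r t) ∧
        ∑ t, y u t / D + i = j)) : Set (Fin n → ℤ)) := by
    ext s
    simp only [Set.mem_setOf_eq, Set.mem_image, Finset.coe_filter]
    constructor
    · rintro ⟨h1, u, hu, h2⟩
      have hs : ∀ t, y u t / D = s t := by
        intro t
        rw [h2 t, Nat.add_mul_div_left _ _ hD, Nat.div_eq_of_lt (hr t), zero_add]
      have hrr : ∀ t, y u t % D = r t := by
        intro t
        rw [h2 t, Nat.add_mul_mod_self_left, Nat.mod_eq_of_lt (hr t)]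
      have hsum : ∑ t, y u t / D = ∑ t, s t := Finset.sum_congr rfl fun t _ => hs t
      refine ⟨u, ⟨(hS u).2 ⟨hu, ?_⟩, hrr, ?_⟩, funext hs⟩
      · have h3 : ∑ t, y u t % D = ∑ t, r t := Finset.sum_congr rfl fun t _ => hrr t
        have h4 : D * ∑ t, s t ≤ D * j := Nat.mul_le_mul_left _ (by omega)
        rw [ee_split u D, hsum, h3]
        omega
      · rw [hsum]
        exact h1
    · rintro ⟨u, ⟨hu, h1, h2⟩, rfl⟩
      refine ⟨h2, u, ((hS u).1 hu).1, fun t => ?_⟩
      rw [← h1 t]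
      exact (Nat.mod_add_div _ _).symm
  rw [h1]
  refine Set.ncard_image_of_injOn ?_
  intro u hu v hv huv
  rw [Finset.coe_filter] at hu hv
  obtain ⟨hu1, hu2, -⟩ := hu
  obtain ⟨hv1, hv2, -⟩ := hv
  refine hG.inj u v ((hS u).1 hu1).1 ((hS v).1 hv1).1 fun s => ?_
  have h3 : y u s / D = y v s / D := congrFun huv s
  rw [← Nat.mod_add_div (y u s) D, ← Nat.mod_add_div (y v s) D, hu2 s, hv2 s, h3]

end SECXaux

open SECXaux

open Classical in
theorem SECX_thm (hL : StmtLEVX) : StmtSECX := by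
  intro n D P _ V y hG k _ p h α m v
  have hD := hG.pos
  obtain ⟨S, hS⟩ := hL n D P V y hG m
  unfold NX hj
  -- the left side
  have hleft : ∀ i, Set.ncard {u : Fin n → ℤ | Cone V u ∧ ee y u + D * i = m ∧
      lX p D h α (y u) * (-1) ^ (h * i) = v} =
      (S.filter (fun u => ee y u + D * i = m ∧ lX p D h α (y u) * (-1) ^ (h * i) = v)).card := by
    intro i
    rw [← Set.ncard_coe_finset]
    congr 1
    ext u
    simp only [Set.mem_setOf_eq, Finset.coe_filter]
    constructor
    · rintro ⟨h1, h2, h3⟩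
      exact ⟨(hS u).2 ⟨h1, by omega⟩, h2, h3⟩
    · rintro ⟨h1, h2, h3⟩
      exact ⟨((hS u).1 h1).1, h2, h3⟩
  have hmain : ∀ i, (S.filter (fun u => ee y u + D * i = m ∧
      lX p D h α (y u) * (-1) ^ (h * i) = v)).card =
      ∑ r ∈ Fintype.piFinset (fun _ : P => range D), ∑ j ∈ range (m + 1),
        if (∑ t, r t + D * j = m ∧ RX p D h α r * (-1) ^ (h * j) = v) then
          Set.ncard {s : P → ℕ | ∑ t, s t + i = j ∧
            ∃ u, Cone V u ∧ ∀ t, y u t = r t + D * s t} else 0 := by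
    intro i
    rw [Finset.card_eq_sum_card_fiberwise (f := fun u => ((fun t => y u t % D : P → ℕ),
      ∑ t, y u t / D + i)) (t := Fintype.piFinset (fun _ : P => range D) ×ˢ range (m + 1)),
      Finset.sum_product]
    · refine Finset.sum_congr rfl fun r hr => Finset.sum_congr rfl fun j hj => ?_
      have hr' : ∀ t, r t < D := fun t => Finset.mem_range.1 (Fintype.mem_piFinset.1 hr t)
      split_ifs with hc
      · rw [key hG m S hS i j r hr' hc.1, Finset.filter_filter]
        congr 1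
        refine Finset.filter_congr fun u hu => ?_
        rw [Prod.mk.injEq, funext_iff]
        constructor
        · rintro ⟨-, h1, h2⟩
          exact ⟨h1, h2⟩
        · rintro ⟨h1, h2⟩
          refine ⟨⟨?_, ?_⟩, h1, h2⟩
          · rw [ee_split u D, Finset.sum_congr rfl fun t _ => h1 t, ← hc.1, ← h2]
            ring
          · rw [lX_eq p D h α _ r h1 hD, mul_assoc, ← pow_add, ← mul_add, h2]
            exact hc.2
      · rw [Finset.card_eq_zero, Finset.filter_filter, Finset.filter_eq_empty_iff]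
        rintro u hu ⟨⟨h1, h2⟩, h3⟩
        rw [Prod.mk.injEq, funext_iff] at h3
        obtain ⟨h3, h4⟩ := h3
        apply hc
        constructor
        · rw [← h1, ee_split u D, Finset.sum_congr rfl fun t _ => h3 t, ← h4]
          ring
        · rw [← h2, lX_eq p D h α _ r h3 hD, mul_assoc, ← pow_add, ← mul_add, h4]
    · intro u hu
      rw [Finset.coe_filter] at hu
      obtain ⟨hu1, hu2, -⟩ := hu
      rw [Finset.coe_product]
      refine ⟨?_, ?_⟩
      · show _ ∈ (↑(Fintype.piFinset (fun _ : P => range D)) : Set (P → ℕ))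
        rw [Finset.mem_coe, Fintype.mem_piFinset]
        intro t
        exact Finset.mem_range.2 (Nat.mod_lt _ hD)
      · show _ ∈ (↑(range (m + 1)) : Set ℕ)
        rw [Finset.mem_coe, Finset.mem_range]
        show ∑ t, y u t / D + i < m + 1
        have h5 := ee_split (y := y) u D
        have h6 : ∑ t, y u t / D + i ≤ D * (∑ t, y u t / D + i) := Nat.le_mul_of_pos_left _ hD
        rw [mul_add] at h6
        omega
  calc _ = ∑ i ∈ range (n + 1), (-1) ^ i * (n.choose i : ℤ) *
        ∑ r ∈ Fintype.piFinset (fun _ : P => range D), ∑ j ∈ range (m + 1),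
          if (∑ t, r t + D * j = m ∧ RX p D h α r * (-1) ^ (h * j) = v) then
            (Set.ncard {s : P → ℕ | ∑ t, s t + i = j ∧
              ∃ u, Cone V u ∧ ∀ t, y u t = r t + D * s t} : ℤ) else 0 := by
        refine Finset.sum_congr rfl fun i _ => ?_
        rw [hleft i, hmain i]
        push_cast
        rfl
    _ = _ := by
        simp only [Finset.mul_sum]
        rw [Finset.sum_comm]
        refine Finset.sum_congr rfl fun r _ => ?_
        rw [Finset.sum_comm]
        refine Finset.sum_congr rfl fun j _ => ?_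
        split_ifs with hc
        · rfl
        · simp

end ASX
end

section
/-!
# MP_b685ef_ag, theorem ASX: module SUBX
-/
set_option linter.all false

namespace ASX

open Finset ASur AST

namespace SUBXaux

theorem y_zero {n D : ℕ} {P : Type} [Fintype P] {V : P → Fin n → ℤ} {y : (Fin n → ℤ) → P → ℕ}
    (hG : Geo D V y) : ee y 0 = 0 := by
  unfold ee
  apply Finset.sum_eq_zero
  intro s _
  have h := hG.smul 0 0 hG.zero s
  rw [zero_smul, Nat.zero_mul] at h
  exact h

theorem ee_smul {n D : ℕ} {P : Type} [Fintype P] {V : P → Fin n → ℤ} {y : (Fin n → ℤ) → P → ℕ}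
    (hG : Geo D V y) (m : ℕ) (u : Fin n → ℤ) (hu : Cone V u) : ee y (m • u) = m * ee y u := by
  unfold ee
  rw [Finset.mul_sum]
  exact Finset.sum_congr rfl fun s _ => hG.smul m u hu s

end SUBXaux

open SUBXaux in
theorem subx_thm : StmtSUBX := by
  classical
  intro n D P _ V y hG σ T l x
  induction T using Finset.induction_on with
  | empty =>
    intro _
    rw [Finset.sum_empty, Finset.sum_empty]
    exact ⟨hG.zero, (y_zero hG).le⟩
  | insert a T ha ih =>
    intro hx
    obtain ⟨h1, h2⟩ := ih fun i hi => hx i (Finset.mem_insert_of_mem hi)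
    have h3 := hx a (Finset.mem_insert_self a T)
    rw [Finset.sum_insert ha, Finset.sum_insert ha]
    have h4 : (l a : ℤ) • x a = l a • x a := natCast_zsmul _ _
    rw [h4]
    have h5 := hG.smulK (l a) (x a) h3
    refine ⟨hG.add _ _ h5 h1, (hG.sub _ _ h5 h1).trans ?_⟩
    rw [ee_smul hG _ _ h3]
    exact Nat.add_le_add_left h2 _

end ASX
end

section
/-!
# MP_b685ef_ag, theorem ASX: module TLUX

The tensor product of the one variable factorizations, on the level sets of the cone.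
-/
set_option linter.all false

namespace ASX

open Finset ASur AST

namespace TLUXaux

variable {n D : ℕ} {P : Type} [Fintype P] {V : P → Fin n → ℤ} {y : (Fin n → ℤ) → P → ℕ}

theorem le_of {u : Fin n → ℤ} {m : ℕ} (h : ee y u ≤ m) (s : P) : y u s ≤ m := by
  refine le_trans ?_ h
  unfold ee
  exact Finset.single_le_sum (f := fun s => y u s) (fun i _ => Nat.zero_le _) (Finset.mem_univ s)

theorem lt_of (hG : Geo D V y) {u v : Fin n → ℤ} (hu : Cone V u) (hv : Cone V v)
    (huv : ∀ s, y u s ≤ y v s) : u = v ∨ ee y u < ee y v := by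
  by_cases hall : ∀ s, y u s = y v s
  · left
    exact hG.inj u v hu hv hall
  · right
    push Not at hall
    obtain ⟨j, hj⟩ := hall
    unfold ee
    exact Finset.sum_lt_sum (fun i _ => huv i) ⟨j, Finset.mem_univ j, lt_of_le_of_ne (huv j) hj⟩

end TLUXaux

open TLUXaux

theorem tlux_thm (h1 : AST.StmtONEV) : StmtTLUX := by
  classical
  intro κ _ p _ _ J0 E hE D hDp n P _ V y hG a ha m N S hS hmN hJ
  choose L U hM hL hU hU1 hL1 using fun s => h1 κ p J0 E hE D hDp (a s) (ha s) m hJ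
  have hSK : ∀ u : S, Cone V u.1 := fun u => ((hS u.1).1 u.2).1
  refine ⟨fun u w => ∏ s, L s (y u.1 s) (y w.1 s),
    fun w v => ∏ s, U s (y w.1 s) (y v.1 s), ?_, ?_, ?_, ?_, ?_⟩
  · intro u v hu hv
    have hMM : MX p D E a (y u.1) (y v.1) = ∑ w ∈ Fintype.piFinset (fun _ : P => range (m + 1)),
        ∏ s, L s (y u.1 s) (w s) * U s (w s) (y v.1 s) := by
      rw [← Finset.prod_univ_sum (fun _ : P => range (m + 1))
        (fun s w => L s (y u.1 s) w * U s w (y v.1 s))]
      unfold MX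
      apply Finset.prod_congr rfl
      intro s _
      exact hM s _ _ (le_of hu s) (le_of hv s)
    rw [hMM]
    symm
    refine Finset.sum_of_injOn (fun w : S => fun s => y w.1 s) ?_ ?_ ?_ ?_
    · intro w hw w' hw' hww
      apply Subtype.ext
      exact hG.inj _ _ (hSK w) (hSK w') fun s => congrFun hww s
    · intro w hw
      simp only [Finset.coe_filter, Finset.mem_univ, true_and, Set.mem_setOf_eq] at hw
      simp only [Finset.mem_coe, Fintype.mem_piFinset, Finset.mem_range]
      intro s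
      exact Nat.lt_succ_of_le (le_of hw s)
    · intro w hw hnot
      by_contra hne
      apply hnot
      have hne' := (Finset.prod_ne_zero_iff.1 hne)
      have hLs : ∀ s, w s ≤ y u.1 s ∧ D ∣ y u.1 s - w s := fun s =>
        hL s _ _ (left_ne_zero_of_mul (hne' s (Finset.mem_univ s)))
      obtain ⟨hK, hy⟩ := hG.low u.1 w (hSK u) hLs
      have hle : ee y (u.1 - ∑ s, (((y u.1 s - w s) / D : ℕ) : ℤ) • V s) ≤ ee y u.1 := by
        unfold ee
        apply Finset.sum_le_sum
        intro s _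
        rw [hy]
        exact (hLs s).1
      refine ⟨⟨_, (hS _).2 ⟨hK, le_trans hle (le_trans hu hmN)⟩⟩, ?_, ?_⟩
      · simp only [Finset.coe_filter, Finset.mem_univ, true_and, Set.mem_setOf_eq]
        exact le_trans hle hu
      · funext s
        exact hy s
    · intro w _
      simp only
      rw [← Finset.prod_mul_distrib]
  · intro u w hne
    have hne' := (Finset.prod_ne_zero_iff.1 hne)
    exact Or.imp_left Subtype.ext (lt_of hG (hSK w) (hSK u)
      fun s => (hL s _ _ (hne' s (Finset.mem_univ s))).1)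
  · intro w v hne
    have hne' := (Finset.prod_ne_zero_iff.1 hne)
    exact Or.imp_left Subtype.ext (lt_of hG (hSK w) (hSK v)
      fun s => (hU s _ _ (hne' s (Finset.mem_univ s))).1)
  · intro u
    exact Finset.prod_eq_one fun s _ => hU1 s _
  · intro u hu
    rw [← Finset.prod_mul_distrib]
    apply Finset.prod_congr rfl
    intro s _
    exact hL1 s _ (le_of hu s)

end ASX
end

section
/-!
# MP_b685ef_ag, theorem ASX, module TRFX: the trace formula on the torus
-/
set_option linter.all false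

namespace ASX

open Finset ASur AST

private theorem trfx_period {p : ℕ} [Fact p.Prime] {C : Type} [NormedField C]
    [IsUltrametricDist C] (Θ : Polynomial C) {k : Type} [Field k] [Fintype k] [Algebra (ZMod p) k]
    (τ : k →*₀ C) {n : ℕ} (f : (Fin n → ℤ) →₀ k) (i : ℕ) :
    FT p τ Θ f (i + Module.finrank (ZMod p) k) = FT p τ Θ f i := by
  unfold FT
  refine Finset.prod_congr rfl fun m _ => ?_
  have hc : Fintype.card k = p ^ Module.finrank (ZMod p) k := by
    have := Module.card_eq_pow_finrank (K := ZMod p) (V := k)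
    rwa [ZMod.card] at this
  have h : τ (f m) ^ p ^ (i + Module.finrank (ZMod p) k) = τ (f m) ^ p ^ i := by
    rw [add_comm i, pow_add, pow_mul, ← hc, ← map_pow, FiniteField.pow_card]
  rw [h]

theorem TRFX_thm (hTEXT : ASur.StmtTEXT) (hCHST : AST.StmtCHST) (hSUMX : StmtSUMX)
    (hPATHX : StmtPATHX) (hPER : ASur.StmtPER) : StmtTRFX := by
  intro p _ C _ _ _ _ hp ψ ε Θ hε hΘ k _ _ _ ι τ hτ n D P _ V y hG f L S hS hF E _ _ _ _
  have hp1 : 1 ≤ p := (Fact.out : p.Prime).one_lt.le
  obtain ⟨ιE, τE, hτE, hext⟩ := hTEXT p C hp k ι τ hτ E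
  have hT : IsScalarTower (ZMod p) k E := by
    refine IsScalarTower.of_algebraMap_eq' ?_
    exact Subsingleton.elim _ _
  have hcardk : Fintype.card k = p ^ Module.finrank (ZMod p) k := by
    have := Module.card_eq_pow_finrank (K := ZMod p) (V := k)
    rwa [ZMod.card] at this
  have hn : Module.finrank (ZMod p) E = Module.finrank (ZMod p) k * Module.finrank k E :=
    (Module.finrank_mul_finrank (ZMod p) k E).symm
  have hcardE : Fintype.card E = p ^ (Module.finrank (ZMod p) k * Module.finrank k E) := by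
    have := Module.card_eq_pow_finrank (K := ZMod p) (V := E)
    rw [ZMod.card, hn] at this
    exact this
  have hQ : (Fintype.card E : C) = (Fintype.card k : C) ^ Module.finrank k E := by
    rw [hcardE, pow_mul, ← hcardk]
    push_cast
    rfl
  have hchs := hCHST p C hp ψ ε Θ hε hΘ k τ E ιE τE hτE hext n f
  rw [hn] at hchs
  obtain ⟨hdeg, htr⟩ := hPATHX p hp1 C n D P V y hG L S hS (FT p τ Θ f) hF
    (Module.finrank (ZMod p) k * Module.finrank k E)
  have hsum := hSUMX C E ιE τE hτE n D P V y hG L S hS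
    (GT p (FT p τ Θ f) (Module.finrank (ZMod p) k * Module.finrank k E))
    (by rw [hcardE]; exact hdeg)
  rw [hcardE, ← htr, hPER S C (fun i => AT p S (FT p τ Θ f i)) (Module.finrank (ZMod p) k) (by
      intro i
      simp only [trfx_period]) (Module.finrank k E)] at hsum
  have hQ' : ((p ^ (Module.finrank (ZMod p) k * Module.finrank k E) : ℕ) : C) =
      (Fintype.card k : C) ^ Module.finrank k E := by rw [← hcardE, hQ]
  rw [hQ'] at hsum
  rw [← hsum]
  exact hchs

end ASX
end

section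
/-!
# MP_b685ef_ag, theorem ASX: module TWOX
-/
set_option linter.all false

namespace ASX

open Finset ASur AST

namespace TWOXaux
variable {C : Type} [NormedField C] [IsUltrametricDist C]

theorem e4_map_charpolyRev {R S ι : Type} [CommRing R] [CommRing S] [Fintype ι]
    [DecidableEq ι] (f : R →+* S) (M : Matrix ι ι R) :
    (M.charpolyRev).map f = (M.map f).charpolyRev := by
  rw [Matrix.charpolyRev, Matrix.charpolyRev, ← Polynomial.coe_mapRingHom, RingHom.map_det]
  congr 1
  ext i j : 2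
  by_cases h : i = j
  · subst h
    simp
  · simp [Matrix.one_apply_ne h]

theorem e4_lift {ι : Type} (M : Matrix ι ι C) (h : ∀ u v, ‖M u v‖ ≤ 1) :
    ∃ M' : Matrix ι ι (OO C), M'.map (OO C).subtype = M :=
  ⟨Matrix.of fun u v => ⟨M u v, mem_OO.2 (h u v)⟩, by ext u v; rfl⟩

theorem e4_coeff_rev {ι : Type} [Fintype ι] [DecidableEq ι] (M : Matrix ι ι C)
    (h : ∀ u v, ‖M u v‖ ≤ 1) (n : ℕ) : ‖(M.charpolyRev).coeff n‖ ≤ 1 := by
  obtain ⟨M', rfl⟩ := e4_lift M h
  rw [← e4_map_charpolyRev, Polynomial.coeff_map]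
  exact norm_coe_le _

theorem e4_trace {ι : Type} [Fintype ι] [DecidableEq ι] (M : Matrix ι ι C)
    (h : ∀ u v, ‖M u v‖ ≤ 1) (n : ℕ) : ‖Matrix.trace (M ^ n)‖ ≤ 1 := by
  obtain ⟨M', rfl⟩ := e4_lift M h
  have h1 : (M'.map (OO C).subtype) ^ n = (M' ^ n).map (OO C).subtype := by
    have := map_pow (RingHom.mapMatrix (OO C).subtype) M' n
    exact this.symm
  rw [h1]
  have h2 : Matrix.trace ((M' ^ n).map (OO C).subtype) = ((Matrix.trace (M' ^ n) : OO C) : C) := by
    simp [Matrix.trace, Matrix.diag]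
  rw [h2]
  exact norm_coe_le _

theorem e4_pmat_norm {ι : Type} [Fintype ι]
    [DecidableEq ι] (A : ℕ → Matrix ι ι C) (hA : ∀ i u v, ‖A i u v‖ ≤ 1) (n : ℕ) :
    ∀ u v, ‖Pmat A n u v‖ ≤ 1 := by
  induction n with
  | zero =>
    intro u v
    simp only [Pmat, Matrix.one_apply]
    split_ifs <;> simp
  | succ n ih =>
    intro u v
    simp only [Pmat, Matrix.mul_apply]
    refine norm_sum_le_one _ fun w _ => ?_
    rw [norm_mul]
    exact mul_le_one₀ (hA _ _ _) (norm_nonneg _) (ih _ _)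

theorem e4_psi_norm {p : ℕ} [Fact p.Prime]
    (ψ : AddChar (ZMod p) C) (x : ZMod p) : ‖ψ x‖ = 1 := by
  have h1 : (ψ x) ^ p = 1 := by
    rw [← AddChar.map_nsmul_eq_pow]
    have : p • x = 0 := by simp
    rw [this, AddChar.map_zero_eq_one]
  have h2 : ‖ψ x‖ ^ p = 1 := by rw [← norm_pow, h1, norm_one]
  exact (pow_eq_one_iff_of_nonneg (norm_nonneg _) (Fact.out : p.Prime).ne_zero).1 h2

theorem e4_ST_norm {p : ℕ} [Fact p.Prime] (ψ : AddChar (ZMod p) C) {n : ℕ} {k : Type}
    [Field k] (f : (Fin n → ℤ) →₀ k) (E : Type) [Field E] [Fintype E] [Algebra (ZMod p) E]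
    [Algebra k E] : ‖ST ψ f E‖ ≤ 1 := by
  unfold AST.ST sumT
  exact norm_sum_le_one _ fun x _ => (e4_psi_norm ψ _).le

end TWOXaux

open TWOXaux in
theorem twox_thm (hTHETA2 : StmtTHETA2) (hTRFX : StmtTRFX) (hDEGX : StmtDEGX)
    (hLEVX : StmtLEVX) (hWGTX : StmtWGTX) (hEDGEX : StmtEDGEX) (hOEX : StmtOEX)
    (hNEWT : StmtNEWT) : StmtTWOX := by
  intro p hpF D hD C _ _ _ _ hpC j hj k _ _ _ ι n P _ V y hG f α hadm ψ hψ β hβ ρ hρ m m0 S hS
  have hp2 : 2 ≤ p := hpF.out.two_le
  have hDpos : 0 < D := hG.pos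
  obtain ⟨h, hh⟩ : ∃ h, h = Module.finrank (ZMod p) k := ⟨_, rfl⟩
  have hh1 : 1 ≤ h := hh ▸ Module.finrank_pos
  have hprim := prim_of_char ψ hψ
  obtain ⟨hz0, hz1, hz2, -⟩ := zeta_thm p C hpC (ψ 1) hprim
  have hρ0 : ρ ≠ 0 := by
    rintro rfl
    rw [zero_pow hDpos.ne'] at hρ
    exact hz0 hρ.symm
  have hρ1 : ‖ρ‖ < 1 := by
    by_contra hc
    have : 1 ≤ ‖ρ‖ ^ D := one_le_pow₀ (not_lt.1 hc)
    rw [← norm_pow, hρ] at this
    linarith
  have hρpos : 0 < ‖ρ‖ := norm_pos_iff.2 hρ0
  obtain ⟨q, hqdef⟩ : ∃ q : C, q = (Fintype.card k : C) := ⟨_, rfl⟩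
  have hcard : Fintype.card k = p ^ h := by
    rw [Module.card_eq_pow_finrank (K := ZMod p), ZMod.card, hh]
  have hqp : q = (p : C) ^ h := by rw [hqdef, hcard]; push_cast; rfl
  have hq1 : ‖q‖ ≤ 1 := by
    rw [hqp, norm_pow]
    exact pow_le_one₀ (norm_nonneg _) hpC.le
  obtain ⟨τ, hτ⟩ := TEX_thm TUN_thm p C hpC k ι
  obtain ⟨w, hw⟩ : ∃ w : C, w = ρ ^ ((p - 1) * m * h) := ⟨_, rfl⟩
  have hw0 : w ≠ 0 := hw ▸ pow_ne_zero _ hρ0
  have hwpos : 0 < ‖w‖ := norm_pos_iff.2 hw0
  have hfac : (m0.factorial : C) ≠ 0 := by exact_mod_cast Nat.factorial_ne_zero m0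
  have hfacpos : 0 < ‖(m0.factorial : C)‖ := norm_pos_iff.2 hfac
  obtain ⟨ε, hε⟩ : ∃ ε : ℝ, ε = ‖w‖ ^ m0 * ‖(m0.factorial : C)‖ / 2 := ⟨_, rfl⟩
  have hεpos : 0 < ε := by rw [hε]; positivity
  have hεi : ∀ i, i ≤ m0 → ε / ‖(i.factorial : C)‖ < ‖w‖ ^ m0 := by
    intro i hi
    have hi0 : (i.factorial : C) ≠ 0 := by exact_mod_cast Nat.factorial_ne_zero i
    have hipos : 0 < ‖(i.factorial : C)‖ := norm_pos_iff.2 hi0
    have hle : ‖(m0.factorial : C)‖ ≤ ‖(i.factorial : C)‖ := by
      obtain ⟨t, ht⟩ := Nat.factorial_dvd_factorial hi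
      rw [ht]
      push_cast
      rw [norm_mul]
      exact mul_le_of_le_one_right (norm_nonneg _) (norm_natCast_le t)
    rw [div_lt_iff₀ hipos, hε]
    have hwm : 0 < ‖w‖ ^ m0 := by positivity
    nlinarith [mul_le_mul_of_nonneg_left hle hwm.le, mul_pos hwm hipos]
  obtain ⟨Θ, hΘ, hAH⟩ := hTHETA2 p C hpC j hj (ψ 1) hprim ε hεpos (p * (m + 2) + 1)
  obtain ⟨L0, hL0⟩ := hDEGX p hp2 C k (τ : k → C) Θ n D P V y hG f
    (fun u hu => (hadm.mem u hu).1)
  obtain ⟨L, hL⟩ : ∃ L, L = max L0 m := ⟨_, rfl⟩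
  have hLL0 : L0 ≤ L := hL ▸ le_max_left _ _
  have hLm : m ≤ L := hL ▸ le_max_right _ _
  obtain ⟨S', hS'⟩ := hLEVX n D P V y hG L
  obtain ⟨B, hB⟩ : ∃ B, B = Pmat (fun i => AT p S' (FT p (τ : k → C) Θ f i)) h := ⟨_, rfl⟩
  -- the edges of det(1 - XB)
  have hTf : ∀ m', m' ≤ m → Edge (B.charpolyRev : PowerSeries C) (ρ ^ ((p - 1) * m' * h))
      (S'.filter (fun u => ee y u < m')).card
      (∏ u ∈ S'.filter (fun u => ee y u = m'), (1 - Polynomial.C (ι (lX p D h α (y u))) *
        Polynomial.X)) m0 := by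
    intro m' hm'
    have := hEDGEX p D hD C hpC (ψ 1) ρ ε Θ (p * (m + 2) + 1) hΘ hAH hρ hρ0 hρ1 k ι τ hτ
      n P V y hG f α hadm m' L S' hS' (by omega)
      (by
        have : p * (m' + 2) ≤ p * (m + 2) := Nat.mul_le_mul_left _ (by omega)
        omega) m0
    rw [← hh] at this
    rw [hB]
    exact this
  -- integrality
  have hAint : ∀ i u v, ‖AT p S' (FT p (τ : k → C) Θ f i) u v‖ ≤ 1 := by
    intro i u v
    refine ((hWGTX p D C (ψ 1) ρ ε Θ hΘ hρ hρ0 hρ1 k ι τ hτ n P V y hG f hadm.mem i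
      _).2).trans ?_
    exact pow_le_one₀ (norm_nonneg _) hρ1.le
  have hBint : ∀ u v, ‖B u v‖ ≤ 1 := hB ▸ e4_pmat_norm _ hAint h
  have hTf0 : PowerSeries.constantCoeff (B.charpolyRev : PowerSeries C) = 1 := by
    rw [← PowerSeries.coeff_zero_eq_constantCoeff_apply, Polynomial.coeff_coe,
      Polynomial.coeff_zero_eq_eval_zero, Matrix.eval_charpolyRev]
  have hTf1 : ∀ i, ‖PowerSeries.coeff i (B.charpolyRev : PowerSeries C)‖ ≤ 1 := by
    intro i
    rw [Polynomial.coeff_coe]
    exact e4_coeff_rev B hBint i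
  -- the edges of the products
  obtain ⟨hO, hE⟩ := hOEX p D h n hh1 C hpC (ψ 1) ρ hprim hρ hρ0 hρ1 (Fin n → ℤ) S'
    (fun u => ee y u) (fun u => ι (lX p D h α (y u))) (B.charpolyRev : PowerSeries C) m m0
    hTf0 hTf1 hTf
  -- comparison of the level sets
  have hmem : ∀ u, ee y u ≤ m → (u ∈ S' ↔ u ∈ S) := by
    intro u hu
    rw [hS' u, hS u]
    constructor
    · rintro ⟨h1, h2⟩
      exact ⟨h1, hu⟩
    · rintro ⟨h1, h2⟩
      exact ⟨h1, by omega⟩
  have hlt : ∀ z : ℕ, S'.filter (fun u => ee y u + D * z < m) =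
      S.filter (fun u => ee y u + D * z < m) := by
    intro z
    ext u
    simp only [Finset.mem_filter]
    constructor
    · rintro ⟨h1, h2⟩
      exact ⟨(hmem u (by omega)).1 h1, h2⟩
    · rintro ⟨h1, h2⟩
      exact ⟨(hmem u (by omega)).2 h1, h2⟩
  have heq : ∀ z : ℕ, S'.filter (fun u => ee y u + D * z = m) =
      S.filter (fun u => ee y u + D * z = m) := by
    intro z
    ext u
    simp only [Finset.mem_filter]
    constructor
    · rintro ⟨h1, h2⟩
      exact ⟨(hmem u (by omega)).1 h1, h2⟩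
    · rintro ⟨h1, h2⟩
      exact ⟨(hmem u (by omega)).2 h1, h2⟩
  simp only [hlt, heq] at hO hE
  rw [← hqp] at hO hE
  -- power sums of β
  have hsign : ((-1 : C) ^ n) * ((-1 : C) ^ n) = 1 := by
    rw [← pow_add, ← two_mul, pow_mul]; simp
  have hsn : ‖((-1 : C) ^ n)‖ = 1 := by simp
  have hβs : ∀ i, 1 ≤ i → ‖(β.map fun x => x ^ i).sum‖ ≤ 1 ∧
      ‖(β.map fun x => x ^ i).sum - (1 - q ^ i) ^ n * Matrix.trace (B ^ i)‖ ≤ ε := by
    intro i hi
    obtain ⟨E, _, _, _, _, hE⟩ := ext_thm p k i hi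
    have h1 := hβ E
    rw [hE] at h1
    have h2 : (β.map fun x => x ^ i).sum = (-1) ^ n * ST ψ f E := by
      rw [← h1, ← mul_assoc, hsign, one_mul]
    constructor
    · rw [h2, norm_mul, hsn, one_mul]
      exact e4_ST_norm ψ f E
    · have h3 := hTRFX p C hpC ψ ε Θ hεpos hΘ k ι τ hτ n D P V y hG f L S' hS'
        (fun i' => hL0 L hLL0 i') E
      rw [hE, ← hh, ← hB, ← hqdef] at h3
      have h4 : (β.map fun x => x ^ i).sum - (1 - q ^ i) ^ n * Matrix.trace (B ^ i) =
          (-1) ^ n * (ST ψ f E - (q ^ i - 1) ^ n * Matrix.trace (B ^ i)) := by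
        rw [h2, mul_sub, ← mul_assoc ((-1 : C) ^ n), ← mul_pow]
        congr 3
        ring
      rw [h4, norm_mul, hsn, one_mul]
      exact h3
  have hNRβ : NR (fun i => (β.map fun x => x ^ i).sum) (revP β : PowerSeries C) :=
    (nrb_thm C).1 β
  have hNRf : NR (fun i => Matrix.trace (B ^ i)) (B.charpolyRev : PowerSeries C) :=
    (nrb_thm C).2 _ B
  have hcl := hNEWT C n q _ _ (revP β : PowerSeries C) (B.charpolyRev : PowerSeries C) ε hεpos.le
    hq1 hNRβ hNRf hTf1 (fun i hi => (hβs i hi).1) (fun i _ => e4_trace B hBint i)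
    (fun i hi => (hβs i hi).2)
  refine ⟨Odd' n q (B.charpolyRev : PowerSeries C), Even' n q (B.charpolyRev : PowerSeries C),
    ?_, ?_, ?_⟩
  · rw [← hh]
    exact hO
  · rw [← hh]
    exact hE
  · intro i hi
    rw [← hh, ← hw]
    exact (hcl i).trans_lt (hεi i hi)

end ASX
end

section
/-!
# MP_b685ef_ag, theorem ASX: module WGTX, the weight bound for the coefficients of `F_i` (helper20)
-/
set_option linter.all false

namespace ASX

open Finset ASur AST

theorem wgtx_thm (hE : StmtEXPX) (hS : StmtSUBX) : StmtWGTX := by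
  classical
  intro p hp D C _ _ ζ ρ ε Θ hΘ hlam hρ hρ1 k _ ι τ hτ n P _ V y hgeo f hf i w
  have hsub : ∀ l : f.support → ℕ, ∑ u : f.support, (l u : ℤ) • u.1 = w →
      Cone V w ∧ ee y w ≤ D * ∑ u : f.support, l u := by
    intro l hl
    obtain ⟨h1, h2⟩ := hS n D P V y hgeo f.support univ l (fun u => u.1)
      (fun u _ => (hf u.1 u.2).1)
    rw [hl] at h1 h2
    refine ⟨h1, h2.trans ?_⟩
    rw [Finset.mul_sum]
    refine Finset.sum_le_sum fun u _ => ?_
    rw [mul_comm]
    exact Nat.mul_le_mul_right _ (hf u.1 u.2).2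
  rw [hE p C k τ Θ n f i w]
  constructor
  · intro hw
    refine Finset.sum_eq_zero fun l _ => ?_
    exact if_neg fun h => hw (hsub l h).1
  · refine IsUltrametricDist.norm_sum_le_of_forall_le_of_nonneg (by positivity) fun l _ => ?_
    by_cases hl : ∑ u : f.support, (l u : ℤ) • u.1 = w
    · rw [if_pos hl, norm_prod]
      have h1 : ∀ u ∈ (univ : Finset f.support),
          ‖Θ.coeff (l u) * (τ (f u.1) ^ (p ^ i)) ^ (l u)‖ ≤ (‖ρ‖ ^ D) ^ (l u) := by
        intro u _
        rw [norm_mul, norm_pow, norm_pow]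
        have h2 : ‖Θ.coeff (l u)‖ ≤ (‖ρ‖ ^ D) ^ (l u) := by
          have := hΘ.bound (l u)
          rwa [← hlam, norm_pow] at this
        have h3 : (‖τ (f u.1)‖ ^ (p ^ i)) ^ (l u) ≤ 1 :=
          pow_le_one₀ (by positivity) (pow_le_one₀ (norm_nonneg _) (hτ.norm_le _))
        calc ‖Θ.coeff (l u)‖ * (‖τ (f u.1)‖ ^ (p ^ i)) ^ (l u)
            ≤ (‖ρ‖ ^ D) ^ (l u) * 1 :=
              mul_le_mul h2 h3 (by positivity) (by positivity)
          _ = _ := mul_one _
      refine (Finset.prod_le_prod (fun u _ => norm_nonneg _) h1).trans ?_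
      rw [Finset.prod_pow_eq_pow_sum, ← pow_mul]
      exact pow_le_pow_of_le_one (norm_nonneg _) hρ1.le (hsub l hl).2
    · rw [if_neg hl, norm_zero]
      positivity

end ASX
end

section
/-!
# MP_b685ef_ag, theorem ASX: assembly of the modules
-/
set_option linter.all false

namespace ASX

open ASur AST

universe u v

theorem main_TRFX : StmtTRFX :=
  TRFX_thm (TEXT_thm KAC_thm TUN_thm (TEX_thm TUN_thm)) (chst_thm ttr_thm) sumx_thm pathx_thm
    PER_thm

theorem main_LEADX : StmtLEADX := LEADX_thm EXPX_thm subx_thm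

theorem main_WGTX : StmtWGTX := wgtx_thm EXPX_thm subx_thm

theorem main_EDGEX : StmtEDGEX :=
  edgex_thm (REDX_thm main_WGTX main_LEADX) (tlux_thm (onev_thm pm_thm)) edgelu_thm

theorem main_OEX : StmtOEX := OEX_thm escal_thm eprod_thm plam_thm zeta_thm

theorem main_TWOX : StmtTWOX :=
  twox_thm (THETA2_thm topg_thm) main_TRFX (degx_thm EXPX_thm subx_thm) LEVX_thm main_WGTX
    main_EDGEX main_OEX newt_thm

theorem main_CLSX : StmtCLSX :=
  clsx_thm (CNTX_thm main_TWOX (MSX_thm emult_thm eprod_thm ECL_thm)) LEVX_thm zeta_thm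

theorem main_FINX : StmtFINX.{u, v} :=
  finx_thm main_CLSX K2C_thm linalg_thm ext_thm (TEMB_thm KAC_thm) (TEX_thm TUN_thm)

theorem main_EVNX : StmtEVNX := EVNX_thm (SECX_thm LEVX_thm) RELX_thm HNX_thm

theorem main_EVCX : StmtEVCX := EVCX_thm (SECX_thm LEVX_thm) RELX_thm HCX_thm

end ASX
end
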