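import Pool.Agent.Lib.MP_b685ef_ag.AST.Spec

/-!
# MP_b685ef_ag, theorem ASX (every simplicial Newton polytope): definitions

Paper: /team-store/b685_ASX_paper.txt .  The namespaces `ASur` (folder `AS`) and `AST` (folder
`AST`) are reused: `rd`, `KK`, `IsSplit`, `IsTeich`, `Pmat`, `NR`, `revP`, `Edge`; `ST`, `sumT`,
`FT`, `GT`, `AT`, `evC`, `IsAH`, `EE`, `M1`, `Odd'`, `Even'`.
The rays (nonzero vertices) are indexed by a finite type `P`; a point `u` of the cone has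
coordinates `y u : P → ℕ` with `D u = ∑_s y_s(u) V_s` (minimal representation), and
`e(u) = ∑_s y_s(u)`.
-/

set_option linter.all false

namespace ASX

open Finset ASur AST

/-! ## Geometry -/

/-- `u` is a lattice point of the cone spanned by the `V_s`. -/
def Cone {n : ℕ} {P : Type} [Fintype P] (V : P → Fin n → ℤ) (u : Fin n → ℤ) : Prop :=
  ∃ (N : ℕ) (z : P → ℕ), 1 ≤ N ∧ (N : ℤ) • u = ∑ s, (z s : ℤ) • V s

/-- `e(u) = ∑_s y_s(u)`. -/
def ee {n : ℕ} {P : Type} [Fintype P] (y : (Fin n → ℤ) → P → ℕ) (u : Fin n → ℤ) : ℕ :=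
  ∑ s, y u s

/-- `y(u)/D` is the unique minimal representation of `u` by the `V_s`, for all `u` in the cone:
`D u = ∑ y_s(u) V_s`, and `N u = ∑ z_s V_s` implies `N e(u) ≤ D |z|`, with equality only if
`N y(u) = D z`; and `e(V_s) = D`.  (This means: all faces of `conv(0, V)` not containing `0` are
simplices, the `V_s` are vertices, and `D` is a multiple of the denominators.) -/
structure Simpl {n : ℕ} {P : Type} [Fintype P] (D : ℕ) (V : P → Fin n → ℤ)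
    (y : (Fin n → ℤ) → P → ℕ) : Prop where
  rep : ∀ u, Cone V u → (D : ℤ) • u = ∑ s, (y u s : ℤ) • V s
  le : ∀ u, Cone V u → ∀ (N : ℕ) (z : P → ℕ), 1 ≤ N → (N : ℤ) • u = ∑ s, (z s : ℤ) • V s →
    N * ee y u ≤ D * ∑ s, z s
  eq : ∀ u, Cone V u → ∀ (N : ℕ) (z : P → ℕ), 1 ≤ N → (N : ℤ) • u = ∑ s, (z s : ℤ) • V s →
    N * ee y u = D * ∑ s, z s → ∀ s, N * y u s = D * z s
  vert : ∀ s, ee y (V s) = D

/-- The consequences (G3)-(G8) which are used. -/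
structure Geo {n : ℕ} {P : Type} [Fintype P] (D : ℕ) (V : P → Fin n → ℤ)
    (y : (Fin n → ℤ) → P → ℕ) : Prop where
  pos : 1 ≤ D
  zero : Cone V 0
  add : ∀ u v, Cone V u → Cone V v → Cone V (u + v)
  sat : ∀ (m : ℕ) u, 1 ≤ m → Cone V (m • u) → Cone V u
  smulK : ∀ (m : ℕ) u, Cone V u → Cone V (m • u)
  smul : ∀ (m : ℕ) u, Cone V u → ∀ s, y (m • u) s = m * y u s
  rep : ∀ u, Cone V u → (D : ℤ) • u = ∑ s, (y u s : ℤ) • V s
  inj : ∀ u v, Cone V u → Cone V v → (∀ s, y u s = y v s) → u = v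
  sub : ∀ u v, Cone V u → Cone V v → ee y (u + v) ≤ ee y u + ee y v
  eq : ∀ u v, Cone V u → Cone V v → ee y (u + v) = ee y u + ee y v →
    ∀ s, y (u + v) s = y u s + y v s
  vertK : ∀ s, Cone V (V s)
  vert : ∀ s, y (V s) s = D ∧ ∀ t, t ≠ s → y (V s) t = 0
  lin : ∀ l : P → ℕ, Cone V (∑ s, (l s : ℤ) • V s) ∧
    ee y (∑ s, (l s : ℤ) • V s) ≤ D * ∑ s, l s ∧
    (ee y (∑ s, (l s : ℤ) • V s) = D * ∑ s, l s →
      ∀ s, y (∑ t, (l t : ℤ) • V t) s = D * l s)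
  low : ∀ u (w : P → ℕ), Cone V u → (∀ s, w s ≤ y u s ∧ D ∣ y u s - w s) →
    Cone V (u - ∑ s, (((y u s - w s) / D : ℕ) : ℤ) • V s) ∧
    ∀ s, y (u - ∑ t, (((y u t - w t) / D : ℕ) : ℤ) • V t) s = w s

/-- `S` is the level set `{u in the cone : e(u) ≤ L}`. -/
def IsLev {n : ℕ} {P : Type} [Fintype P] (V : P → Fin n → ℤ) (y : (Fin n → ℤ) → P → ℕ) (L : ℕ)
    (S : Finset (Fin n → ℤ)) : Prop :=
  ∀ u, u ∈ S ↔ Cone V u ∧ ee y u ≤ L

/-- The support of `F` lies in `{u in the cone : e(u) ≤ B}`. -/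
def InK {n : ℕ} {P : Type} [Fintype P] {C : Type} [Semiring C] (V : P → Fin n → ℤ)
    (y : (Fin n → ℤ) → P → ℕ) (B : ℕ) (F : AddMonoidAlgebra C (Fin n → ℤ)) : Prop :=
  ∀ u, F.coeff u ≠ 0 → Cone V u ∧ ee y u ≤ B

/-- The Laurent polynomial `f`: all exponents `u` are in the cone with `e(u) ≤ D`, and `e(u) = D`
only for the `V_s`; `f(V_s) = α_s ≠ 0`. -/
structure Adm {n : ℕ} {P : Type} [Fintype P] {k : Type} [Field k] (D : ℕ) (V : P → Fin n → ℤ)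
    (y : (Fin n → ℤ) → P → ℕ) (f : (Fin n → ℤ) →₀ k) (α : P → k) : Prop where
  mem : ∀ u ∈ f.support, Cone V u ∧ ee y u ≤ D
  eq : ∀ u ∈ f.support, ee y u = D → ∃ s, u = V s
  lead : ∀ s, f (V s) = α s
  ne : ∀ s, α s ≠ 0

/-! ## Matrices modulo the maximal ideal -/

/-- `∏_s M^{a_s}(t_s, t'_s)`. -/
noncomputable def MX {P κ : Type} [Fintype P] [Field κ] (p D : ℕ) (E : ℕ → κ) (a : P → κ)
    (t t' : P → ℕ) : κ :=
  ∏ s, M1 p D E (a s) (t s) (t' s)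

/-! ## Residues -/

/-- `R(t) = ∏_s ((c r_s)!)^{-h} (α_s^{(q-1)/D})^{r_s}`, `r_s = t_s mod D`, `c = (p-1)/D`,
`q = p^h`. -/
noncomputable def RX {P k : Type} [Fintype P] [Field k] (p D h : ℕ) (α : P → k) (t : P → ℕ) : k :=
  ∏ s, ((((p - 1) / D * (t s % D)).factorial : k)⁻¹) ^ h *
    (α s ^ ((p ^ h - 1) / D)) ^ (t s % D)

/-- `l(t) = R(t) (-1)^{h ∑_s [t_s/D]}`. -/
noncomputable def lX {P k : Type} [Fintype P] [Field k] (p D h : ℕ) (α : P → k) (t : P → ℕ) : k :=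
  RX p D h α t * ∏ s, ((-1) ^ h) ^ (t s / D)

/-- The number `∑_i (-1)^i binom(n,i) #{u in the cone : e(u) + D i = m, l(u) (-1)^{hi} = v}`. -/
noncomputable def NX {n : ℕ} {P k : Type} [Fintype P] [Field k] (D h : ℕ) (V : P → Fin n → ℤ)
    (y : (Fin n → ℤ) → P → ℕ) (l : (P → ℕ) → k) (m : ℕ) (v : k) : ℤ :=
  ∑ i ∈ range (n + 1), (-1) ^ i * (n.choose i : ℤ) *
    (Set.ncard {u : Fin n → ℤ | Cone V u ∧ ee y u + D * i = m ∧ l (y u) * (-1) ^ (h * i) = v} : ℤ)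

end ASX
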