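import Pool.Agent.Lib.MP_b685ef_ag.ASX.Defs

/-!
# MP_b685ef_ag, theorem ASX: statements of all modules

Paper: /team-store/b685_ASX_paper.txt .  Module NAME proves `StmtNAME` in
`Pool/Agent/Lib/MP_b685ef_ag/ASX/NAME.lean` (import `...ASX.Spec`, `namespace ASX`), as
`theorem name_thm (dependencies as hypotheses) : StmtNAME` (auxiliary lemmas in a namespace of
their own, `namespace NAMEaux`).  Dependencies `ASur.StmtXXX`, `AST.StmtXXX` are proved in the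
folders `AS`, `AST`; take them as hypotheses.  Many modules are adaptations of the module of the
folder `AST` named in the docstring: open it and copy.
-/

set_option linter.all false

namespace ASX

open Finset ASur AST

universe u v

/-! ## Part A: geometry -/

/-- **GEOX.** `zero`: `z = 0`, `N = 1`. `add`: common multiple `N N'`. `sat`: `N (m u) = (N m) u`.
`smul` (`m ≥ 1`): `D (m u) = ∑ m y_s(u) V_s`, so by `le`/`eq` for `m u` (with `N = D`,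
`z = m y(u)`): `D e(mu) ≤ D m e(u)`; and for `u` (with `N = D m`, `z = y(mu)`):
`D m e(u) ≤ D e(mu)`; equality, so `y(mu) = m y(u)` by `eq`. `m = 0`: `le` for `u = 0`, `z = 0`.
`inj`: `rep`, `D ≥ 1`. `sub`, `eq`: `le`, `eq` for `u+v`, `N = D`, `z = y(u) + y(v)`.
`vert`: `u = V_s`, `N = 1`, `z = δ_s`, `e(V_s) = D`. `lin`: `N = 1`, `z = l`.
`low`: `u' = u - ∑ ((y-w)/D) V`, `D u' = ∑ w_s V_s`, so `u'` is in the cone and `e(u') ≤ |w|`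
(`N = D`, `z = w`); `D u = ∑ (y_s(u') + y_s(u) - w_s) V_s` gives `e(u) ≤ e(u') + e(u) - |w|`; so
`e(u') = |w|` and `y(u') = w` by `eq`. -/
def StmtGEOX : Prop := ∀ (n D : ℕ) (P : Type) [Fintype P] (V : P → Fin n → ℤ)
  (y : (Fin n → ℤ) → P → ℕ), 1 ≤ D → Simpl D V y → Geo D V y

/-- **LEVX.** `u ↦ y u` is injective on the cone (`inj`), with values in `{t : t_s ≤ L}`. -/
def StmtLEVX : Prop := ∀ (n D : ℕ) (P : Type) [Fintype P] (V : P → Fin n → ℤ)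
  (y : (Fin n → ℤ) → P → ℕ), Geo D V y → ∀ L : ℕ, ∃ S : Finset (Fin n → ℤ), IsLev V y L S

/-- **SUBX.** `e(∑ l_i u_i) ≤ ∑ l_i e(u_i)`, by induction with `sub`, `smul`. -/
def StmtSUBX : Prop := ∀ (n D : ℕ) (P : Type) [Fintype P] (V : P → Fin n → ℤ)
  (y : (Fin n → ℤ) → P → ℕ), Geo D V y → ∀ (σ : Type) (T : Finset σ) (l : σ → ℕ)
  (x : σ → Fin n → ℤ), (∀ i ∈ T, Cone V (x i)) →
  Cone V (∑ i ∈ T, (l i : ℤ) • x i) ∧ ee y (∑ i ∈ T, (l i : ℤ) • x i) ≤ ∑ i ∈ T, l i * ee y (x i)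

/-! ## Part B: LU -/

/-- **TLUX** (from `AST.StmtONEV`): adapt `AST/TLU.lean`. Expand
`∏_s ∑_{w_s ≤ m} L(y_s(u), w_s) U(w_s, y_s(v))` over `w : P → [0, m]`; a nonzero term has
`w ≤ y(u)`, `D ∣ y(u) - w`, so `w = y(u')` with `u'` in the cone (`Geo.low`), unique (`Geo.inj`),
`e(u') = |w| ≤ e(u) ≤ m`, so `u' ∈ S`. `L u w ≠ 0` gives `y(w) ≤ y(u)`, so `w = u` or
`e(w) < e(u)`. -/
def StmtTLUX : Prop := ∀ (κ : Type) [Field κ] (p : ℕ) [Fact p.Prime] [CharP κ p] (J0 : ℕ)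
  (E : ℕ → κ), IsAH p J0 E → ∀ (D : ℕ), D ∣ p - 1 → ∀ (n : ℕ) (P : Type) [Fintype P]
  (V : P → Fin n → ℤ) (y : (Fin n → ℤ) → P → ℕ), Geo D V y →
  ∀ (a : P → κ), (∀ s, a s ≠ 0) → ∀ (m N : ℕ) (S : Finset (Fin n → ℤ)), IsLev V y N S →
  m ≤ N → p * (m + 2) < J0 →
  ∃ L U : S → S → κ,
    (∀ u v : S, ee y u.1 ≤ m → ee y v.1 ≤ m → MX p D E a (y u.1) (y v.1) =
      ∑ w ∈ univ.filter (fun w : S => ee y w.1 ≤ m), L u w * U w v) ∧
    (∀ u w : S, L u w ≠ 0 → w = u ∨ ee y w.1 < ee y u.1) ∧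
    (∀ w v : S, U w v ≠ 0 → w = v ∨ ee y w.1 < ee y v.1) ∧
    (∀ u : S, U u u = 1) ∧
    (∀ u : S, ee y u.1 ≤ m → L u u *
        ∏ s, (((p - 1) / D * (y u.1 s % D)).factorial : κ) =
      ∏ s, (a s ^ ((p - 1) / D * (y u.1 s % D) + (p - 1) * (y u.1 s / D)) *
        (-1) ^ (y u.1 s / D)))

/-! ## Part C: the trace formula on the torus -/

/-- **PATHX**: adapt `AST/PATHT.lean`. `(Pmat (AT F) m)_{u,v} = coeff_{p^m u - v} G_m`; a nonzero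
term of `∑_{u'} coeff_{pu-u'}(F_m) coeff_{p^m u'-v}(G_m)` has `p^m u' - v` in the cone with
`e ≤ (p^m-1) L`, so `p^m u' = (p^m u' - v) + v` is in the cone, `u'` is in the cone (`sat`) and
`p^m e(u') = e(p^m u') ≤ (p^m - 1) L + L`, so `u' ∈ S`. Support of `G_m`: `Geo.smul`,
`Geo.sub`. -/
def StmtPATHX : Prop := ∀ (p : ℕ), 1 ≤ p → ∀ (C : Type) [Field C] (n D : ℕ) (P : Type)
  [Fintype P] (V : P → Fin n → ℤ) (y : (Fin n → ℤ) → P → ℕ), Geo D V y →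
  ∀ (L : ℕ) (S : Finset (Fin n → ℤ)), IsLev V y L S →
  ∀ (F : ℕ → AddMonoidAlgebra C (Fin n → ℤ)), (∀ i, InK V y ((p - 1) * L) (F i)) →
  ∀ m : ℕ, InK V y ((p ^ m - 1) * L) (GT p F m) ∧
    Matrix.trace (Pmat (fun i => AT p S (F i)) m) =
      ∑ u ∈ S, (GT p F m).coeff ((p ^ m - 1) • u)

/-- **SUMX**: adapt `AST/SUMT.lean`. If `coeff_u G ≠ 0` and `u = (Q-1) u'`, then `u'` is in the
cone (`sat`), `(Q-1) e(u') ≤ (Q-1) L`, so `u' ∈ S`. -/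
def StmtSUMX : Prop := ∀ (C : Type) [NormedField C] [IsUltrametricDist C]
  (E : Type) [Field E] [Fintype E] (ι : E →+* KK C) (τ : E →*₀ C), IsTeich ι τ →
  ∀ (n D : ℕ) (P : Type) [Fintype P] (V : P → Fin n → ℤ) (y : (Fin n → ℤ) → P → ℕ),
  Geo D V y → ∀ (L : ℕ) (S : Finset (Fin n → ℤ)), IsLev V y L S →
  ∀ (G : AddMonoidAlgebra C (Fin n → ℤ)), InK V y ((Fintype.card E - 1) * L) G →
  sumT (fun x : Fin n → Eˣ => evC τ x G) =
    ((Fintype.card E : C) - 1) ^ n * ∑ u ∈ S, G.coeff ((Fintype.card E - 1) • u)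

/-- **TRFX** (from `ASur.StmtTEXT`, `AST.StmtCHST`, SUMX, PATHX, `ASur.StmtPER`): adapt
`AST/TRFT.lean`. -/
def StmtTRFX : Prop := ∀ (p : ℕ) [Fact p.Prime] (C : Type) [NormedField C]
  [IsUltrametricDist C] [CharZero C] [IsAlgClosed C], ‖(p : C)‖ < 1 →
  ∀ (ψ : AddChar (ZMod p) C) (ε : ℝ) (Θ : Polynomial C), 0 < ε → IsSplit p (ψ 1) ε Θ →
  ∀ (k : Type) [Field k] [Fintype k] [Algebra (ZMod p) k] (ι : k →+* KK C) (τ : k →*₀ C),
  IsTeich ι τ → ∀ (n D : ℕ) (P : Type) [Fintype P] (V : P → Fin n → ℤ)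
    (y : (Fin n → ℤ) → P → ℕ), Geo D V y → ∀ (f : (Fin n → ℤ) →₀ k) (L : ℕ)
    (S : Finset (Fin n → ℤ)), IsLev V y L S →
  (∀ i, InK V y ((p - 1) * L) (FT p τ Θ f i)) →
  ∀ (E : Type) [Field E] [Fintype E] [Algebra (ZMod p) E] [Algebra k E],
  ‖ST ψ f E - ((Fintype.card k : C) ^ Module.finrank k E - 1) ^ n *
    Matrix.trace ((Pmat (fun i => AT p S (FT p τ Θ f i)) (Module.finrank (ZMod p) k)) ^
      Module.finrank k E)‖ ≤ ε

/-! ## Part D: weights and reduction -/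

open Classical in
/-- **EXPX.** Expansion of the product `F_i = ∏_u ∑_l Θ_l c_u^l x^{lu}`
(`Polynomial.aeval_eq_sum_range`, `Finset.prod_univ_sum`, `AddMonoidAlgebra.single_pow`,
product of singles is the single of the sum). -/
def StmtEXPX : Prop := ∀ (p : ℕ) (C : Type) [Field C] (k : Type) [Field k] (τ : k → C)
  (Θ : Polynomial C) (n : ℕ) (f : (Fin n → ℤ) →₀ k) (i : ℕ) (w : Fin n → ℤ),
  (FT p τ Θ f i).coeff w =
    ∑ l ∈ Fintype.piFinset (fun _ : f.support => range (Θ.natDegree + 1)),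
      if ∑ u : f.support, (l u : ℤ) • u.1 = w then
        ∏ u : f.support, Θ.coeff (l u) * (τ (f u.1) ^ (p ^ i)) ^ (l u) else 0

/-- **DEGX** (from EXPX, SUBX): `L0 = deg Θ ∑_u e(u)`. -/
def StmtDEGX : Prop := ∀ (p : ℕ), 2 ≤ p → ∀ (C : Type) [Field C] (k : Type) [Field k]
  (τ : k → C) (Θ : Polynomial C) (n D : ℕ) (P : Type) [Fintype P] (V : P → Fin n → ℤ)
  (y : (Fin n → ℤ) → P → ℕ), Geo D V y → ∀ (f : (Fin n → ℤ) →₀ k),
  (∀ u ∈ f.support, Cone V u) →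
  ∃ L0 : ℕ, ∀ L, L0 ≤ L → ∀ i, InK V y ((p - 1) * L) (FT p τ Θ f i)

/-- **WGTX** (from EXPX, SUBX): a term of the expansion at `w = ∑ l_u u` has norm at most
`‖ρ‖^{D ∑ l_u}` (`IsSplit.bound`, `‖τ x‖ ≤ 1`), and `e(w) ≤ ∑ l_u e(u) ≤ D ∑ l_u`. -/
def StmtWGTX : Prop := ∀ (p : ℕ) [Fact p.Prime] (D : ℕ),
  ∀ (C : Type) [NormedField C] [IsUltrametricDist C] (ζ ρ : C) (ε : ℝ) (Θ : Polynomial C),
  IsSplit p ζ ε Θ → ρ ^ D = ζ - 1 → ρ ≠ 0 → ‖ρ‖ < 1 →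
  ∀ (k : Type) [Field k] (ι : k →+* KK C) (τ : k →*₀ C), IsTeich ι τ →
  ∀ (n : ℕ) (P : Type) [Fintype P] (V : P → Fin n → ℤ) (y : (Fin n → ℤ) → P → ℕ),
  Geo D V y → ∀ (f : (Fin n → ℤ) →₀ k), (∀ u ∈ f.support, Cone V u ∧ ee y u ≤ D) →
  ∀ (i : ℕ) (w : Fin n → ℤ), (¬ Cone V w → (FT p τ Θ f i).coeff w = 0) ∧
    ‖(FT p τ Θ f i).coeff w‖ ≤ ‖ρ‖ ^ ee y w

open Classical in
/-- **LEADX** (from EXPX, SUBX). Divide each term of the expansion by `ρ^{e(w)}`: it has norm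
`< 1` unless `e(w) = D ∑ l_u`, and then `l_u = 0` for `e(u) < D` (`e(w) ≤ ∑ l_u e(u)`), so
`w = ∑_s l_s V_s` (`l_s := l_{V_s}`), `e(w) = D |l|` and `y(w) = D l` (`Geo.lin`): at most one such
`l`, and it exists iff `D ∣ y_s(w)` for all `s` (then `w = ∑ (y_s(w)/D) V_s` by `rep`; if
`y_s(w)/D > deg Θ` both sides are `0`). Its term reduces to `∏ E_{l_s} (ι α_s)^{p^i l_s}`
(`λ^{l} = ρ^{D l}`, `Θ_0 = 1`). The `V_s` are distinct (`Geo.vert`). -/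
def StmtLEADX : Prop := ∀ (p : ℕ) [Fact p.Prime] (D : ℕ),
  ∀ (C : Type) [NormedField C] [IsUltrametricDist C] (ζ ρ : C) (ε : ℝ) (Θ : Polynomial C),
  IsSplit p ζ ε Θ → ρ ^ D = ζ - 1 → ρ ≠ 0 → ‖ρ‖ < 1 →
  ∀ (k : Type) [Field k] (ι : k →+* KK C) (τ : k →*₀ C), IsTeich ι τ →
  ∀ (n : ℕ) (P : Type) [Fintype P] (V : P → Fin n → ℤ) (y : (Fin n → ℤ) → P → ℕ),
  Geo D V y → ∀ (f : (Fin n → ℤ) →₀ k) (α : P → k), Adm D V y f α →
  ∀ (i : ℕ) (w : Fin n → ℤ), Cone V w →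
  rd ((FT p τ Θ f i).coeff w / ρ ^ ee y w) =
    if ∀ s, D ∣ y w s then
      ∏ s, EE ζ Θ (y w s / D) * (ι (α s) ^ (p ^ i)) ^ (y w s / D)
    else 0

/-- **REDX** (from WGTX, LEADX). `Cm i u v = 0` if `pu - v` is not in the cone, else
`(A_i(u,v)/ρ^{e(pu-v)}) ρ^{e(pu-v) + e(v) - p e(u)}`; the exponent is `≥ 0` (`sub`, `smul`).
If the reduction is `≠ 0`: `e(pu-v) + e(v) = p e(u)`, so `y(pu-v) = p y(u) - y(v)` (`eq`), and
LEADX gives `MX` (`M1` with `(ps-t)/D`). If `MX ≠ 0`: `p y(u) - y(v) = D l`, `l ≥ 0`; `low` for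
`pu` and `w = y(v)`: `pu - ∑ l_s V_s` has coordinates `y(v)`, so it is `v` (`inj`), and
`pu - v = ∑ l_s V_s` is in the cone with `e(pu-v) ≤ D |l| = p e(u) - e(v) ≤ e(pu-v)`, so
`y(pu-v) = D l` (`lin`). -/
def StmtREDX : Prop := ∀ (p : ℕ) [Fact p.Prime] (D : ℕ),
  ∀ (C : Type) [NormedField C] [IsUltrametricDist C] (ζ ρ : C) (ε : ℝ) (Θ : Polynomial C),
  IsSplit p ζ ε Θ → ρ ^ D = ζ - 1 → ρ ≠ 0 → ‖ρ‖ < 1 →
  ∀ (k : Type) [Field k] (ι : k →+* KK C) (τ : k →*₀ C), IsTeich ι τ →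
  ∀ (n : ℕ) (P : Type) [Fintype P] (V : P → Fin n → ℤ) (y : (Fin n → ℤ) → P → ℕ),
  Geo D V y → ∀ (f : (Fin n → ℤ) →₀ k) (α : P → k), Adm D V y f α →
  ∀ (S : Finset (Fin n → ℤ)), (∀ u ∈ S, Cone V u) →
  ∃ Cm : ℕ → Matrix S S C, (∀ i u v, ‖Cm i u v‖ ≤ 1) ∧
    (∀ i (u v : S), AT p S (FT p τ Θ f i) u v * ρ ^ ee y v.1 =
      ρ ^ (p * ee y u.1) * Cm i u v) ∧
    ∀ i (u v : S), rd (Cm i u v) =
      MX p D (EE ζ Θ) (fun s => ι (α s) ^ (p ^ i)) (y u.1) (y v.1)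

/-- **EDGEX** (from REDX, TLUX, `AST.StmtEDGELU`): adapt `AST/EDGET.lean`; the pivots
`∏_{i<h} L_i(u,u) = ι(l(y(u)))`. -/
def StmtEDGEX : Prop := ∀ (p : ℕ) [Fact p.Prime] (D : ℕ), D ∣ p - 1 →
  ∀ (C : Type) [NormedField C] [IsUltrametricDist C], ‖(p : C)‖ < 1 →
  ∀ (ζ ρ : C) (ε : ℝ) (Θ : Polynomial C) (J0 : ℕ),
  IsSplit p ζ ε Θ → IsAH p J0 (EE ζ Θ) → ρ ^ D = ζ - 1 → ρ ≠ 0 → ‖ρ‖ < 1 →
  ∀ (k : Type) [Field k] [Fintype k] [Algebra (ZMod p) k] (ι : k →+* KK C) (τ : k →*₀ C),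
  IsTeich ι τ →
  ∀ (n : ℕ) (P : Type) [Fintype P] (V : P → Fin n → ℤ) (y : (Fin n → ℤ) → P → ℕ),
  Geo D V y → ∀ (f : (Fin n → ℤ) →₀ k) (α : P → k), Adm D V y f α →
  ∀ (m L : ℕ) (S : Finset (Fin n → ℤ)), IsLev V y L S → m ≤ L →
  p * (m + 2) < J0 → ∀ m0 : ℕ,
  Edge ((Pmat (fun i => AT p S (FT p τ Θ f i)) (Module.finrank (ZMod p) k)).charpolyRev :
      PowerSeries C) (ρ ^ ((p - 1) * m * Module.finrank (ZMod p) k))
    (S.filter (fun u => ee y u < m)).card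
    (∏ u ∈ S.filter (fun u => ee y u = m), (1 - Polynomial.C
      (ι (lX p D (Module.finrank (ZMod p) k) α (y u))) * Polynomial.X)) m0

/-! ## Part E: edges of the products and the counts -/

/-- **OEX** (from `AST.StmtESCAL`, `AST.StmtEPROD`, `AST.StmtPLAM`, `ASur.StmtZETA`).
`T(q^i X)`, `i = |Z|`, at `w_m = ρ^{(p-1)mh}`: if `m < D i`, `‖q^i‖ = ‖ρ‖^{(p-1)Dih} < ‖w_m‖`, so
the edge is `(0, 1)` (ESCAL 1); the two filters are empty. If `m ≥ D i`: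
`w_m = q^i w_{m-Di} η`, `η = (λ^{p-1}/p)^{hi}`, `rd η = (-1)^{hi}`, ESCAL 2. Then EPROD over
the `Z` (induction over a `Finset` of `Z`). -/
def StmtOEX : Prop := ∀ (p : ℕ) [Fact p.Prime] (D h n : ℕ), 1 ≤ h →
  ∀ (C : Type) [NormedField C] [IsUltrametricDist C] [CharZero C], ‖(p : C)‖ < 1 →
  ∀ (ζ ρ : C), IsPrimitiveRoot ζ p → ρ ^ D = ζ - 1 → ρ ≠ 0 → ‖ρ‖ < 1 →
  ∀ (σ : Type) (S : Finset σ) (e : σ → ℕ) (l : σ → KK C) (T : PowerSeries C) (m m0 : ℕ),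
  PowerSeries.constantCoeff T = 1 → (∀ i, ‖PowerSeries.coeff i T‖ ≤ 1) →
  (∀ m', m' ≤ m → Edge T (ρ ^ ((p - 1) * m' * h)) (S.filter (fun u => e u < m')).card
    (∏ u ∈ S.filter (fun u => e u = m'), (1 - Polynomial.C (l u) * Polynomial.X)) m0) →
  Edge (Odd' n ((p : C) ^ h) T) (ρ ^ ((p - 1) * m * h))
    (∑ Z ∈ (univ : Finset (Finset (Fin n))).filter (fun Z => Z.card % 2 = 1),
      (S.filter (fun u => e u + D * Z.card < m)).card)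
    (∏ Z ∈ (univ : Finset (Finset (Fin n))).filter (fun Z => Z.card % 2 = 1),
      ∏ u ∈ S.filter (fun u => e u + D * Z.card = m),
        (1 - Polynomial.C (l u * (-1) ^ (h * Z.card)) * Polynomial.X)) m0 ∧
  Edge (Even' n ((p : C) ^ h) T) (ρ ^ ((p - 1) * m * h))
    (∑ Z ∈ (univ : Finset (Finset (Fin n))).filter (fun Z => Z.card % 2 = 0),
      (S.filter (fun u => e u + D * Z.card < m)).card)
    (∏ Z ∈ (univ : Finset (Finset (Fin n))).filter (fun Z => Z.card % 2 = 0),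
      ∏ u ∈ S.filter (fun u => e u + D * Z.card = m),
        (1 - Polynomial.C (l u * (-1) ^ (h * Z.card)) * Polynomial.X)) m0

/-- **TWOX** (from `AST.StmtTHETA2`, TRFX, DEGX, LEVX, EDGEX, OEX, `AST.StmtNEWT`,
`ASur.StmtTEX`, `ASur.StmtZETA`): adapt `AST/EDGE4.lean`. Choose `J0 > p (m+2)`, then `ε` small
(`ε/‖i!‖ < ‖w_m‖^{m0}` for `i ≤ m0`), `Θ`, `L ≥ m` large, `S'` the level set of `L`,
`T = det(1 - XB)`, `A = Odd'(T)`, `B = Even'(T)`. `S'.filter (e + D|Z| < m)` and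
`S.filter (...)` agree because `e < m ≤ L`. `NR` of `revP β` and of `charpolyRev`: as in
`AST/EDGE4.lean`. -/
def StmtTWOX : Prop := ∀ (p : ℕ) [Fact p.Prime] (D : ℕ), D ∣ p - 1 →
  ∀ (C : Type) [NormedField C] [IsUltrametricDist C] [CharZero C] [IsAlgClosed C],
  ‖(p : C)‖ < 1 → ∀ j : ℤ_[p] →+* C, (∀ x, ‖j x‖ ≤ 1) →
  ∀ (k : Type) [Field k] [Fintype k] [Algebra (ZMod p) k] (ι : k →+* KK C)
    (n : ℕ) (P : Type) [Fintype P] (V : P → Fin n → ℤ) (y : (Fin n → ℤ) → P → ℕ),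
  Geo D V y → ∀ (f : (Fin n → ℤ) →₀ k) (α : P → k), Adm D V y f α →
  ∀ (ψ : AddChar (ZMod p) C), ψ ≠ 1 → ∀ β : Multiset C,
  (∀ (E : Type) [Field E] [Fintype E] [Algebra (ZMod p) E] [Algebra k E],
    (-1) ^ n * (β.map fun x => x ^ Module.finrank k E).sum = ST ψ f E) →
  ∀ ρ : C, ρ ^ D = ψ 1 - 1 → ∀ (m m0 : ℕ) (S : Finset (Fin n → ℤ)), IsLev V y m S →
  ∃ A B : PowerSeries C,
    Edge A (ρ ^ ((p - 1) * m * Module.finrank (ZMod p) k))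
      (∑ Z ∈ (univ : Finset (Finset (Fin n))).filter (fun Z => Z.card % 2 = 1),
        (S.filter (fun u => ee y u + D * Z.card < m)).card)
      (∏ Z ∈ (univ : Finset (Finset (Fin n))).filter (fun Z => Z.card % 2 = 1),
        ∏ u ∈ S.filter (fun u => ee y u + D * Z.card = m), (1 - Polynomial.C
          (ι (lX p D (Module.finrank (ZMod p) k) α (y u)) *
            (-1) ^ (Module.finrank (ZMod p) k * Z.card)) * Polynomial.X)) m0 ∧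
    Edge B (ρ ^ ((p - 1) * m * Module.finrank (ZMod p) k))
      (∑ Z ∈ (univ : Finset (Finset (Fin n))).filter (fun Z => Z.card % 2 = 0),
        (S.filter (fun u => ee y u + D * Z.card < m)).card)
      (∏ Z ∈ (univ : Finset (Finset (Fin n))).filter (fun Z => Z.card % 2 = 0),
        ∏ u ∈ S.filter (fun u => ee y u + D * Z.card = m), (1 - Polynomial.C
          (ι (lX p D (Module.finrank (ZMod p) k) α (y u)) *
            (-1) ^ (Module.finrank (ZMod p) k * Z.card)) * Polynomial.X)) m0 ∧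
    ∀ i, i ≤ m0 → ‖PowerSeries.coeff i ((revP β : PowerSeries C) * A) -
      PowerSeries.coeff i B‖ < ‖ρ ^ ((p - 1) * m * Module.finrank (ZMod p) k)‖ ^ m0

open Classical in
/-- **MSX** (from `AST.StmtEMULT`, `AST.StmtEPROD`, `ASur.StmtECL`): edges and multisets. With
`A`, `B` as in TWOX for all `m0` (general finite families of nonzero residues): `M_P + M_A = M_B`
and `R_P + R_A = R_B` as multisets, where `R_P` is the multiset of the `rd(x/w)`, `‖x‖ = ‖w‖`.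
(EMULT, EPROD, ECL, uniqueness in EPROD for `m0` large; two multisets of nonzero elements with the
same `∏ (1 - xX)` are equal, see `AST/ERES.lean`.) -/
def StmtMSX : Prop := ∀ (C : Type) [NormedField C] [IsUltrametricDist C]
  (β : Multiset C) (w : C) (MA MB : ℕ) (RA RB : Multiset (KK C)), w ≠ 0 → ‖w‖ ≤ 1 →
  (∀ r ∈ RA, r ≠ 0) → (∀ r ∈ RB, r ≠ 0) →
  (∀ m0 : ℕ, ∃ A B : PowerSeries C,
    Edge A w MA ((RA.map fun r => 1 - Polynomial.C r * Polynomial.X).prod) m0 ∧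
    Edge B w MB ((RB.map fun r => 1 - Polynomial.C r * Polynomial.X).prod) m0 ∧
    ∀ i, i ≤ m0 → ‖PowerSeries.coeff i ((revP β : PowerSeries C) * A) -
      PowerSeries.coeff i B‖ < ‖w‖ ^ m0) →
  Multiset.card (β.filter fun x => ‖w‖ < ‖x‖) + MA = MB ∧
  (β.filter fun x => ‖x‖ = ‖w‖).map (fun x => rd (x / w)) + RA = RB

open Classical in
/-- **CNTX** (from TWOX, MSX, LEVX): formulas (4), (5). `RA`, `RB` are the multisets of the
`ι(l(u)) (-1)^{h|Z|}`, `|Z|` odd, even; count the elements equal to `v`; the number of `Z ⊆ [n]`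
with `|Z| = i` is `binom(n,i)`. -/
def StmtCNTX : Prop := ∀ (p : ℕ) [Fact p.Prime] (D : ℕ), D ∣ p - 1 →
  ∀ (C : Type) [NormedField C] [IsUltrametricDist C] [CharZero C] [IsAlgClosed C],
  ‖(p : C)‖ < 1 → ∀ j : ℤ_[p] →+* C, (∀ x, ‖j x‖ ≤ 1) →
  ∀ (k : Type) [Field k] [Fintype k] [Algebra (ZMod p) k] (ι : k →+* KK C)
    (n : ℕ) (P : Type) [Fintype P] (V : P → Fin n → ℤ) (y : (Fin n → ℤ) → P → ℕ),
  Geo D V y → ∀ (f : (Fin n → ℤ) →₀ k) (α : P → k), Adm D V y f α →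
  ∀ (ψ : AddChar (ZMod p) C), ψ ≠ 1 → ∀ β : Multiset C,
  (∀ (E : Type) [Field E] [Fintype E] [Algebra (ZMod p) E] [Algebra k E],
    (-1) ^ n * (β.map fun x => x ^ Module.finrank k E).sum = ST ψ f E) →
  ∀ ρ : C, ρ ^ D = ψ 1 - 1 → ∀ (m : ℕ) (S : Finset (Fin n → ℤ)), IsLev V y m S →
  (Multiset.card (β.filter fun x => ‖ρ ^ ((p - 1) * m * Module.finrank (ZMod p) k)‖ < ‖x‖) : ℤ) =
    ∑ i ∈ range (n + 1), (-1) ^ i * (n.choose i : ℤ) *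
      ((S.filter (fun u => ee y u + D * i < m)).card : ℤ) ∧
  ∀ v : KK C, (Multiset.card (β.filter fun x =>
      ‖x‖ = ‖ρ ^ ((p - 1) * m * Module.finrank (ZMod p) k)‖ ∧
        rd (x / ρ ^ ((p - 1) * m * Module.finrank (ZMod p) k)) = v) : ℤ) =
    ∑ i ∈ range (n + 1), (-1) ^ i * (n.choose i : ℤ) *
      ((S.filter (fun u => ee y u + D * i = m ∧
        ι (lX p D (Module.finrank (ZMod p) k) α (y u)) *
          (-1) ^ (Module.finrank (ZMod p) k * i) = v)).card : ℤ)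

open Classical in
/-- **CLSX** (from CNTX, LEVX, `ASur.StmtZETA`): section 5, end. `‖x - τ(v) w‖ < ‖w‖` iff
`‖x‖ = ‖w‖` and `rd(x/w) = ι v` (`v ≠ 0`). By the two formulas of CNTX,
`#{‖x‖ > ‖w_m‖} = ∑_{m' < m} #{‖x‖ = ‖w_{m'}‖}` (sum the second over `v` in the range of `ι`; for
the other `v` both sides of it are `0`); take `m` with `‖w_m‖ < ‖x‖` for all `x ∈ β`. -/
def StmtCLSX : Prop := ∀ (p : ℕ) [Fact p.Prime] (D : ℕ), D ∣ p - 1 →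
  ∀ (C : Type) [NormedField C] [IsUltrametricDist C] [CharZero C] [IsAlgClosed C],
  ‖(p : C)‖ < 1 → ∀ j : ℤ_[p] →+* C, (∀ x, ‖j x‖ ≤ 1) →
  ∀ (k : Type) [Field k] [Fintype k] [Algebra (ZMod p) k] (ι : k →+* KK C) (τ : k →*₀ C),
  IsTeich ι τ → ∀ (n : ℕ) (P : Type) [Fintype P] (V : P → Fin n → ℤ)
    (y : (Fin n → ℤ) → P → ℕ),
  Geo D V y → ∀ (f : (Fin n → ℤ) →₀ k) (α : P → k), Adm D V y f α →
  ∀ (ψ : AddChar (ZMod p) C), ψ ≠ 1 → ∀ β : Multiset C, (∀ x ∈ β, x ≠ 0) →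
  (∀ (E : Type) [Field E] [Fintype E] [Algebra (ZMod p) E] [Algebra k E],
    (-1) ^ n * (β.map fun x => x ^ Module.finrank k E).sum = ST ψ f E) →
  ∀ ρ : C, ρ ^ D = ψ 1 - 1 →
  (∀ (m : ℕ) (v : k), v ≠ 0 → (Multiset.card (β.filter fun x =>
      ‖x - τ v * ρ ^ ((p - 1) * m * Module.finrank (ZMod p) k)‖ <
        ‖ρ‖ ^ ((p - 1) * m * Module.finrank (ZMod p) k)) : ℤ) =
    NX D (Module.finrank (ZMod p) k) V y (lX p D (Module.finrank (ZMod p) k) α) m v) ∧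
  (∀ m : ℕ, NX D (Module.finrank (ZMod p) k) V y
    (lX p D (Module.finrank (ZMod p) k) α) m 0 = 0) ∧
  ∀ x ∈ β, ∃! c : ℕ × k, c.2 ≠ 0 ∧
    ‖x - τ c.2 * ρ ^ ((p - 1) * c.1 * Module.finrank (ZMod p) k)‖ <
      ‖ρ‖ ^ ((p - 1) * c.1 * Module.finrank (ZMod p) k)

open Classical in
/-- **FINX** (from CLSX, `ASur.StmtK2C`, `ASur.StmtLINALG`, `ASur.StmtEXT`, `ASur.StmtTEMB`,
`ASur.StmtTEX`): adapt `AST/FINT.lean`. `cl x` is the class of the image of `x` in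
`C = PadicAlgCl p`. If all `N ≤ 1`, the roots are distinct. -/
def StmtFINX : Prop := ∀ (p : ℕ) [Fact p.Prime] (D : ℕ), D ∣ p - 1 →
  ∀ (k : Type) [Field k] [Fintype k] [Algebra (ZMod p) k]
    (n : ℕ) (P : Type) [Fintype P] (V : P → Fin n → ℤ) (y : (Fin n → ℤ) → P → ℕ),
  Geo D V y → ∀ (f : (Fin n → ℤ) →₀ k) (α : P → k), Adm D V y f α →
  ∀ (K : Type u) [Field K] [IsAlgClosed K] [CharZero K] (ψ : AddChar (ZMod p) K), ψ ≠ 1 →
  ∀ (W : Type v) [AddCommGroup W] [Module K W] [FiniteDimensional K W] (φ : W ≃ₗ[K] W),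
  (∀ (E : Type) [Field E] [Fintype E] [Algebra (ZMod p) E] [Algebra k E],
    (-1) ^ n * LinearMap.trace K W ((φ : W →ₗ[K] W) ^ Module.finrank k E) = ST ψ f E) →
  (∃ cl : K → ℕ × k, ∀ (m : ℕ) (v : k),
    (Multiset.card ((LinearMap.charpoly (φ : W →ₗ[K] W)).roots.filter fun x => cl x = (m, v)) : ℤ) =
      NX D (Module.finrank (ZMod p) k) V y (lX p D (Module.finrank (ZMod p) k) α) m v) ∧
  ((∀ (m : ℕ) (v : k), NX D (Module.finrank (ZMod p) k) V y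
      (lX p D (Module.finrank (ZMod p) k) α) m v ≤ 1) →
    (LinearMap.charpoly (φ : W →ₗ[K] W)).Separable)

/-! ## Part F: evaluation of `N(m,v)` -/

/-- `h_j(r) = ∑_i (-1)^i binom(n,i) #{s : |s| + i = j, r + D s = y(u) for some u}`. -/
noncomputable def hj {n : ℕ} {P : Type} [Fintype P] (D : ℕ) (V : P → Fin n → ℤ)
    (y : (Fin n → ℤ) → P → ℕ) (r : P → ℕ) (j : ℕ) : ℤ :=
  ∑ i ∈ range (n + 1), (-1) ^ i * (n.choose i : ℤ) *
    (Set.ncard {s : P → ℕ | ∑ t, s t + i = j ∧ ∃ u, Cone V u ∧ ∀ t, y u t = r t + D * s t} : ℤ)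

open Classical in
/-- **SECX** (from LEVX). `y(u) = r + D s`, `r = y(u) mod D`, `s = [y(u)/D]`;
`l(r + D s) = R(r) (-1)^{h|s|}`, `e(u) = |r| + D |s|`, `j = |s| + i`. The map
`u ↦ (r, s)` is a bijection from the cone to `{(r,s) : r + Ds ∈ y(cone), r_t < D}` (`inj`). -/
def StmtSECX : Prop := ∀ (n D : ℕ) (P : Type) [Fintype P] (V : P → Fin n → ℤ)
  (y : (Fin n → ℤ) → P → ℕ), Geo D V y → ∀ (k : Type) [Field k] (p h : ℕ) (α : P → k)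
  (m : ℕ) (v : k),
  NX D h V y (lX p D h α) m v = ∑ r ∈ Fintype.piFinset (fun _ : P => range D),
    ∑ j ∈ range (m + 1), if (∑ t, r t + D * j = m ∧ RX p D h α r * (-1) ^ (h * j) = v) then
      hj D V y r j else 0

/-- **RELX.** If every integral relation between the `V_s` is proportional to `c` (or `0`, the
case `c = 0`), `∑ c_s > 0` or `c = 0`: `t` is a value of `y` on the cone iff `∑ t_s V_s ∈ D ℤ^n`
and (`c = 0` or `t_s = 0` for some `s` with `c_s > 0`).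
Proof (→): if `t_s > 0` for all `s` with `c_s > 0`, then `M t - c ≥ 0` for large `M`, it represents
`M D u` and `|M t - c| < M |t|`: against `Simpl.le`. (←): `t - y(u)` is a relation, so
`M (t - y(u)) = a c` with `M > 0`; `|y(u)| ≤ |t|` gives `a ≥ 0` (if `∑ c_s > 0`); `a > 0` would
give `t_s > 0` for all `s` with `c_s > 0`; so `t = y(u)`. -/
def StmtRELX : Prop := ∀ (n D : ℕ) (P : Type) [Fintype P] (V : P → Fin n → ℤ)
  (y : (Fin n → ℤ) → P → ℕ), 1 ≤ D → Simpl D V y → ∀ c : P → ℤ,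
  ∑ s, c s • V s = 0 → (c = 0 ∨ 0 < ∑ s, c s) →
  (∀ b : P → ℤ, ∑ s, b s • V s = 0 → ∃ M a : ℤ, 0 < M ∧ ∀ s, M * b s = a * c s) →
  ∀ t : P → ℕ, (∃ u, Cone V u ∧ ∀ s, y u s = t s) ↔
    (∃ u : Fin n → ℤ, (D : ℤ) • u = ∑ s, (t s : ℤ) • V s) ∧ (c = 0 ∨ ∃ s, 0 < c s ∧ t s = 0)

open Classical in
/-- **HNX** (from RELX; `c = 0`, `|P| = n`): `#{s ∈ ℕ^n : |s| = j} = binom(j+n-1, n-1)`, i.e. the
coefficients of `(1-X)^{-n}`; `(1-X)^n (1-X)^{-n} = 1` (`PowerSeries.invOneSubPow`), or by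
induction over `n`. `r + D s` is in `y(cone)` iff `r` is. -/
def StmtHNX : Prop := ∀ (n D : ℕ) (P : Type) [Fintype P] (V : P → Fin n → ℤ)
  (y : (Fin n → ℤ) → P → ℕ), 1 ≤ D → Fintype.card P = n →
  (∀ t : P → ℕ, (∃ u, Cone V u ∧ ∀ s, y u s = t s) ↔
    ∃ u : Fin n → ℤ, (D : ℤ) • u = ∑ s, (t s : ℤ) • V s) →
  ∀ (r : P → ℕ) (j : ℕ), (hj D V y r j = if j = 0 ∧ ∃ u, Cone V u ∧ ∀ s, y u s = r s
    then 1 else 0)

open Classical in
/-- **HCX** (from RELX; `|P| = n + 1`, `A = {s : c_s > 0}`): with `a = #{s ∈ A : r_s = 0}`,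
`#{s : |s| = j, A ⊄ supp r ∪ supp s} = binom(j+n,n) - binom(j-a+n,n)` (generating function
`(1 - X^a)/(1-X)^{n+1}`), so `h_j = 1` for `j < a` and `0` for `j ≥ a`. -/
def StmtHCX : Prop := ∀ (n D : ℕ) (P : Type) [Fintype P] (V : P → Fin n → ℤ)
  (y : (Fin n → ℤ) → P → ℕ), 1 ≤ D → Fintype.card P = n + 1 → ∀ A : Finset P,
  (∀ t : P → ℕ, (∃ u, Cone V u ∧ ∀ s, y u s = t s) ↔
    (∃ u : Fin n → ℤ, (D : ℤ) • u = ∑ s, (t s : ℤ) • V s) ∧ ∃ s ∈ A, t s = 0) →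
  ∀ (r : P → ℕ) (j : ℕ), (hj D V y r j = if j < (A.filter fun s => r s = 0).card ∧
    (∃ u : Fin n → ℤ, (D : ℤ) • u = ∑ s, (r s : ℤ) • V s) then 1 else 0)

end ASX
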